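import Mathlib

/-!
# The cells `Conf^{s^m}_{s^n}` for `A_1`, their regular functions, seeds and cluster Poisson transformations
-/

open scoped LinearAlgebra.Projectivization

namespace Pool.Agent.Lib.MP_d4c67c_gt

/-- complete flags in `k²`, that is, points of the projective line -/
abbrev Flag (k : Type*) [Field k] : Type _ := ℙ k (Fin 2 → k)

/-- A configuration for `b = s^m`, `d = s^n`: two chains of flags
`B^0 → B^1 → ⋯ → B^m` (`up`) and `B_0 → B_1 → ⋯ → B_n` (`dn`), consecutive flags being different
(relative position `s`), with `(B^0, B_0)` and `(B^m, B_n)` in general position (different). -/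
structure Cfg (k : Type*) [Field k] (m n : ℕ) where
  up : Fin (m + 1) → Flag k
  dn : Fin (n + 1) → Flag k
  up_ne : ∀ i : Fin m, up i.castSucc ≠ up i.succ
  dn_ne : ∀ j : Fin n, dn j.castSucc ≠ dn j.succ
  left_ne : up 0 ≠ dn 0
  right_ne : up (Fin.last m) ≠ dn (Fin.last n)

/-- two configurations are equivalent if an element of `GL_2(k)` carries one to the other -/
instance cfgSetoid (k : Type*) [Field k] (m n : ℕ) : Setoid (Cfg k m n) where
  r p q := ∃ g : LinearMap.GeneralLinearGroup k (Fin 2 → k),
    (∀ i, g • p.up i = q.up i) ∧ (∀ j, g • p.dn j = q.dn j)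
  iseqv :=
    { refl := fun p => ⟨1, fun i => one_smul _ _, fun j => one_smul _ _⟩
      symm := by
        rintro p q ⟨g, h1, h2⟩
        exact ⟨g⁻¹, fun i => by rw [← h1, inv_smul_smul], fun j => by rw [← h2, inv_smul_smul]⟩
      trans := by
        rintro p q r ⟨g, h1, h2⟩ ⟨g', h1', h2'⟩
        exact ⟨g' * g, fun i => by rw [mul_smul, h1, h1'], fun j => by rw [mul_smul, h2, h2']⟩ }

/-- the double Bott-Samelson cell `Conf^{s^m}_{s^n}` of type `A_1` (its `k`-points) -/
def Conf (k : Type*) [Field k] (m n : ℕ) : Type _ := Quotient (cfgSetoid k m n)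

section regular

variable {k : Type*} [Field k] {m n : ℕ}

/-- determinant of two vectors of `k²` -/
def det2 {k : Type*} [Field k] (v w : Fin 2 → k) : k := v 0 * w 1 - v 1 * w 0

/-- a framing of a configuration: a nonzero vector on each of its lines -/
def IsFraming (p : Cfg k m n) (v : Fin (m + 1) ⊕ Fin (n + 1) → Fin 2 → k) : Prop :=
  (∀ i, ∃ h : v (Sum.inl i) ≠ 0, p.up i = Projectivization.mk k (v (Sum.inl i)) h) ∧
  (∀ j, ∃ h : v (Sum.inr j) ≠ 0, p.dn j = Projectivization.mk k (v (Sum.inr j)) h)

/-- the product of the determinants of all pairs of framing vectors of adjacent flags: a family of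
vectors frames a configuration if and only if this product is not zero -/
def bdry (v : Fin (m + 1) ⊕ Fin (n + 1) → Fin 2 → k) : k :=
  (∏ i : Fin m, det2 (v (Sum.inl i.castSucc)) (v (Sum.inl i.succ))) *
  (∏ j : Fin n, det2 (v (Sum.inr j.castSucc)) (v (Sum.inr j.succ))) *
  det2 (v (Sum.inl 0)) (v (Sum.inr 0)) *
  det2 (v (Sum.inl (Fin.last m))) (v (Sum.inr (Fin.last n)))

/-- Regular functions on `Conf`: those whose pull-back to the space of framed configurations (the
principal open set `bdry ≠ 0` of the affine space of families of vectors) is regular, that is, a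
polynomial in the coordinates divided by a power of `bdry`. -/
def IsRegular (f : Conf k m n → k) : Prop :=
  ∃ (P : MvPolynomial ((Fin (m + 1) ⊕ Fin (n + 1)) × Fin 2) k) (e : ℕ),
    ∀ (p : Cfg k m n) (v : Fin (m + 1) ⊕ Fin (n + 1) → Fin 2 → k), IsFraming p v →
      f (Quotient.mk _ p) * bdry v ^ e = MvPolynomial.eval (fun a => v a.1 a.2) P

variable {m' n' : ℕ}

/-- a map of cells is regular if it pulls regular functions back to regular functions -/
def IsRegularMap (Φ : Conf k m n → Conf k m' n') : Prop :=
  ∀ f : Conf k m' n' → k, IsRegular f → IsRegular (f ∘ Φ)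

end regular

/-- a seed with `r` unfrozen vertices and values in a field `K`: exchange matrix and coordinates -/
@[ext] structure Seed (K : Type*) (r : ℕ) where
  ε : Fin r → Fin r → ℤ
  y : Fin r → K

namespace Seed

variable {K : Type*} [Field K] {r r' : ℕ}

/-- cluster Poisson mutation (Fock-Goncharov) in direction `c` -/
def mutate (s : Seed K r) (c : Fin r) : Seed K r where
  ε i j := if i = c ∨ j = c then - s.ε i j
    else s.ε i j + (|s.ε i c| * s.ε c j + s.ε i c * |s.ε c j|) / 2
  y i := if i = c then (s.y c)⁻¹
    else s.y i * (1 + s.y c ^ (-(s.ε i c).sign)) ^ (-(s.ε i c))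

/-- a sequence of mutations -/
def muts (s : Seed K r) (L : List (Fin r)) : Seed K r := L.foldl Seed.mutate s

/-- seed isomorphism: relabelling of the vertices -/
def relabel (e : Fin r ≃ Fin r') (s : Seed K r) : Seed K r' where
  ε i j := s.ε (e.symm i) (e.symm j)
  y i := s.y (e.symm i)

end Seed

/-- number of letters `U` (`true`) among the first `t` letters of a word in `U`, `D` -/
def nU (w : ℕ → Bool) : ℕ → ℕ
  | 0 => 0
  | (t + 1) => nU w t + (if w t then 1 else 0)

/-- number of letters `D` (`false`) among the first `t` letters of a word in `U`, `D` -/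
def nD (w : ℕ → Bool) : ℕ → ℕ
  | 0 => 0
  | (t + 1) => nD w t + (if w t then 0 else 1)

/-- exchange matrix of the triangulation of the trapezoid given by the word `w` (vertex `a` is the
diagonal between the triangles number `a` and `a + 1`) -/
def epsW (r : ℕ) (w : ℕ → Bool) (a b : Fin r) : ℤ :=
  if b.val = a.val + 1 then (if w b.val then -1 else 1)
  else if a.val = b.val + 1 then (if w a.val then 1 else -1)
  else 0

section seeds

variable {k : Type*} [Field k] {m n : ℕ}

/-- cross ratio of four flags -/
noncomputable def cr (p q r s : Flag k) : k :=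
  det2 p.rep q.rep * det2 r.rep s.rep / (det2 q.rep r.rep * det2 p.rep s.rep)

/-- the flag `B^i` -/
def Cfg.U (p : Cfg k m n) (i : ℕ) : Flag k := p.up (Fin.ofNat (m + 1) i)

/-- the flag `B_j` -/
def Cfg.D (p : Cfg k m n) (j : ℕ) : Flag k := p.dn (Fin.ofNat (n + 1) j)

/-- The seed of the triangulation of the trapezoid given by a word `w` with `m` letters `U` and `n`
letters `D`.  The letters are the triangles from left to right; a letter `U` is a triangle with base
`B^i B^(i+1)` and apex `B_j`, a letter `D` a triangle with base `B_j B_(j+1)` and apex `B^i`.  The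
vertices of the seed are the `m + n - 1` diagonals `B^i B_j` between consecutive triangles, and the
coordinate at a diagonal is the cross ratio `(B^i, Q, B_j, P)`, where `P` (`Q`) is the third vertex of
the triangle to its left (right). -/
noncomputable def seedOf (w : ℕ → Bool) (p : Cfg k m n) : Seed k (m + n - 1) where
  ε := epsW (m + n - 1) w
  y a := cr (p.U (nU w (a + 1)))
    (if w (a + 1) then p.U (nU w (a + 1) + 1) else p.D (nD w (a + 1) + 1))
    (p.D (nD w (a + 1)))
    (if w a then p.U (nU w (a + 1) - 1) else p.D (nD w (a + 1) - 1))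

variable {m' n' : ℕ}

/-- `Φ` is a cluster Poisson transformation: for some seed (triangulation) of the source and some seed
of the target there are a sequence of mutations `L` and a relabelling `e` such that, on a dense open set
(the locus `f ≠ 0` of a nonzero regular function), `Φ` is given in these cluster coordinates by `L`
followed by `e`. -/
def IsClusterPoisson (Φ : Conf k m n → Conf k m' n') : Prop :=
  ∃ (w w' : ℕ → Bool) (L : List (Fin (m + n - 1))) (e : Fin (m + n - 1) ≃ Fin (m' + n' - 1))
    (f : Conf k m n → k), nU w (m + n) = m ∧ nU w' (m' + n') = m' ∧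
    IsRegular f ∧ (∃ P, f P ≠ 0) ∧
    ∀ (p : Cfg k m n) (q : Cfg k m' n'), Φ (Quotient.mk _ p) = Quotient.mk _ q →
      f (Quotient.mk _ p) ≠ 0 → ((seedOf w p).muts L).relabel e = seedOf w' q

/-- reading a configuration from right to left, on representatives -/
def Cfg.revC (p : Cfg k m n) : Cfg k m n where
  up i := p.up (Fin.rev i)
  dn j := p.dn (Fin.rev j)
  up_ne i := by
    have h := (p.up_ne (Fin.rev i)).symm
    rwa [← Fin.rev_castSucc, ← Fin.rev_succ] at h
  dn_ne j := by
    have h := (p.dn_ne (Fin.rev j)).symm
    rwa [← Fin.rev_castSucc, ← Fin.rev_succ] at h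
  left_ne := by simpa using p.right_ne
  right_ne := by simpa using p.left_ne

/-- reading a configuration from right to left -/
def rev : Conf k m n → Conf k m n :=
  Quotient.map Cfg.revC (by
    rintro p q ⟨g, h1, h2⟩
    exact ⟨g, fun i => h1 _, fun j => h2 _⟩)

end seeds

end Pool.Agent.Lib.MP_d4c67c_gt
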