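import Pool.Agent.Lib.MP_d4c67c_gt.Fr
import Pool.Agent.Lib.MP_d4c67c_gt.Defs

/-!
# JOB CfA: cyclic labelling of the flags of a configuration

`N = m + n + 2`; label `0, …, m`: `B^0, …, B^m`; labels `m+1, …, m+n+1`: `B_n, …, B_0`.
-/

open scoped LinearAlgebra.Projectivization

namespace Pool.Agent.Lib.MP_d4c67c_gt

variable {k : Type*} [Field k] {m n : ℕ}

/-- the flag with cyclic label `i` -/
def pt (p : Cfg k m n) (i : ZMod (m + n + 2)) : Flag k :=
  if h : i.val ≤ m then p.up ⟨i.val, by omega⟩ else p.dn ⟨m + n + 1 - i.val, by omega⟩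

theorem pt_up (p : Cfg k m n) (i : ℕ) (hi : i ≤ m) :
    pt p ((i : ℕ) : ZMod (m + n + 2)) = p.up ⟨i, by omega⟩ := by
  have hv : ((i : ℕ) : ZMod (m + n + 2)).val = i := ZMod.val_natCast_of_lt (by omega)
  have h : ((i : ℕ) : ZMod (m + n + 2)).val ≤ m := by rw [hv]; exact hi
  unfold pt
  rw [dif_pos h]
  exact congrArg p.up (Fin.ext hv)

theorem pt_dn (p : Cfg k m n) (j : ℕ) (hj : j ≤ n) :
    pt p (((m + n + 1 - j : ℕ)) : ZMod (m + n + 2)) = p.dn ⟨j, by omega⟩ := by
  have hv : (((m + n + 1 - j : ℕ)) : ZMod (m + n + 2)).val = m + n + 1 - j :=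
    ZMod.val_natCast_of_lt (by omega)
  have h : ¬ (((m + n + 1 - j : ℕ)) : ZMod (m + n + 2)).val ≤ m := by rw [hv]; omega
  unfold pt
  rw [dif_neg h]
  refine congrArg p.dn (Fin.ext ?_)
  show m + n + 1 - (((m + n + 1 - j : ℕ)) : ZMod (m + n + 2)).val = j
  rw [hv]
  omega

private theorem cfA_top : (((m + n + 1 : ℕ)) : ZMod (m + n + 2)) + 1 = 0 := by
  have := ZMod.natCast_self (m + n + 2)
  push_cast at this ⊢
  linear_combination this

private theorem cfA_cases (Q : ZMod (m + n + 2) → Prop) (h1 : ∀ a : ℕ, a < m → Q (a : ℕ))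
    (h2 : Q (m : ℕ)) (h3 : ∀ j : ℕ, j < n → Q ((m + n + 1 - (j + 1) : ℕ)))
    (h4 : Q ((m + n + 1 : ℕ))) (i : ZMod (m + n + 2)) : Q i := by
  have hi := ZMod.natCast_zmod_val i
  have hlt := ZMod.val_lt i
  rw [← hi]
  generalize i.val = a at hlt
  rcases lt_trichotomy a m with h | h | h
  · exact h1 a h
  · rw [h]
    exact h2
  · by_cases h5 : a = m + n + 1
    · rw [h5]
      exact h4
    · have h6 := h3 (m + n - a) (by omega)
      have h7 : m + n + 1 - (m + n - a + 1) = a := by omega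
      rwa [h7] at h6

private theorem cfA_succ (a : ℕ) :
    ((a : ℕ) : ZMod (m + n + 2)) + 1 = ((a + 1 : ℕ) : ZMod (m + n + 2)) := by
  push_cast
  ring

private theorem cfA_down (j : ℕ) (hj : j < n) :
    ((m + n + 1 - (j + 1) : ℕ) : ZMod (m + n + 2)) + 1 = ((m + n + 1 - j : ℕ) : ZMod (m + n + 2)) := by
  rw [cfA_succ]
  have : m + n + 1 - (j + 1) + 1 = m + n + 1 - j := by omega
  rw [this]

private theorem cfA_mid :
    ((m : ℕ) : ZMod (m + n + 2)) + 1 = ((m + n + 1 - n : ℕ) : ZMod (m + n + 2)) := by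
  rw [cfA_succ]
  have : m + n + 1 - n = m + 1 := by omega
  rw [this]

/-- Cases `i.val < m` (`up_ne`), `i.val = m` (`right_ne`), `m < i.val < m + n + 1` (`dn_ne`, reversed order),
`i.val = m + n + 1` (`left_ne`, `i + 1 = 0`). -/
theorem pt_ne (p : Cfg k m n) (i : ZMod (m + n + 2)) : pt p i ≠ pt p (i + 1) := by
  refine cfA_cases (fun i => pt p i ≠ pt p (i + 1)) ?_ ?_ ?_ ?_ i
  · intro a ha
    show pt p (a : ℕ) ≠ pt p ((a : ℕ) + 1)
    rw [cfA_succ, pt_up p a (by omega), pt_up p (a + 1) (by omega)]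
    exact p.up_ne ⟨a, ha⟩
  · show pt p (m : ℕ) ≠ pt p ((m : ℕ) + 1)
    rw [cfA_mid, pt_up p m le_rfl, pt_dn p n le_rfl]
    exact p.right_ne
  · intro j hj
    show pt p ((m + n + 1 - (j + 1) : ℕ)) ≠ pt p ((m + n + 1 - (j + 1) : ℕ) + 1)
    rw [cfA_down j hj, pt_dn p (j + 1) (by omega), pt_dn p j (by omega)]
    exact (p.dn_ne ⟨j, hj⟩).symm
  · show pt p ((m + n + 1 : ℕ)) ≠ pt p ((m + n + 1 : ℕ) + 1)
    rw [cfA_top]
    have h1 := pt_up p 0 (Nat.zero_le m)
    have h2 := pt_dn p 0 (Nat.zero_le n)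
    rw [Nat.cast_zero] at h1
    rw [Nat.sub_zero] at h2
    rw [h1, h2]
    exact p.left_ne.symm

/-- the configuration with given cyclic labels -/
def ofPt (P : ZMod (m + n + 2) → Flag k) (h : ∀ i, P i ≠ P (i + 1)) : Cfg k m n where
  up i := P ((i.val : ℕ) : ZMod (m + n + 2))
  dn j := P (((m + n + 1 - j.val : ℕ)) : ZMod (m + n + 2))
  up_ne i := by
    have h1 := h ((i.val : ℕ) : ZMod (m + n + 2))
    rw [cfA_succ] at h1
    exact h1
  dn_ne j := by
    have h1 := h ((m + n + 1 - (j.val + 1) : ℕ) : ZMod (m + n + 2))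
    rw [cfA_down j.val j.isLt] at h1
    exact h1.symm
  left_ne := by
    have h1 := h ((m + n + 1 : ℕ) : ZMod (m + n + 2))
    rw [cfA_top] at h1
    have h2 : P ((((0 : Fin (m + 1)).val : ℕ)) : ZMod (m + n + 2)) = P 0 :=
      congrArg P (by simp)
    have h3 : P (((m + n + 1 - (0 : Fin (n + 1)).val : ℕ)) : ZMod (m + n + 2)) =
        P ((m + n + 1 : ℕ) : ZMod (m + n + 2)) :=
      congrArg P (by simp)
    rw [h2, h3]
    exact h1.symm
  right_ne := by
    have h1 := h ((m : ℕ) : ZMod (m + n + 2))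
    rw [cfA_mid] at h1
    exact h1

theorem pt_ofPt (P : ZMod (m + n + 2) → Flag k) (h : ∀ i, P i ≠ P (i + 1)) (i : ZMod (m + n + 2)) :
    pt (ofPt P h) i = P i := by
  have hi := ZMod.natCast_zmod_val i
  have hlt := ZMod.val_lt i
  unfold pt
  by_cases h1 : i.val ≤ m
  · rw [dif_pos h1]
    exact congrArg P hi
  · rw [dif_neg h1]
    refine congrArg P ?_
    show ((m + n + 1 - (m + n + 1 - i.val) : ℕ) : ZMod (m + n + 2)) = i
    have h2 : m + n + 1 - (m + n + 1 - i.val) = i.val := by omega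
    rw [h2]
    exact hi

theorem pt_injective {p q : Cfg k m n} (h : ∀ i, pt p i = pt q i) : p = q := by
  have hu : p.up = q.up := by
    funext a
    have h1 := h ((a.val : ℕ) : ZMod (m + n + 2))
    rw [pt_up p a.val (by omega), pt_up q a.val (by omega)] at h1
    exact h1
  have hd : p.dn = q.dn := by
    funext j
    have h1 := h ((m + n + 1 - j.val : ℕ) : ZMod (m + n + 2))
    rw [pt_dn p j.val (by omega), pt_dn q j.val (by omega)] at h1
    exact h1
  cases p
  cases q
  cases hu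
  cases hd
  rfl

theorem equiv_iff (p q : Cfg k m n) :
    p ≈ q ↔ ∃ g : LinearMap.GeneralLinearGroup k (Fin 2 → k), ∀ i, g • pt p i = pt q i := by
  constructor
  · rintro ⟨g, h1, h2⟩
    refine ⟨g, fun i => ?_⟩
    unfold pt
    by_cases h3 : i.val ≤ m
    · rw [dif_pos h3, dif_pos h3]
      exact h1 _
    · rw [dif_neg h3, dif_neg h3]
      exact h2 _
  · rintro ⟨g, h⟩
    refine ⟨g, fun a => ?_, fun j => ?_⟩
    · have h1 := h ((a.val : ℕ) : ZMod (m + n + 2))
      rw [pt_up p a.val (by omega), pt_up q a.val (by omega)] at h1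
      exact h1
    · have h1 := h ((m + n + 1 - j.val : ℕ) : ZMod (m + n + 2))
      rw [pt_dn p j.val (by omega), pt_dn q j.val (by omega)] at h1
      exact h1

/-- the polygon of a frieze -/
def vec {N : ℕ} (F : Fr N k) (i : ZMod N) : Fin 2 → k := ![F.x i 1, F.x 0 i]

/-- `Fr.x_eq` -/
theorem det2_vec {l : ℕ} (F : Fr (l + 2) k) (i j : ZMod (l + 2)) :
    det2 (vec F i) (vec F j) = F.x i j := by
  rw [F.x_eq i j]
  rfl

theorem vec_ne_zero {l : ℕ} (F : Fr (l + 2) k) (i : ZMod (l + 2)) : vec F i ≠ 0 := by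
  intro h
  have h1 := det2_vec F i (i + 1)
  rw [F.one, h] at h1
  unfold det2 at h1
  simp at h1

/-- two nonzero vectors of `k²` define the same point if and only if their determinant is zero -/
theorem mk_eq_mk_iff_det2 {v w : Fin 2 → k} (hv : v ≠ 0) (hw : w ≠ 0) :
    Projectivization.mk k v hv = Projectivization.mk k w hw ↔ det2 v w = 0 := by
  rw [Projectivization.mk_eq_mk_iff']
  unfold det2
  constructor
  · rintro ⟨a, rfl⟩
    simp only [Pi.smul_apply, smul_eq_mul]
    ring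
  · intro h
    by_cases h0 : w 0 = 0
    · have h1 : w 1 ≠ 0 := by
        intro h1
        apply hw
        funext i
        fin_cases i
        · exact h0
        · exact h1
      refine ⟨v 1 / w 1, ?_⟩
      funext i
      fin_cases i
      · show v 1 / w 1 * w 0 = v 0
        rw [h0, mul_zero, sub_zero] at h
        rw [h0, mul_zero]
        exact ((mul_eq_zero.1 h).resolve_right h1).symm
      · show v 1 / w 1 * w 1 = v 1
        field_simp
    · refine ⟨v 0 / w 0, ?_⟩
      funext i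
      fin_cases i
      · show v 0 / w 0 * w 0 = v 0
        field_simp
      · show v 0 / w 0 * w 1 = v 1
        rw [div_mul_eq_mul_div, div_eq_iff h0]
        linear_combination h

/-- the configuration of a frieze -/
def cfgOf (F : Fr (m + n + 2) k) : Cfg k m n :=
  ofPt (fun i => Projectivization.mk k (vec F i) (vec_ne_zero F i)) (by
    intro i h
    rw [mk_eq_mk_iff_det2, det2_vec, F.one] at h
    exact one_ne_zero h)

theorem pt_cfgOf (F : Fr (m + n + 2) k) (i : ZMod (m + n + 2)) :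
    pt (cfgOf F : Cfg k m n) i = Projectivization.mk k (vec F i) (vec_ne_zero F i) :=
  pt_ofPt _ _ i

end Pool.Agent.Lib.MP_d4c67c_gt
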