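import Pool.Agent.Lib.MP_d4c67c_gt.CfA

/-!
# JOB CfB: classes of configurations correspond to friezes (`m + n` odd)

(You may use `CfA.lean`, which is another job.)
-/

open scoped LinearAlgebra.Projectivization

namespace Pool.Agent.Lib.MP_d4c67c_gt

variable {k : Type*} [Field k] {m n : ℕ}

/-- an invertible linear map multiplies all determinants by a constant: `δ = det2 (g e₀) (g e₁)`; it is not zero
because otherwise `g` would not be injective (or use the multiplicativity with `g⁻¹`) -/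
theorem det2_gl (g : LinearMap.GeneralLinearGroup k (Fin 2 → k)) :
    ∃ δ : k, δ ≠ 0 ∧ ∀ v w : Fin 2 → k, det2 (g • v) (g • w) = δ * det2 v w := by
  have hexp : ∀ v : Fin 2 → k, g • v =
      v 0 • (g • (![1, 0] : Fin 2 → k)) + v 1 • (g • (![0, 1] : Fin 2 → k)) := by
    intro v
    have h1 : v = v 0 • (![1, 0] : Fin 2 → k) + v 1 • (![0, 1] : Fin 2 → k) := by
      funext i
      fin_cases i <;> simp
    have h2 : g • v = g • (v 0 • (![1, 0] : Fin 2 → k) + v 1 • (![0, 1] : Fin 2 → k)) :=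
      congrArg (fun z => g • z) h1
    rw [h2, smul_add, smul_comm g (v 0), smul_comm g (v 1)]
  have key : ∀ v w : Fin 2 → k, det2 (g • v) (g • w) =
      det2 (g • (![1, 0] : Fin 2 → k)) (g • (![0, 1] : Fin 2 → k)) * det2 v w := by
    intro v w
    rw [hexp v, hexp w]
    unfold det2
    simp only [Pi.add_apply, Pi.smul_apply, smul_eq_mul]
    ring
  refine ⟨_, ?_, key⟩
  intro h0
  have h1 := key (g⁻¹ • (![1, 0] : Fin 2 → k)) (g⁻¹ • (![0, 1] : Fin 2 → k))
  rw [h0, zero_mul, smul_inv_smul, smul_inv_smul] at h1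
  simp [det2] at h1

/-- If vectors `v i` on the lines of `p` have determinants `c * F.x i j`, `c ≠ 0`, then `p` is equivalent to
`cfgOf F`.  The linear map `u ↦ c⁻¹ • ![det2 u (v 1), det2 (v 0) u]` is invertible (`det2 (v 0) (v 1) = c ≠ 0`; e.g. it is
injective on a finite dimensional space, `LinearEquiv.ofInjectiveEndo`) and sends `v i` to `vec F i`. -/
theorem equiv_cfgOf (p : Cfg k m n) (v : ZMod (m + n + 2) → Fin 2 → k)
    (hv : ∀ i, ∃ h : v i ≠ 0, pt p i = Projectivization.mk k (v i) h) (F : Fr (m + n + 2) k) (c : k)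
    (hc : c ≠ 0) (h : ∀ i j, det2 (v i) (v j) = c * F.x i j) : p ≈ cfgOf F := by
  have h01 : det2 (v 0) (v 1) = c := by
    have h1 := F.one 0
    rw [zero_add] at h1
    rw [h, h1, mul_one]
  let T : (Fin 2 → k) →ₗ[k] (Fin 2 → k) :=
    { toFun := fun u => c⁻¹ • ![det2 u (v 1), det2 (v 0) u]
      map_add' := by
        intro a b
        funext i
        fin_cases i <;> simp [det2] <;> ring
      map_smul' := by
        intro a b
        funext i
        fin_cases i <;> simp [det2] <;> ring }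
  have hT : ∀ u, T u = c⁻¹ • ![det2 u (v 1), det2 (v 0) u] := fun u => rfl
  have hinj : Function.Injective T := by
    rw [← LinearMap.ker_eq_bot, LinearMap.ker_eq_bot']
    intro u hu
    rw [hT] at hu
    have h0 := congrFun hu 0
    have h1 := congrFun hu 1
    simp only [Pi.smul_apply, smul_eq_mul, Matrix.cons_val_zero, Matrix.cons_val_one,
      Pi.zero_apply, mul_eq_zero, inv_eq_zero, hc, false_or] at h0 h1
    have h2 : ∀ i, c * u i = det2 u (v 1) * v 0 i + det2 (v 0) u * v 1 i := by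
      intro i
      rw [← h01]
      fin_cases i <;> simp [det2] <;> ring
    funext i
    have h3 := h2 i
    rw [h0, h1, zero_mul, zero_mul, add_zero] at h3
    exact (mul_eq_zero.mp h3).resolve_left hc
  have hTv : ∀ i, T (v i) = vec F i := by
    intro i
    rw [hT, h, h]
    unfold vec
    funext j
    fin_cases j <;> simp [hc]
  rw [equiv_iff]
  refine ⟨LinearMap.GeneralLinearGroup.ofLinearEquiv (LinearEquiv.ofInjectiveEndo T hinj),
    fun i => ?_⟩
  obtain ⟨h1, h2⟩ := hv i
  have h3 : LinearMap.GeneralLinearGroup.ofLinearEquiv (LinearEquiv.ofInjectiveEndo T hinj) •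
      v i = vec F i := by
    rw [← hTv i]
    rfl
  rw [h2, pt_cfgOf, Projectivization.smul_mk, Projectivization.mk_eq_mk_iff']
  exact ⟨1, by rw [one_smul, h3]⟩

/-- Scalars: for `N = l + 2` odd and nonzero `d i` there are nonzero `μ i` with `μ i * μ (i+1) * d i = 1`.
Put `r 0 = 1`, `r (i+1) = 1 / (d i * r i)` for natural `i ≤ l`, and `μ i = s ^ (±1) * r i` (`+` for `i.val` even), where
`s ^ 2 = 1 / (r (l+1) * d (l+1))` (algebraically closed; `l + 1` is even). -/
theorem exists_scalars [IsAlgClosed k] (l : ℕ) (ho : Odd l) (d : ZMod (l + 2) → k) (hd : ∀ i, d i ≠ 0) :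
    ∃ μ : ZMod (l + 2) → k, (∀ i, μ i ≠ 0) ∧ ∀ i, μ i * μ (i + 1) * d i = 1 := by
  let r : ℕ → k := fun j => Nat.rec 1 (fun i ri => 1 / (d ((i : ℕ) : ZMod (l + 2)) * ri)) j
  have hr0 : r 0 = 1 := rfl
  have hrs : ∀ i, r (i + 1) = 1 / (d ((i : ℕ) : ZMod (l + 2)) * r i) := fun i => rfl
  have hr : ∀ i, r i ≠ 0 := by
    intro i
    induction i with
    | zero => rw [hr0]; exact one_ne_zero
    | succ i ih =>
      rw [hrs]
      exact one_div_ne_zero (mul_ne_zero (hd _) ih)
  have hrr : ∀ i : ℕ, r i * r (i + 1) * d ((i : ℕ) : ZMod (l + 2)) = 1 := by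
    intro i
    rw [hrs]
    have h1 := hr i
    have h2 := hd ((i : ℕ) : ZMod (l + 2))
    field_simp
  obtain ⟨s, hs⟩ := IsAlgClosed.exists_pow_nat_eq
    (1 / (r (l + 1) * d (((l + 1 : ℕ)) : ZMod (l + 2)))) (n := 2) (by norm_num)
  have hq : r (l + 1) * d (((l + 1 : ℕ)) : ZMod (l + 2)) ≠ 0 :=
    mul_ne_zero (hr (l + 1)) (hd _)
  have hs0 : s ≠ 0 := by
    intro h0
    rw [h0, zero_pow (by norm_num)] at hs
    exact one_div_ne_zero hq hs.symm
  refine ⟨fun i => (if Even i.val then s else s⁻¹) * r i.val, fun i => ?_, fun i => ?_⟩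
  · refine mul_ne_zero ?_ (hr _)
    split_ifs
    · exact hs0
    · exact inv_ne_zero hs0
  · have hv := ZMod.val_lt i
    have hi : ((i.val : ℕ) : ZMod (l + 2)) = i := ZMod.natCast_zmod_val i
    by_cases h : i.val + 1 < l + 2
    · have h1 : (i + 1).val = i.val + 1 := by
        rw [ZMod.val_add_of_lt]
        · rw [ZMod.val_one'' (by omega)]
        · rw [ZMod.val_one'' (by omega)]; exact h
      have h2 := hrr i.val
      rw [hi] at h2
      show (if Even i.val then s else s⁻¹) * r i.val *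
        ((if Even (i + 1).val then s else s⁻¹) * r (i + 1).val) * d i = 1
      rw [h1]
      have h3 : (if Even i.val then s else s⁻¹) * (if Even (i.val + 1) then s else s⁻¹) = 1 := by
        by_cases he : Even i.val
        · rw [if_pos he, if_neg (by rw [Nat.even_add_one]; exact not_not.2 he)]
          exact mul_inv_cancel₀ hs0
        · rw [if_neg he, if_pos (by rw [Nat.even_add_one]; exact he)]
          exact inv_mul_cancel₀ hs0
      calc (if Even i.val then s else s⁻¹) * r i.val *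
            ((if Even (i.val + 1) then s else s⁻¹) * r (i.val + 1)) * d i
          = ((if Even i.val then s else s⁻¹) * (if Even (i.val + 1) then s else s⁻¹)) *
            (r i.val * r (i.val + 1) * d i) := by ring
        _ = 1 := by rw [h3, h2, one_mul]
    · have h1 : i.val = l + 1 := by omega
      have hi2 : i = ((l + 1 : ℕ) : ZMod (l + 2)) := by rw [← h1, hi]
      have h2 : (i + 1).val = 0 := by
        rw [ZMod.val_eq_zero]
        rw [hi2]
        have := ZMod.natCast_self (l + 2)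
        push_cast at this ⊢
        linear_combination this
      show (if Even i.val then s else s⁻¹) * r i.val *
        ((if Even (i + 1).val then s else s⁻¹) * r (i + 1).val) * d i = 1
      rw [h2, h1, if_pos (by rcases ho with ⟨q, hq⟩; exact ⟨q + 1, by omega⟩ : Even (l + 1)),
        if_pos (by exact ⟨0, rfl⟩ : Even 0), hr0, hi2]
      calc s * r (l + 1) * (s * 1) * d (((l + 1 : ℕ)) : ZMod (l + 2))
          = s ^ 2 * (r (l + 1) * d (((l + 1 : ℕ)) : ZMod (l + 2))) := by ring
        _ = 1 := by rw [hs, one_div, inv_mul_cancel₀ hq]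

/-- Surjectivity: take `v i = (pt p i).rep`, `d i = det2 (v i) (v (i+1)) ≠ 0` (`pt_ne`, `mk_eq_mk_iff_det2`), `μ` from
`exists_scalars`, the polygon `μ i • v i`, `F = Fr.ofPoly` (pairs `((μ i • v i) 0, (μ i • v i) 1)`), and `equiv_cfgOf`
with `c = 1`. -/
theorem cfgOf_surj [IsAlgClosed k] (ho : Odd (m + n)) (p : Cfg k m n) :
    ∃ F : Fr (m + n + 2) k, p ≈ cfgOf F := by
  have hd : ∀ i : ZMod (m + n + 2), det2 (pt p i).rep (pt p (i + 1)).rep ≠ 0 := by
    intro i h0
    apply pt_ne p i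
    rw [← mk_eq_mk_iff_det2 (pt p i).rep_nonzero (pt p (i + 1)).rep_nonzero,
      Projectivization.mk_rep, Projectivization.mk_rep] at h0
    exact h0
  obtain ⟨μ, hμ, hμ1⟩ := exists_scalars (m + n) ho
    (fun i => det2 (pt p i).rep (pt p (i + 1)).rep) hd
  have hW : ∀ i : ZMod (m + n + 2),
      dt (((μ i • (pt p i).rep) 0, (μ i • (pt p i).rep) 1))
        (((μ (i + 1) • (pt p (i + 1)).rep) 0, (μ (i + 1) • (pt p (i + 1)).rep) 1)) = 1 := by
    intro i
    rw [← hμ1 i]
    simp only [dt, det2, Pi.smul_apply, smul_eq_mul]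
    ring
  refine ⟨Fr.ofPoly (fun i => ((μ i • (pt p i).rep) 0, (μ i • (pt p i).rep) 1)) hW, ?_⟩
  refine equiv_cfgOf p (fun i => μ i • (pt p i).rep) (fun i => ?_) _ 1 one_ne_zero fun i j => ?_
  · have h1 : μ i • (pt p i).rep ≠ 0 := smul_ne_zero (hμ i) (pt p i).rep_nonzero
    refine ⟨h1, ?_⟩
    have h2 : Projectivization.mk k (pt p i).rep (pt p i).rep_nonzero =
        Projectivization.mk k (μ i • (pt p i).rep) h1 := by
      rw [Projectivization.mk_eq_mk_iff']
      exact ⟨(μ i)⁻¹, by rw [smul_smul, inv_mul_cancel₀ (hμ i), one_smul]⟩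
    rw [← h2, Projectivization.mk_rep]
  · rw [one_mul]
    rfl

/-- Injectivity: `g • mk (vec F i) = mk (vec G i)`, so `g • vec F i = μ i • vec G i`, `μ i ≠ 0`; then
`δ * F.x i j = μ i * μ j * G.x i j` (`det2_gl`, `det2_vec`); `j = i + 1` gives `μ i * μ (i+1) = δ`, so
`μ (i+2) = μ i`, and as `N` is odd all `μ i` are equal (`2` generates `ZMod N`), `μ i * μ j = δ`. -/
theorem cfgOf_inj (ho : Odd (m + n)) (F G : Fr (m + n + 2) k)
    (h : (cfgOf F : Cfg k m n) ≈ cfgOf G) : F = G := by
  rw [equiv_iff] at h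
  obtain ⟨g, hg⟩ := h
  have hex : ∀ i : ZMod (m + n + 2), ∃ a : kˣ, a • vec G i = g • vec F i := by
    intro i
    have h1 := hg i
    rw [pt_cfgOf, pt_cfgOf, Projectivization.smul_mk, Projectivization.mk_eq_mk_iff] at h1
    exact h1
  choose μ hμ using hex
  obtain ⟨δ, hδ, hdet⟩ := det2_gl g
  have hF : ∀ i j : ZMod (m + n + 2), δ * F.x i j = (μ i : k) * (μ j : k) * G.x i j := by
    intro i j
    have h1 := hdet (vec F i) (vec F j)
    rw [← hμ i, ← hμ j, det2_vec] at h1
    rw [← h1, ← det2_vec G i j]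
    simp only [det2, Units.smul_def, Pi.smul_apply, smul_eq_mul]
    ring
  have h1 : ∀ i : ZMod (m + n + 2), (μ i : k) * (μ (i + 1) : k) = δ := by
    intro i
    have h2 := hF i (i + 1)
    rw [F.one, G.one, mul_one, mul_one] at h2
    exact h2.symm
  have h2 : ∀ i : ZMod (m + n + 2), (μ (i + 2) : k) = (μ i : k) := by
    intro i
    have h3 := h1 i
    have h4 := h1 (i + 1)
    have e : i + 1 + 1 = i + 2 := by ring
    rw [e] at h4
    have h5 : (μ (i + 1) : k) ≠ 0 := (μ (i + 1)).ne_zero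
    have h6 : (μ (i + 1) : k) * (μ (i + 2) : k) = (μ (i + 1) : k) * (μ i : k) := by
      rw [h4, ← h3, mul_comm]
    exact mul_left_cancel₀ h5 h6
  have h3 : ∀ (t : ℕ) (i : ZMod (m + n + 2)), (μ (i + 2 * (t : ZMod (m + n + 2))) : k) = (μ i : k) := by
    intro t
    induction t with
    | zero => intro i; rw [Nat.cast_zero, mul_zero, add_zero]
    | succ t ih =>
      intro i
      have e : i + 2 * (((t + 1 : ℕ)) : ZMod (m + n + 2)) =
          i + 2 * (t : ZMod (m + n + 2)) + 2 := by
        push_cast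
        ring
      rw [e, h2, ih]
  have h4 : ∀ i : ZMod (m + n + 2), (μ (i + 1) : k) = (μ i : k) := by
    intro i
    obtain ⟨q, hq⟩ := ho
    have e : i + 2 * (((q + 2 : ℕ)) : ZMod (m + n + 2)) = i + 1 := by
      have h5 := ZMod.natCast_self (m + n + 2)
      have h6 : ((m + n + 2 : ℕ) : ZMod (m + n + 2)) =
          2 * (((q + 2 : ℕ)) : ZMod (m + n + 2)) - 1 := by
        have h7 : m + n + 2 + 1 = 2 * (q + 2) := by omega
        have h8 : ((m + n + 2 + 1 : ℕ) : ZMod (m + n + 2)) = ((2 * (q + 2) : ℕ) : ZMod (m + n + 2)) := by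
          rw [h7]
        rw [Nat.cast_add, Nat.cast_mul, Nat.cast_one] at h8
        rw [Nat.cast_ofNat] at h8
        linear_combination h8
      linear_combination h5 - h6
    rw [← e, h3]
  have h5 : ∀ (t : ℕ), (μ (t : ZMod (m + n + 2)) : k) = (μ 0 : k) := by
    intro t
    induction t with
    | zero => rw [Nat.cast_zero]
    | succ t ih => rw [Nat.cast_succ, h4, ih]
  have h6 : ∀ i : ZMod (m + n + 2), (μ i : k) = (μ 0 : k) := by
    intro i
    have h7 := h5 i.val
    rw [ZMod.natCast_zmod_val] at h7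
    exact h7
  apply Fr.ext
  funext i j
  have h7 := hF i j
  have h8 := h1 0
  rw [h6 i, h6 j] at h7
  rw [h6 (0 + 1)] at h8
  rw [h8] at h7
  exact mul_left_cancel₀ hδ h7

theorem cfgOf_bij [IsAlgClosed k] (ho : Odd (m + n)) :
    Function.Bijective (fun F : Fr (m + n + 2) k => (Quotient.mk _ (cfgOf F) : Conf k m n)) := by
  constructor
  · intro F G h
    exact cfgOf_inj ho F G (Quotient.exact h)
  · intro P
    obtain ⟨p, rfl⟩ := Quotient.exists_rep P
    obtain ⟨F, hF⟩ := cfgOf_surj ho p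
    exact ⟨F, (Quotient.sound hF).symm⟩

/-- the bijection between the points of `Conf` and friezes (`m + n` odd) -/
noncomputable def frz [IsAlgClosed k] (ho : Odd (m + n)) : Conf k m n ≃ Fr (m + n + 2) k :=
  (Equiv.ofBijective _ (cfgOf_bij ho)).symm

theorem frz_cfgOf [IsAlgClosed k] (ho : Odd (m + n)) (F : Fr (m + n + 2) k) :
    frz ho (Quotient.mk _ (cfgOf F) : Conf k m n) = F :=
  (Equiv.ofBijective _ (cfgOf_bij ho)).symm_apply_apply F

theorem frz_eq [IsAlgClosed k] (ho : Odd (m + n)) (p : Cfg k m n) (v : ZMod (m + n + 2) → Fin 2 → k)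
    (hv : ∀ i, ∃ h : v i ≠ 0, pt p i = Projectivization.mk k (v i) h) (F : Fr (m + n + 2) k) (c : k)
    (hc : c ≠ 0) (h : ∀ i j, det2 (v i) (v j) = c * F.x i j) :
    frz ho (Quotient.mk _ p : Conf k m n) = F := by
  have : (Quotient.mk _ p : Conf k m n) = Quotient.mk _ (cfgOf F) :=
    Quotient.sound (equiv_cfgOf p v hv F c hc h)
  rw [this, frz_cfgOf]

/-- every configuration has vectors with the determinants of its frieze: `p ≈ cfgOf F` for `F = frz ⟦p⟧`, so
`pt p i = g • mk (vec F i)`, take `v i = g • vec F i`, `c = δ` -/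
theorem exists_lift [IsAlgClosed k] (ho : Odd (m + n)) (p : Cfg k m n) :
    ∃ (v : ZMod (m + n + 2) → Fin 2 → k) (c : k), c ≠ 0 ∧
      (∀ i, ∃ h : v i ≠ 0, pt p i = Projectivization.mk k (v i) h) ∧
      ∀ i j, det2 (v i) (v j) = c * (frz ho (Quotient.mk _ p : Conf k m n)).x i j := by
  obtain ⟨F, hF⟩ := cfgOf_surj ho p
  have h0 : frz ho (Quotient.mk _ p : Conf k m n) = F := by
    have h1 : (Quotient.mk _ p : Conf k m n) = Quotient.mk _ (cfgOf F) := Quotient.sound hF
    rw [h1, frz_cfgOf]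
  rw [h0]
  have h1 := Setoid.symm hF
  rw [equiv_iff] at h1
  obtain ⟨g, hg⟩ := h1
  obtain ⟨δ, hδ, hdet⟩ := det2_gl g
  refine ⟨fun i => g • vec F i, δ, hδ, fun i => ?_, fun i j => ?_⟩
  · have h2 := hg i
    rw [pt_cfgOf, Projectivization.smul_mk] at h2
    exact ⟨(smul_ne_zero_iff_ne g).mpr (vec_ne_zero F i), h2.symm⟩
  · rw [hdet, det2_vec]

end Pool.Agent.Lib.MP_d4c67c_gt
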