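import Pool.Agent.Lib.MP_d4c67c_gt.CfB

/-!
# JOB CfC: regular functions on `Conf` are the elements of the frieze ring

(You may use `CfA.lean`, `CfB.lean`, which are other jobs.)
-/

open scoped LinearAlgebra.Projectivization

namespace Pool.Agent.Lib.MP_d4c67c_gt

variable {k : Type*} [Field k] {m n : ℕ}

/-- cyclic labelling of a framing -/
def vz (v : Fin (m + 1) ⊕ Fin (n + 1) → Fin 2 → k) (i : ZMod (m + n + 2)) : Fin 2 → k :=
  if h : i.val ≤ m then v (Sum.inl ⟨i.val, by omega⟩) else v (Sum.inr ⟨m + n + 1 - i.val, by omega⟩)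


/-- index of a cyclic label -/
def CfC_idx (m n : ℕ) (i : ZMod (m + n + 2)) : Fin (m + 1) ⊕ Fin (n + 1) :=
  if h : i.val ≤ m then Sum.inl ⟨i.val, by omega⟩ else Sum.inr ⟨m + n + 1 - i.val, by omega⟩

theorem CfC_vz (v : Fin (m + 1) ⊕ Fin (n + 1) → Fin 2 → k) (i : ZMod (m + n + 2)) :
    vz v i = v (CfC_idx m n i) := by
  unfold vz CfC_idx
  split_ifs <;> rfl

theorem CfC_vz_up (v : Fin (m + 1) ⊕ Fin (n + 1) → Fin 2 → k) (i : ℕ) (hi : i ≤ m) :
    vz v ((i : ℕ) : ZMod (m + n + 2)) = v (Sum.inl ⟨i, by omega⟩) := by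
  have h1 : ((i : ℕ) : ZMod (m + n + 2)).val = i := ZMod.val_natCast_of_lt (by omega)
  unfold vz
  rw [dif_pos (by rw [h1]; exact hi)]
  congr 2
  exact Fin.ext h1

theorem CfC_vz_dn (v : Fin (m + 1) ⊕ Fin (n + 1) → Fin 2 → k) (i : ℕ) (hi : m < i)
    (hi2 : i ≤ m + n + 1) :
    vz v ((i : ℕ) : ZMod (m + n + 2)) = v (Sum.inr ⟨m + n + 1 - i, by omega⟩) := by
  have h1 : ((i : ℕ) : ZMod (m + n + 2)).val = i := ZMod.val_natCast_of_lt (by omega)
  unfold vz
  rw [dif_neg (by rw [h1]; omega)]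
  congr 2
  apply Fin.ext
  show m + n + 1 - _ = m + n + 1 - i
  rw [h1]

theorem CfC_prod_zmod {M : Type*} [CommMonoid M] (N : ℕ) [NeZero N] (f : ZMod N → M) :
    ∏ i : ZMod N, f i = ∏ i ∈ Finset.range N, f ((i : ℕ) : ZMod N) := by
  refine Finset.prod_nbij' (fun i => i.val) (fun i => ((i : ℕ) : ZMod N)) ?_ ?_ ?_ ?_ ?_
  · intro i _
    exact Finset.mem_range.mpr (ZMod.val_lt i)
  · intro i _
    exact Finset.mem_univ _
  · intro i _
    exact ZMod.natCast_zmod_val i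
  · intro i hi
    exact ZMod.val_natCast_of_lt (Finset.mem_range.mp hi)
  · intro i _
    rw [ZMod.natCast_zmod_val]

theorem CfC_det2_swap (v w : Fin 2 → k) : det2 v w = - det2 w v := by
  unfold det2; ring

/-- the product over the edges of the polygon.  Reindex `ZMod (m+n+2)` by `i.val ∈ range (m+n+2)`: the edges
`i → i+1` for `i < m` are the factors of the first product, `i = m` is the right edge, `i = m + 1 + s`, `s < n`, is the edge
`dn (n-s) → dn (n-s-1)`, that is, minus the factor `j = n-s-1` of the second product, and `i = m + n + 1` is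
`dn 0 → up 0`, minus the left factor. -/
theorem bdry_eq (v : Fin (m + 1) ⊕ Fin (n + 1) → Fin 2 → k) :
    bdry v = (-1) ^ (n + 1) * ∏ i : ZMod (m + n + 2), det2 (vz v i) (vz v (i + 1)) := by
  rw [CfC_prod_zmod]
  have e0 : m + n + 2 = m + 1 + n + 1 := by ring
  have h1 : ∏ i ∈ Finset.range (m + n + 2), det2 (vz v ((i : ℕ) : ZMod (m + n + 2)))
      (vz v (((i : ℕ) : ZMod (m + n + 2)) + 1)) =
      (∏ i ∈ Finset.range m, det2 (vz v ((i : ℕ) : ZMod (m + n + 2)))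
      (vz v (((i : ℕ) : ZMod (m + n + 2)) + 1))) *
      det2 (vz v ((m : ℕ) : ZMod (m + n + 2))) (vz v (((m : ℕ) : ZMod (m + n + 2)) + 1)) *
      (∏ s ∈ Finset.range n, det2 (vz v ((m + 1 + s : ℕ) : ZMod (m + n + 2)))
      (vz v (((m + 1 + s : ℕ) : ZMod (m + n + 2)) + 1))) *
      det2 (vz v ((m + 1 + n : ℕ) : ZMod (m + n + 2)))
        (vz v (((m + 1 + n : ℕ) : ZMod (m + n + 2)) + 1)) := by
    have : Finset.range (m + n + 2) = Finset.range (m + 1 + n + 1) := by rw [← e0]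
    rw [this, Finset.prod_range_succ, Finset.prod_range_add, Finset.prod_range_succ]
  rw [h1]
  have h2 : ∏ i ∈ Finset.range m, det2 (vz v ((i : ℕ) : ZMod (m + n + 2)))
      (vz v (((i : ℕ) : ZMod (m + n + 2)) + 1)) =
      ∏ i : Fin m, det2 (v (Sum.inl i.castSucc)) (v (Sum.inl i.succ)) := by
    rw [Finset.prod_range]
    apply Finset.prod_congr rfl
    intro i _
    have e1 : (((i : ℕ) : ZMod (m + n + 2)) + 1) = ((i + 1 : ℕ) : ZMod (m + n + 2)) := by
      push_cast; ring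
    rw [e1, CfC_vz_up v i (by omega), CfC_vz_up v (i + 1) (by omega)]
    rfl
  have h3 : det2 (vz v ((m : ℕ) : ZMod (m + n + 2))) (vz v (((m : ℕ) : ZMod (m + n + 2)) + 1)) =
      det2 (v (Sum.inl (Fin.last m))) (v (Sum.inr (Fin.last n))) := by
    have e1 : (((m : ℕ) : ZMod (m + n + 2)) + 1) = ((m + 1 : ℕ) : ZMod (m + n + 2)) := by
      push_cast; ring
    rw [e1, CfC_vz_up v m le_rfl, CfC_vz_dn v (m + 1) (by omega) (by omega)]
    have e2 : (⟨m + n + 1 - (m + 1), by omega⟩ : Fin (n + 1)) = Fin.last n := by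
      apply Fin.ext
      show m + n + 1 - (m + 1) = n
      omega
    rw [e2]
    rfl
  have h4 : ∏ s ∈ Finset.range n, det2 (vz v ((m + 1 + s : ℕ) : ZMod (m + n + 2)))
      (vz v (((m + 1 + s : ℕ) : ZMod (m + n + 2)) + 1)) =
      (-1) ^ n * ∏ j : Fin n, det2 (v (Sum.inr j.castSucc)) (v (Sum.inr j.succ)) := by
    have e3 : (-1 : k) ^ n = ∏ j : Fin n, (-1 : k) := by simp
    rw [e3, ← Finset.prod_mul_distrib]
    rw [← Finset.prod_range_reflect]
    rw [Finset.prod_range]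
    apply Finset.prod_congr rfl
    intro j _
    have hj := j.isLt
    have e1 : (((m + 1 + (n - 1 - (j : ℕ)) : ℕ) : ZMod (m + n + 2)) + 1)
        = ((m + 1 + (n - 1 - (j : ℕ)) + 1 : ℕ) : ZMod (m + n + 2)) := by
      push_cast; ring
    rw [e1, CfC_vz_dn v _ (by omega) (by omega), CfC_vz_dn v _ (by omega) (by omega)]
    have e2 : (⟨m + n + 1 - (m + 1 + (n - 1 - (j : ℕ))), by omega⟩ : Fin (n + 1)) = j.succ := by
      apply Fin.ext
      show m + n + 1 - (m + 1 + (n - 1 - (j : ℕ))) = j + 1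
      omega
    have e4 : (⟨m + n + 1 - (m + 1 + (n - 1 - (j : ℕ)) + 1), by omega⟩ : Fin (n + 1))
        = j.castSucc := by
      apply Fin.ext
      show m + n + 1 - (m + 1 + (n - 1 - (j : ℕ)) + 1) = j
      omega
    rw [e2, e4, CfC_det2_swap]
    ring
  have h5 : det2 (vz v ((m + 1 + n : ℕ) : ZMod (m + n + 2)))
        (vz v (((m + 1 + n : ℕ) : ZMod (m + n + 2)) + 1)) =
        - det2 (v (Sum.inl 0)) (v (Sum.inr 0)) := by
    have e1 : (((m + 1 + n : ℕ) : ZMod (m + n + 2)) + 1) = ((0 : ℕ) : ZMod (m + n + 2)) := by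
      have := ZMod.natCast_self (m + n + 2)
      push_cast at this ⊢
      linear_combination this
    rw [e1, CfC_vz_up v 0 (by omega), CfC_vz_dn v (m + 1 + n) (by omega) (by omega)]
    have e2 : (⟨m + n + 1 - (m + 1 + n), by omega⟩ : Fin (n + 1)) = 0 := by
      apply Fin.ext
      show m + n + 1 - (m + 1 + n) = 0
      omega
    rw [e2, CfC_det2_swap]
    rfl
  rw [h2, h3, h4, h5]
  unfold bdry
  have h6 : (-1 : k) ^ (n + 1) * (-1) ^ n = -1 := by
    rw [← pow_add]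
    have : n + 1 + n = 2 * n + 1 := by ring
    rw [this, pow_succ, pow_mul]
    simp
  linear_combination (-(∏ i : Fin m, det2 (v (Sum.inl i.castSucc)) (v (Sum.inl i.succ))) *
    (∏ j : Fin n, det2 (v (Sum.inr j.castSucc)) (v (Sum.inr j.succ))) *
    det2 (v (Sum.inl 0)) (v (Sum.inr 0)) *
    det2 (v (Sum.inl (Fin.last m))) (v (Sum.inr (Fin.last n)))) * (-1 : k) * h6

theorem framing_vz {p : Cfg k m n} {v : Fin (m + 1) ⊕ Fin (n + 1) → Fin 2 → k} (h : IsFraming p v)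
    (i : ZMod (m + n + 2)) : ∃ h : vz v i ≠ 0, pt p i = Projectivization.mk k (vz v i) h := by
  unfold vz pt
  split_ifs with h1
  · exact h.1 _
  · exact h.2 _

theorem bdry_ne_zero {p : Cfg k m n} {v : Fin (m + 1) ⊕ Fin (n + 1) → Fin 2 → k} (h : IsFraming p v) :
    bdry v ≠ 0 := by
  rw [bdry_eq]
  refine mul_ne_zero (pow_ne_zero _ (neg_ne_zero.mpr one_ne_zero)) ?_
  rw [Finset.prod_ne_zero_iff]
  intro i _ h0
  obtain ⟨h1, h2⟩ := framing_vz h i
  obtain ⟨h3, h4⟩ := framing_vz h (i + 1)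
  apply pt_ne p i
  rw [h2, h4, mk_eq_mk_iff_det2]
  exact h0

/-- The short entries of the frieze in terms of an arbitrary framing, `N = l + 2 = 2 t + 3`, `d i = det2 (v i) (v (i+1))`:
`x i (i+2) * ∏_j d j = det2 (v i) (v (i+2)) * d i * d (i+1) * (∏_{s=1}^{t} d (i + 2 s + 1)) ^ 2`.
Proof: `v i = μ i • u i` with `det2 (u i) (u j) = c * x i j`, so `det2 (v i) (v j) = c μ_i μ_j x i j`,
`d i = c μ_i μ_(i+1)`.  All edges: `∏_j d j = c^N (∏ μ)^2`.  The edges `i+3, i+5, …, i+2t+1` (`t` of them) cover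
the vertices `i+3, i+4, …, i+2t+2 = i+N-1`, all except `i, i+1, i+2`, once:
`∏_s d (i+2s+1) = c^t * ∏_{j ≠ i,i+1,i+2} μ_j`.  So the right side is
`c μ_i μ_(i+2) x * c μ_i μ_(i+1) * c μ_(i+1) μ_(i+2) * c^(2t) ∏_{j≠…} μ_j^2 = c^(2t+3) ∏ μ^2 * x`. -/
theorem short_formula {t : ℕ} (μ : ZMod (2 * t + 1 + 2) → k) (c : k) (D : ZMod (2 * t + 1 + 2) → k)
    (hD : ∀ i, D i = c * μ i * μ (i + 1)) (i : ZMod (2 * t + 1 + 2)) :
    ∏ j, D j = c ^ (2 * t + 1) * μ i * μ (i + 2) * (D i * D (i + 1)) *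
      (∏ s ∈ Finset.range t, μ (i + ((2 * s + 3 : ℕ) : ZMod (2 * t + 1 + 2))) *
        μ (i + ((2 * s + 4 : ℕ) : ZMod (2 * t + 1 + 2)))) ^ 2 := by
  have h1 : ∏ j, D j = c ^ (2 * t + 1 + 2) * (∏ j, μ j) * (∏ j, μ (j + 1)) := by
    rw [Finset.prod_congr rfl (fun j _ => hD j), Finset.prod_mul_distrib, Finset.prod_mul_distrib]
    rw [Finset.prod_const, Finset.card_univ, ZMod.card]
  have h2 : (∏ j, μ (j + 1)) = ∏ j, μ j :=
    Fintype.prod_equiv (Equiv.addRight (1 : ZMod (2 * t + 1 + 2))) _ _ (fun _ => rfl)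
  have h3 : (∏ j, μ j) = ∏ j, μ (i + j) :=
    (Fintype.prod_equiv (Equiv.addLeft i) _ _ (fun _ => rfl)).symm
  have h4 : ∀ (g : ℕ → k) (r : ℕ), ∏ s ∈ Finset.range (2 * r + 1 + 2), g s =
      g 0 * g 1 * g 2 * ∏ s ∈ Finset.range r, g (2 * s + 3) * g (2 * s + 4) := by
    intro g r
    induction r with
    | zero => simp [Finset.prod_range_succ]
    | succ r ih =>
      have e1 : 2 * (r + 1) + 1 + 2 = 2 * r + 1 + 2 + 1 + 1 := by ring
      rw [e1, Finset.prod_range_succ, Finset.prod_range_succ, ih, Finset.prod_range_succ]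
      ring
  have h5 : (∏ j, μ j) = μ i * μ (i + 1) * μ (i + 2) * ∏ s ∈ Finset.range t,
      μ (i + ((2 * s + 3 : ℕ) : ZMod (2 * t + 1 + 2))) *
        μ (i + ((2 * s + 4 : ℕ) : ZMod (2 * t + 1 + 2))) := by
    rw [h3, CfC_prod_zmod, h4 (fun s => μ (i + ((s : ℕ) : ZMod (2 * t + 1 + 2)))) t]
    have e1 : i + ((0 : ℕ) : ZMod (2 * t + 1 + 2)) = i := by push_cast; ring
    have e2 : i + ((1 : ℕ) : ZMod (2 * t + 1 + 2)) = i + 1 := by push_cast; ring
    have e3 : i + ((2 : ℕ) : ZMod (2 * t + 1 + 2)) = i + 2 := by push_cast; ring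
    rw [e1, e2, e3]
  have e4 : i + 1 + 1 = i + 2 := by ring
  rw [h1, h2, h5, hD i, hD (i + 1), e4]
  ring

theorem CfC_short {l t : ℕ} (hl : l = 2 * t + 1) (μ : ZMod (l + 2) → k) (c : k)
    (D : ZMod (l + 2) → k)
    (hD : ∀ i, D i = c * μ i * μ (i + 1)) (i : ZMod (l + 2)) :
    ∏ j, D j = c ^ (2 * t + 1) * μ i * μ (i + 2) * (D i * D (i + 1)) *
      (∏ s ∈ Finset.range t, μ (i + ((2 * s + 3 : ℕ) : ZMod (l + 2))) *
        μ (i + ((2 * s + 4 : ℕ) : ZMod (l + 2)))) ^ 2 := by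
  subst hl
  exact short_formula μ c D hD i

/-- the determinant of two framing vectors as a polynomial -/
noncomputable def CfC_dP (k : Type*) [Field k] (m n : ℕ) (i j : ZMod (m + n + 2)) :
    MvPolynomial ((Fin (m + 1) ⊕ Fin (n + 1)) × Fin 2) k :=
  MvPolynomial.X (CfC_idx m n i, 0) * MvPolynomial.X (CfC_idx m n j, 1) -
    MvPolynomial.X (CfC_idx m n i, 1) * MvPolynomial.X (CfC_idx m n j, 0)

theorem CfC_dP_eval (v : Fin (m + 1) ⊕ Fin (n + 1) → Fin 2 → k) (i j : ZMod (m + n + 2)) :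
    MvPolynomial.eval (fun a => v a.1 a.2) (CfC_dP k m n i j) = det2 (vz v i) (vz v j) := by
  rw [CfC_vz, CfC_vz]
  simp [CfC_dP, det2]

/-- the product of the boundary determinants as a polynomial -/
noncomputable def CfC_bP (k : Type*) [Field k] (m n : ℕ) :
    MvPolynomial ((Fin (m + 1) ⊕ Fin (n + 1)) × Fin 2) k :=
  (-1) ^ (n + 1) * ∏ i : ZMod (m + n + 2), CfC_dP k m n i (i + 1)

theorem CfC_bP_eval (v : Fin (m + 1) ⊕ Fin (n + 1) → Fin 2 → k) :
    MvPolynomial.eval (fun a => v a.1 a.2) (CfC_bP k m n) = bdry v := by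
  rw [bdry_eq, CfC_bP, map_mul, map_pow, map_neg, map_one, map_prod]
  congr 1
  apply Finset.prod_congr rfl
  intro i _
  exact CfC_dP_eval v i (i + 1)

theorem CfC_gen [IsAlgClosed k] (ho : Odd (m + n)) {t : ℕ} (ht : m + n = 2 * t + 1)
    (p : Cfg k m n) (v : Fin (m + 1) ⊕ Fin (n + 1) → Fin 2 → k) (h : IsFraming p v)
    (j : ZMod (m + n + 2)) :
    (frz ho (Quotient.mk _ p : Conf k m n)).x j (j + 2) * bdry v = (-1) ^ (n + 1) *
      (det2 (vz v j) (vz v (j + 2)) * (det2 (vz v j) (vz v (j + 1)) *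
        det2 (vz v (j + 1)) (vz v (j + 1 + 1))) *
      (∏ s ∈ Finset.range t, det2 (vz v (j + ((2 * s + 3 : ℕ) : ZMod (m + n + 2))))
        (vz v (j + ((2 * s + 3 : ℕ) : ZMod (m + n + 2)) + 1))) ^ 2) := by
  obtain ⟨u, c, hc, hu, hd⟩ := exists_lift ho p
  have hμ : ∀ i, ∃ a : k, a • u i = vz v i := by
    intro i
    obtain ⟨h1, h2⟩ := framing_vz h i
    obtain ⟨h3, h4⟩ := hu i
    rw [h2, Projectivization.mk_eq_mk_iff'] at h4
    exact h4
  choose μ hμ using hμ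
  set F := frz ho (Quotient.mk _ p : Conf k m n) with hF
  have hdet : ∀ i j, det2 (vz v i) (vz v j) = c * μ i * μ j * F.x i j := by
    intro i j
    rw [← hμ i, ← hμ j]
    have := hd i j
    simp only [det2, Pi.smul_apply, smul_eq_mul] at this ⊢
    linear_combination μ i * μ j * this
  have hD : ∀ i, det2 (vz v i) (vz v (i + 1)) = c * μ i * μ (i + 1) := by
    intro i
    rw [hdet, F.one, mul_one]
  rw [bdry_eq, CfC_short ht μ c (fun i => det2 (vz v i) (vz v (i + 1))) hD j]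
  have h6 : ∏ s ∈ Finset.range t, det2 (vz v (j + ((2 * s + 3 : ℕ) : ZMod (m + n + 2))))
        (vz v (j + ((2 * s + 3 : ℕ) : ZMod (m + n + 2)) + 1)) =
      c ^ t * ∏ s ∈ Finset.range t, μ (j + ((2 * s + 3 : ℕ) : ZMod (m + n + 2))) *
        μ (j + ((2 * s + 4 : ℕ) : ZMod (m + n + 2))) := by
    have e3 : c ^ t = ∏ s ∈ Finset.range t, c := by simp
    rw [e3, ← Finset.prod_mul_distrib]
    apply Finset.prod_congr rfl
    intro s _
    rw [hD]
    have e1 : j + ((2 * s + 3 : ℕ) : ZMod (m + n + 2)) + 1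
        = j + ((2 * s + 4 : ℕ) : ZMod (m + n + 2)) := by
      push_cast; ring
    rw [e1]
    ring
  rw [h6, hdet j (j + 2)]
  ring

/-- The elements of the frieze ring are regular functions.  `A_induction` reduces to: constants (`e = 0`), sums
(common denominator), products with a generator `gen j`, whose value at `frz ⟦p⟧` is `x j (j+2)` (`lift_gen`).
For a framing `v` of `p` take `u`, `c` from `exists_lift`: `vz v i = μ i • u i` (both on the line `pt p i`), so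
`det2 (vz v i) (vz v j) = c * μ i * μ j * x i j`.  With `m + n = 2 t + 1`, `short_formula` gives
`x j (j+2) * bdry v = (-1)^(n+1) * det2 (v j) (v (j+2)) * d j * d (j+1) * (∏_{s<t} d (j + 2 s + 3)) ^ 2`,
a polynomial in the coordinates, so `e = 1` works. -/
theorem reg_of_A [IsAlgClosed k] (ho : Odd (m + n)) (a : A k (m + n)) :
    IsRegular (fun P : Conf k m n => lift (frz ho P) a) := by
  obtain ⟨t, ht⟩ := ho
  revert a
  apply A_induction
  · intro c
    refine ⟨MvPolynomial.C c, 0, ?_⟩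
    intro p v _
    simp only [AlgHom.commutes, pow_zero, mul_one, MvPolynomial.eval_C]
    rfl
  · rintro a b ⟨P, e, hP⟩ ⟨Q, e', hQ⟩
    refine ⟨P * CfC_bP k m n ^ e' + Q * CfC_bP k m n ^ e, e + e', ?_⟩
    intro p v hv
    have h1 := hP p v hv
    have h2 := hQ p v hv
    simp only [map_add, map_mul, map_pow, CfC_bP_eval, pow_add] at h1 h2 ⊢
    rw [← h1, ← h2]
    ring
  · rintro a j hj ⟨P, e, hP⟩
    refine ⟨P * ((-1) ^ (n + 1) * (CfC_dP k m n ((j : ℕ) : ZMod (m + n + 2)) (((j : ℕ) : ZMod (m + n + 2)) + 2) *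
      (CfC_dP k m n ((j : ℕ) : ZMod (m + n + 2)) (((j : ℕ) : ZMod (m + n + 2)) + 1) *
        CfC_dP k m n (((j : ℕ) : ZMod (m + n + 2)) + 1) (((j : ℕ) : ZMod (m + n + 2)) + 1 + 1)) *
      (∏ s ∈ Finset.range t, CfC_dP k m n (((j : ℕ) : ZMod (m + n + 2)) + ((2 * s + 3 : ℕ) : ZMod (m + n + 2)))
        (((j : ℕ) : ZMod (m + n + 2)) + ((2 * s + 3 : ℕ) : ZMod (m + n + 2)) + 1)) ^ 2)), e + 1, ?_⟩
    intro p v hv
    have h1 := hP p v hv
    have h2 := CfC_gen ⟨t, ht⟩ ht p v hv ((j : ℕ) : ZMod (m + n + 2))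
    rw [map_mul, ← h1]
    have h3 : MvPolynomial.eval (fun a => v a.1 a.2) ((-1) ^ (n + 1) * (CfC_dP k m n ((j : ℕ) : ZMod (m + n + 2)) (((j : ℕ) : ZMod (m + n + 2)) + 2) *
      (CfC_dP k m n ((j : ℕ) : ZMod (m + n + 2)) (((j : ℕ) : ZMod (m + n + 2)) + 1) *
        CfC_dP k m n (((j : ℕ) : ZMod (m + n + 2)) + 1) (((j : ℕ) : ZMod (m + n + 2)) + 1 + 1)) *
      (∏ s ∈ Finset.range t, CfC_dP k m n (((j : ℕ) : ZMod (m + n + 2)) + ((2 * s + 3 : ℕ) : ZMod (m + n + 2)))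
        (((j : ℕ) : ZMod (m + n + 2)) + ((2 * s + 3 : ℕ) : ZMod (m + n + 2)) + 1)) ^ 2))
        = (frz ⟨t, ht⟩ (Quotient.mk _ p : Conf k m n)).x ((j : ℕ) : ZMod (m + n + 2))
          (((j : ℕ) : ZMod (m + n + 2)) + 2) * bdry v := by
      rw [h2]
      simp only [map_mul, map_pow, map_neg, map_one, map_prod, CfC_dP_eval]
    rw [h3]
    simp only [map_mul, lift_gen _ j hj]
    ring

/-- Regular functions come from the frieze ring.  Evaluate the defining identity at `p = cfgOf F` with the framing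
`v (inl i) = vec F i`, `v (inr j) = vec F (m+n+1-j)`: `bdry v = (-1)^(n+1)` (`bdry_eq`, `det2_vec`, `F.one`), so
`f P = (-1)^((n+1) e) * eval P(v)`, which is `lift F a` for
`a = (-1)^((n+1) e) * aeval (the same entries of univ) P` (`lift_univ`; `MvPolynomial.aeval` commutes with algebra homs). -/
theorem A_of_reg [IsAlgClosed k] (ho : Odd (m + n)) (f : Conf k m n → k) (hf : IsRegular f) :
    ∃ a : A k (m + n), ∀ P, f P = lift (frz ho P) a := by
  obtain ⟨P, e, hP⟩ := hf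
  set ix : Fin (m + 1) ⊕ Fin (n + 1) → ZMod (m + n + 2) := fun a =>
    Sum.elim (fun i => ((i.val : ℕ) : ZMod (m + n + 2)))
      (fun j => ((m + n + 1 - j.val : ℕ) : ZMod (m + n + 2))) a with hix
  refine ⟨algebraMap k _ (((-1) ^ (n + 1)) ^ e) *
    MvPolynomial.aeval (fun a => ![(univ k (m + n)).x (ix a.1) 1, (univ k (m + n)).x 0 (ix a.1)] a.2) P,
    ?_⟩
  intro Q
  obtain ⟨F, rfl⟩ := (frz ho).symm.surjective Q
  have hQ : (frz ho).symm F = (Quotient.mk _ (cfgOf F) : Conf k m n) := rfl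
  rw [Equiv.apply_symm_apply, hQ]
  have hfr : IsFraming (cfgOf F : Cfg k m n) (fun a => vec F (ix a)) := by
    constructor
    · intro i
      exact ⟨vec_ne_zero F _, rfl⟩
    · intro j
      exact ⟨vec_ne_zero F _, rfl⟩
  have h1 := hP (cfgOf F) (fun a => vec F (ix a)) hfr
  have hvz : ∀ i, vz (fun a => vec F (ix a)) i = vec F i := by
    intro i
    have hi := ZMod.val_lt i
    unfold vz
    split_ifs with h
    · show vec F ((i.val : ℕ) : ZMod (m + n + 2)) = vec F i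
      rw [ZMod.natCast_zmod_val]
    · show vec F ((m + n + 1 - (m + n + 1 - i.val) : ℕ) : ZMod (m + n + 2)) = vec F i
      have : m + n + 1 - (m + n + 1 - i.val) = i.val := by omega
      rw [this, ZMod.natCast_zmod_val]
  have h2 : bdry (fun a => vec F (ix a)) = (-1) ^ (n + 1) := by
    rw [bdry_eq]
    have : ∏ i : ZMod (m + n + 2), det2 (vz (fun a => vec F (ix a)) i)
        (vz (fun a => vec F (ix a)) (i + 1)) = 1 := by
      apply Finset.prod_eq_one
      intro i _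
      rw [hvz, hvz, det2_vec, F.one]
    rw [this, mul_one]
  rw [h2] at h1
  have h3 : ((-1 : k) ^ (n + 1)) ^ e * ((-1) ^ (n + 1)) ^ e = 1 := by
    rw [← mul_pow, ← mul_pow]
    simp
  rw [map_mul, AlgHom.commutes]
  have h4 : lift F (MvPolynomial.aeval (fun a => ![(univ k (m + n)).x (ix a.1) 1,
      (univ k (m + n)).x 0 (ix a.1)] a.2) P) = MvPolynomial.eval (fun a => vec F (ix a.1) a.2) P := by
    rw [← AlgHom.comp_apply, MvPolynomial.comp_aeval]
    rw [MvPolynomial.aeval_eq_eval]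
    congr 2
    funext a
    obtain ⟨a1, a2⟩ := a
    fin_cases a2
    · show lift F ((univ k (m + n)).x (ix a1) 1) = F.x (ix a1) 1
      rw [lift_univ]
    · show lift F ((univ k (m + n)).x 0 (ix a1)) = F.x 0 (ix a1)
      rw [lift_univ]
  rw [h4, ← h1]
  show f _ = ((-1 : k) ^ (n + 1)) ^ e * (f _ * ((-1) ^ (n + 1)) ^ e)
  linear_combination (-f (Quotient.mk _ (cfgOf F))) * h3

end Pool.Agent.Lib.MP_d4c67c_gt
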