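import Pool.Agent.Lib.MP_d4c67c_gt.Q

/-!
# JOB Ch: the chart of `A k (m+1)` given by the first `m` generators

(You may use the theorems of `Q.lean`, which is another job.)
-/

namespace Pool.Agent.Lib.MP_d4c67c_gt

open MvPolynomial

variable {k : Type*} [Field k]

/-- the polynomial ring in the first `m` generators inside `A k (m+1)` -/
noncomputable def ch (k : Type*) [Field k] (m : ℕ) : MvPolynomial (Fin m) k →ₐ[k] A k (m + 1) :=
  aeval (fun j => gen k (m + 1) j.val)

/-- `univ = ofSeq _ gen _`: unfold with `ofSeq_x`; `Ws _ 0 = (1,0)`; `ZMod.val_natCast_of_lt`. -/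
theorem univ_zero_nat (l n : ℕ) (hn : n ≤ l + 1) :
    (univ k l).x 0 ((n : ℕ) : ZMod (l + 2)) = (Ws (gen k l) n).2 := by
  have h : (univ k l).x 0 ((n : ℕ) : ZMod (l + 2))
      = dt (Ws (gen k l) (0 : ZMod (l + 2)).val)
        (Ws (gen k l) ((n : ℕ) : ZMod (l + 2)).val) := rfl
  have h1 : (((n : ℕ) : ZMod (l + 2))).val = n := ZMod.val_natCast_of_lt (by omega)
  have h2 : (0 : ZMod (l + 2)).val = 0 := ZMod.val_zero
  rw [h, h1, h2]
  have h3 : Ws (gen k l) 0 = (1, 0) := rfl
  rw [h3]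
  simp only [dt]
  ring

/-- `ch` sends the continuant `q n` in the variables to `x 0 n` (`Ws_map`, `Ws_congr`, `univ_zero_nat`;
the entry `n` of `Ws` only uses the terms of index `≤ n - 2 < m`). -/
theorem ch_q (m n : ℕ) (hn : n ≤ m + 1) :
    ch k m ((Ws (vr k m) n).2) = (univ k (m + 1)).x 0 ((n : ℕ) : ZMod (m + 1 + 2)) := by
  rw [univ_zero_nat (m + 1) n (by omega)]
  have h1 := Ws_map ((ch k m : MvPolynomial (Fin m) k →ₐ[k] A k (m + 1)) :
    MvPolynomial (Fin m) k →+* A k (m + 1)) (vr k m) n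
  have h2 : Ws (fun i => ((ch k m : MvPolynomial (Fin m) k →ₐ[k] A k (m + 1)) :
      MvPolynomial (Fin m) k →+* A k (m + 1)) (vr k m i)) n = Ws (gen k (m + 1)) n := by
    apply Ws_congr
    intro i hi
    have him : i < m := by omega
    have hv : vr k m i = X ⟨i, him⟩ := by
      unfold vr
      rw [dif_pos him]
    rw [hv]
    exact aeval_X (fun j : Fin m => gen k (m + 1) j.val) ⟨i, him⟩
  rw [h2] at h1
  exact (congrArg Prod.snd h1).symm

/-- The relation: `x 0 (m+1) * gen m = x 0 m - 1` (from `gen_closed`: `gen m * q (m+1) - q m = -1`). -/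
theorem u_mul_gen (m : ℕ) :
    (univ k (m + 1)).x 0 (((m + 1 : ℕ)) : ZMod (m + 1 + 2)) * gen k (m + 1) m
      = (univ k (m + 1)).x 0 ((m : ℕ) : ZMod (m + 1 + 2)) - 1 := by
  rw [univ_zero_nat (m + 1) (m + 1) (by omega), univ_zero_nat (m + 1) m (by omega)]
  have h := gen_closed k (m + 1)
  have h1 : (Ws (gen k (m + 1)) (m + 1 + 1)).2
      = gen k (m + 1) m * (Ws (gen k (m + 1)) (m + 1)).2 - (Ws (gen k (m + 1)) m).2 := rfl
  rw [h1] at h
  linear_combination h

/-- Points: if `b ≠ 0` there is a homomorphism `e : A k (m+1) →ₐ[k] k` with `e (ch b) ≠ 0`.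
Proof: `b * q (m+1) ≠ 0` (`q_ne_zero`), `k` is infinite, so there is `c : Fin m → k` with
`eval c (b * q (m+1)) ≠ 0` (`MvPolynomial.funext`).  Let `s j = c j` for `j < m` and
`s j = (Q m - 1) / Q (m+1)` for `j ≥ m`, where `Q n = eval c (q n)`.  Then `(Ws s (m+2)).2 =
s m * Q (m+1) - Q m = -1`, so `F = ofSeq (m+1) s _` is a frieze and `e = lift F` works, since
`e (gen j) = s j` (`lift_gen`, `ofSeq_short`). -/
theorem pt_exists [CharZero k] (m : ℕ) (b : MvPolynomial (Fin m) k) (hb : b ≠ 0) :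
    ∃ e : A k (m + 1) →ₐ[k] k, e (ch k m b) ≠ 0 := by
  have hq := q_ne_zero (k := k) m (m + 1) (by omega) (by omega)
  have hbq : b * (Ws (vr k m) (m + 1)).2 ≠ 0 := mul_ne_zero hb hq
  obtain ⟨c, hc⟩ : ∃ c : Fin m → k, eval c (b * (Ws (vr k m) (m + 1)).2) ≠ 0 := by
    by_contra hcon
    apply hbq
    apply MvPolynomial.funext
    intro x
    rw [map_zero]
    by_contra hx
    exact hcon ⟨x, hx⟩
  rw [map_mul] at hc
  have hcb : eval c b ≠ 0 := left_ne_zero_of_mul hc
  have hcq : eval c ((Ws (vr k m) (m + 1)).2) ≠ 0 := right_ne_zero_of_mul hc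
  let t : k := (eval c ((Ws (vr k m) m).2) - 1) / eval c ((Ws (vr k m) (m + 1)).2)
  let s : ℕ → k := fun j => if h : j < m then c ⟨j, h⟩ else t
  have hW : ∀ n, n ≤ m + 1 → (Ws s n).2 = eval c ((Ws (vr k m) n).2) := by
    intro n hn
    have h1 := Ws_map (eval c) (vr k m) n
    have h2 : Ws (fun i => eval c (vr k m i)) n = Ws s n := by
      apply Ws_congr
      intro i hi
      have him : i < m := by omega
      have hv : vr k m i = X ⟨i, him⟩ := by
        unfold vr
        rw [dif_pos him]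
      show eval c (vr k m i) = s i
      rw [hv, eval_X]
      show _ = (if h : i < m then c ⟨i, h⟩ else t)
      rw [dif_pos him]
    rw [h2] at h1
    exact congrArg Prod.snd h1
  have hst : s m = t := by
    show (if h : m < m then c ⟨m, h⟩ else t) = t
    rw [dif_neg (lt_irrefl m)]
  have hclosed : (Ws s (m + 1 + 1)).2 = -1 := by
    have h3 : (Ws s (m + 1 + 1)).2 = s m * (Ws s (m + 1)).2 - (Ws s m).2 := rfl
    rw [h3, hst, hW (m + 1) le_rfl, hW m (by omega)]
    show (eval c ((Ws (vr k m) m).2) - 1) / eval c ((Ws (vr k m) (m + 1)).2)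
      * eval c ((Ws (vr k m) (m + 1)).2) - eval c ((Ws (vr k m) m).2) = -1
    rw [div_mul_cancel₀ _ hcq]
    ring
  refine ⟨lift (ofSeq (m + 1) s hclosed), ?_⟩
  have hcomp : ((lift (ofSeq (m + 1) s hclosed) : A k (m + 1) →ₐ[k] k).comp (ch k m))
      = aeval c := by
    apply MvPolynomial.algHom_ext
    intro j
    rw [AlgHom.comp_apply, aeval_X]
    have h4 : ch k m (X j) = gen k (m + 1) j.val :=
      aeval_X (fun j : Fin m => gen k (m + 1) j.val) j
    rw [h4, lift_gen _ j.val (by omega), ofSeq_short (m + 1) s hclosed j.val (by omega)]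
    show (if h : j.val < m then c ⟨j.val, h⟩ else t) = c j
    rw [dif_pos j.isLt]
  have h5 : lift (ofSeq (m + 1) s hclosed) (ch k m b) = aeval c b := by
    rw [← hcomp]
    rfl
  rw [h5]
  have h6 : aeval c b = eval c b := by
    exact congrArg (fun f : MvPolynomial (Fin m) k →+* k => f b) (MvPolynomial.coe_aeval_eq_eval c)
  rw [h6]
  exact hcb

theorem ch_inj [CharZero k] (m : ℕ) : Function.Injective (ch k m) := by
  intro a b hab
  by_contra hne
  obtain ⟨e, he⟩ := pt_exists m (a - b) (sub_ne_zero.mpr hne)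
  apply he
  rw [map_sub, hab, sub_self, map_zero]

/-- Clearing denominators, by `A_induction`: constants and generators `gen j`, `j < m`, are in the range of
`ch`; for `gen m` use `u_mul_gen` and `ch_q`. -/
theorem clear (m : ℕ) (a : A k (m + 1)) : ∃ (s : ℕ) (b : MvPolynomial (Fin m) k),
    (univ k (m + 1)).x 0 (((m + 1 : ℕ)) : ZMod (m + 1 + 2)) ^ s * a = ch k m b := by
  have hu := ch_q (k := k) m (m + 1) le_rfl
  have hu0 := ch_q (k := k) m m (by omega)
  have hrel := u_mul_gen (k := k) m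
  rw [← hu, ← hu0] at hrel
  rw [← hu]
  revert a
  apply A_induction
  · intro c
    exact ⟨0, C c, by rw [pow_zero, one_mul, ← MvPolynomial.algebraMap_eq, AlgHom.commutes]⟩
  · rintro a a' ⟨s, b, hb⟩ ⟨s', b', hb'⟩
    refine ⟨s + s', (Ws (vr k m) (m + 1)).2 ^ s' * b + (Ws (vr k m) (m + 1)).2 ^ s * b', ?_⟩
    rw [map_add, map_mul, map_mul, map_pow, map_pow, ← hb, ← hb', pow_add]
    ring
  · rintro a j hj ⟨s, b, hb⟩
    rcases Nat.lt_or_ge j m with hjm | hjm
    · refine ⟨s, b * X ⟨j, hjm⟩, ?_⟩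
      have h4 : ch k m (X ⟨j, hjm⟩) = gen k (m + 1) j :=
        aeval_X (fun j : Fin m => gen k (m + 1) j.val) ⟨j, hjm⟩
      rw [map_mul, h4, ← hb]
      ring
    · have hjm' : j = m := by omega
      subst hjm'
      refine ⟨s + 1, b * ((Ws (vr k j) j).2 - 1), ?_⟩
      rw [map_mul, map_sub, map_one, ← hb, ← hrel, pow_succ]
      ring

/-- an element of `A k l` that vanishes at all friezes over `k` is zero (`k` of characteristic `0`).
Write `l = m + 1`.  If `a ≠ 0`, then (domain, `A_isDomain`; `x 0 (m+1) = ch (q (m+1)) ≠ 0` by `ch_q`,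
`ch_inj`, `q_ne_zero`) `x 0 (m+1) ^ s * a = ch b ≠ 0`, so `b ≠ 0`; take `e` from `pt_exists` and
`hom_eq_lift e`. -/
theorem eval_inj [CharZero k] (l : ℕ) (hl : l = 1 ∨ 3 ≤ l) (a : A k l)
    (h : ∀ F : Fr (l + 2) k, lift F a = 0) : a = 0 := by
  obtain ⟨m, rfl⟩ : ∃ m, l = m + 1 := ⟨l - 1, by omega⟩
  by_contra ha
  have := A_isDomain (k := k) (m + 1) hl
  have hu : (univ k (m + 1)).x 0 (((m + 1 : ℕ)) : ZMod (m + 1 + 2)) ≠ 0 := by
    rw [← ch_q (k := k) m (m + 1) le_rfl]
    intro h0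
    have h1 := ch_inj (k := k) m (h0.trans (map_zero _).symm)
    exact q_ne_zero (k := k) m (m + 1) (by omega) (by omega) h1
  obtain ⟨s, b, hb⟩ := clear m a
  have hne : ch k m b ≠ 0 := by
    rw [← hb]
    exact mul_ne_zero (pow_ne_zero _ hu) ha
  have hb0 : b ≠ 0 := by
    intro h0
    apply hne
    rw [h0, map_zero]
  obtain ⟨e, he⟩ := pt_exists m b hb0
  apply he
  rw [← hb, map_mul, hom_eq_lift e, h, mul_zero]

end Pool.Agent.Lib.MP_d4c67c_gt
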