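import Pool.Agent.Lib.MP_d4c67c_gt.CfC
import Pool.Agent.Lib.MP_d4c67c_gt.Ch

/-!
# JOB CfD: an isomorphism of cells gives an isomorphism of frieze rings

(You may use `CfA`, `CfB`, `CfC`, `Q`, `Ch`, which are other jobs.)
-/

namespace Pool.Agent.Lib.MP_d4c67c_gt

variable {k : Type*} [Field k] [IsAlgClosed k] [CharZero k] {m n m' n' : ℕ}

private theorem CfD_uniq (ho : Odd (m + n)) {b b' : A k (m + n)}
    (h : ∀ P : Conf k m n, lift (frz ho P) b = lift (frz ho P) b') : b = b' := by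
  have hl : m + n = 1 ∨ 3 ≤ m + n := by
    obtain ⟨t, ht⟩ := ho
    omega
  have h1 : b - b' = 0 := by
    refine eval_inj (m + n) hl (b - b') fun F => ?_
    obtain ⟨P, rfl⟩ := (frz ho).surjective F
    rw [map_sub, h P, sub_self]
  exact sub_eq_zero.1 h1

private theorem CfD_hom (ho : Odd (m + n)) (ho' : Odd (m' + n')) (Φ : Conf k m n → Conf k m' n')
    (h1 : IsRegularMap Φ) :
    ∃ ψ : A k (m' + n') →ₐ[k] A k (m + n), ∀ P a, lift (frz ho' (Φ P)) a = lift (frz ho P) (ψ a) := by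
  have h2 : ∀ a : A k (m' + n'), ∃ b : A k (m + n),
      ∀ P : Conf k m n, lift (frz ho' (Φ P)) a = lift (frz ho P) b := fun a =>
    A_of_reg ho _ (h1 _ (reg_of_A ho' a))
  choose f hf using h2
  refine ⟨AlgHom.ofLinearMap
    { toFun := f
      map_add' := fun a b => CfD_uniq ho fun P => by rw [← hf, map_add, map_add, hf, hf]
      map_smul' := fun c a => CfD_uniq ho fun P => by
        rw [← hf, RingHom.id_apply, map_smul, map_smul, hf] }
    (CfD_uniq ho fun P => ?_) (fun a b => CfD_uniq ho fun P => ?_), fun P a => hf a P⟩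
  · change lift (frz ho P) (f 1) = _
    rw [← hf, map_one, map_one]
  · change lift (frz ho P) (f (a * b)) = lift (frz ho P) (f a * f b)
    rw [← hf, map_mul, map_mul, hf, hf]

/-- For `a : A k (m'+n')` the function `P ↦ lift (frz (Φ P)) a` is regular (`reg_of_A`, hypothesis), so it is
`P ↦ lift (frz P) b` (`A_of_reg`) for a `b` which is unique (`eval_inj`, `frz` is a bijection); let `ψ a = b`.
By uniqueness `ψ` is an algebra homomorphism, and the same construction for `Φ.symm` is its inverse. -/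
theorem exists_psi (ho : Odd (m + n)) (ho' : Odd (m' + n')) (Φ : Conf k m n ≃ Conf k m' n')
    (h1 : IsRegularMap Φ) (h2 : IsRegularMap Φ.symm) :
    ∃ ψ : A k (m' + n') ≃ₐ[k] A k (m + n),
      ∀ P a, lift (frz ho' (Φ P)) a = lift (frz ho P) (ψ a) := by
  obtain ⟨ψ, hψ⟩ := CfD_hom ho ho' Φ h1
  obtain ⟨ψ', hψ'⟩ := CfD_hom ho' ho Φ.symm h2
  refine ⟨AlgEquiv.ofAlgHom ψ ψ' ?_ ?_, fun P a => hψ P a⟩
  · refine AlgHom.ext fun b => CfD_uniq ho fun P => ?_
    change lift (frz ho P) (ψ (ψ' b)) = lift (frz ho P) b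
    rw [← hψ, ← hψ', Equiv.symm_apply_apply]
  · refine AlgHom.ext fun b => CfD_uniq ho' fun P => ?_
    change lift (frz ho' P) (ψ' (ψ b)) = lift (frz ho' P) b
    rw [← hψ', ← hψ, Equiv.apply_symm_apply]

end Pool.Agent.Lib.MP_d4c67c_gt
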