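import Pool.Agent.Lib.MP_d4c67c_gt.TriD

/-!
# JOB TriA: easy identities between the seeds `T l c w F`
-/

namespace Pool.Agent.Lib.MP_d4c67c_gt

variable {K : Type*} [Field K]

theorem nU_add_nD (w : ℕ → Bool) (t : ℕ) : nU w t + nD w t = t := by
  induction t with
  | zero => rfl
  | succ t ih =>
    simp only [nU, nD]
    cases w t
    · simp only [Bool.false_eq_true, if_false]
      omega
    · simp only [if_true]
      omega

theorem nU_congr {w w' : ℕ → Bool} {t : ℕ} (h : ∀ i, i < t → w i = w' i) : nU w t = nU w' t := by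
  induction t with
  | zero => rfl
  | succ t ih =>
    simp only [nU]
    rw [ih (fun i hi => h i (by omega)), h t (by omega)]

theorem nD_congr {w w' : ℕ → Bool} {t : ℕ} (h : ∀ i, i < t → w i = w' i) : nD w t = nD w' t := by
  induction t with
  | zero => rfl
  | succ t ih =>
    simp only [nD]
    rw [ih (fun i hi => h i (by omega)), h t (by omega)]

private theorem triA_nU_first {w w' : ℕ → Bool} (h0 : w 0 = true)
    (h0' : w' 0 = false) (h : ∀ i, 1 ≤ i → w i = w' i) (a : ℕ) :
    nU w (a + 1) = nU w' (a + 1) + 1 ∧ nD w' (a + 1) = nD w (a + 1) + 1 := by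
  induction a with
  | zero => simp [nU, nD, h0, h0']
  | succ a ih =>
    rw [show nU w (a + 1 + 1) = nU w (a + 1) + (if w (a + 1) then 1 else 0) from rfl,
      show nU w' (a + 1 + 1) = nU w' (a + 1) + (if w' (a + 1) then 1 else 0) from rfl,
      show nD w (a + 1 + 1) = nD w (a + 1) + (if w (a + 1) then 0 else 1) from rfl,
      show nD w' (a + 1 + 1) = nD w' (a + 1) + (if w' (a + 1) then 0 else 1) from rfl,
      h (a + 1) (by omega)]
    omega

private theorem triA_neg {w : ℕ → Bool} (t : ℕ) :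
    nU (fun i => !(w i)) t = nD w t ∧ nD (fun i => !(w i)) t = nU w t := by
  induction t with
  | zero => exact ⟨rfl, rfl⟩
  | succ t ih =>
    simp only [nU, nD, ih.1, ih.2]
    by_cases h : w t = true
    · simp [h]
    · rw [Bool.not_eq_true] at h
      simp [h]

/-- the coordinate, as a function of the ends and of the third vertices -/
private theorem triA_y (l : ℕ) (c : ZMod (l + 2)) (w : ℕ → Bool) (F : Fr (l + 2) K) (a : Fin (l - 1))
    (t b P Q : ZMod (l + 2)) (ht : c + 1 + (nU w (a + 1) : ZMod (l + 2)) = t)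
    (hb : c - (nD w (a + 1) : ZMod (l + 2)) = b)
    (hQ : (if w (a + 1) then t + 1 else b - 1) = Q) (hP : (if w a then t - 1 else b + 1) = P) :
    (T l c w F).y a = F.x t Q * F.x b P / (F.x Q b * F.x t P) := by
  subst ht hb hQ hP
  rfl

/-- The first letter: `T c (U w') = T (c+1) (D w')`.  `nU w (a+1) = nU w' (a+1) + 1` and `nD w' (a+1) = nD w (a+1) + 1`, so
the two ends `t`, `b` of every diagonal agree, and so do `P` (for `a = 0`: `t - 1 = c + 1 + 1 - 1` and
`b + 1 = (c+1) - 1 + 1`) and `Q`; `epsW` does not use the letter `0`. -/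
theorem T_first (l : ℕ) (c : ZMod (l + 2)) (w w' : ℕ → Bool) (F : Fr (l + 2) K) (h0 : w 0 = true)
    (h0' : w' 0 = false) (h : ∀ i, 1 ≤ i → w i = w' i) : T l c w F = T l (c + 1) w' F := by
  apply Seed.ext
  · show epsW (l - 1) w = epsW (l - 1) w'
    funext i j
    unfold epsW
    by_cases h1 : j.val = i.val + 1
    · rw [if_pos h1, if_pos h1, h j.val (by omega)]
    · rw [if_neg h1, if_neg h1]
      by_cases h2 : i.val = j.val + 1
      · rw [if_pos h2, if_pos h2, h i.val (by omega)]
      · rw [if_neg h2, if_neg h2]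
  · funext a
    obtain ⟨hU, hD⟩ := triA_nU_first h0 h0' h (a : ℕ)
    have ht : c + 1 + 1 + (nU w' (a + 1) : ZMod (l + 2)) = c + 1 + (nU w (a + 1) : ZMod (l + 2)) := by
      rw [hU]
      push_cast
      ring
    have hb : c + 1 - (nD w' (a + 1) : ZMod (l + 2)) = c - (nD w (a + 1) : ZMod (l + 2)) := by
      rw [hD]
      push_cast
      ring
    rw [triA_y l c w F a _ _ _ _ rfl rfl rfl rfl, triA_y l (c + 1) w' F a _ _ _ _ ht hb rfl rfl]
    rw [h (a + 1) (by omega)]
    have hP : (if w a then c + 1 + (nU w (a + 1) : ZMod (l + 2)) - 1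
        else c - (nD w (a + 1) : ZMod (l + 2)) + 1) =
        (if w' a then c + 1 + (nU w (a + 1) : ZMod (l + 2)) - 1
        else c - (nD w (a + 1) : ZMod (l + 2)) + 1) := by
      rcases Nat.eq_zero_or_pos (a : ℕ) with ha | ha
      · rw [ha, h0, h0']
        simp [nU, nD, h0]
      · rw [h a ha]
    rw [hP]

/-- The last letter is irrelevant: for `a = l - 2` (`a + 1 = l - 1`), `t - b = 1 + (nU + nD) = 1 + (a + 1) = l`, so
`t + 1 = b - 1` in `ZMod (l+2)`. -/
theorem T_last (l : ℕ) (c : ZMod (l + 2)) (w w' : ℕ → Bool) (F : Fr (l + 2) K)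
    (h : ∀ i, i + 1 < l → w i = w' i) : T l c w F = T l c w' F := by
  apply Seed.ext
  · show epsW (l - 1) w = epsW (l - 1) w'
    funext i j
    unfold epsW
    rw [h i.val (by have := i.isLt; omega), h j.val (by have := j.isLt; omega)]
  · funext a
    have ha := a.isLt
    have hU : nU w' (a + 1) = nU w (a + 1) := nU_congr (fun i hi => (h i (by omega)).symm)
    have hD : nD w' (a + 1) = nD w (a + 1) := nD_congr (fun i hi => (h i (by omega)).symm)
    have ht : c + 1 + (nU w' (a + 1) : ZMod (l + 2)) = c + 1 + (nU w (a + 1) : ZMod (l + 2)) := by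
      rw [hU]
    have hb : c - (nD w' (a + 1) : ZMod (l + 2)) = c - (nD w (a + 1) : ZMod (l + 2)) := by
      rw [hD]
    rw [triA_y l c w F a _ _ _ _ rfl rfl rfl rfl, triA_y l c w' F a _ _ _ _ ht hb rfl rfl]
    rw [h a (by omega)]
    have hQ : (if w (a + 1) then c + 1 + (nU w (a + 1) : ZMod (l + 2)) + 1
        else c - (nD w (a + 1) : ZMod (l + 2)) - 1) =
        (if w' (a + 1) then c + 1 + (nU w (a + 1) : ZMod (l + 2)) + 1
        else c - (nD w (a + 1) : ZMod (l + 2)) - 1) := by
      by_cases hl : (a : ℕ) + 1 + 1 < l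
      · rw [h _ hl]
      · have h1 := nU_add_nD w (a + 1)
        have h2 : c + 1 + (nU w (a + 1) : ZMod (l + 2)) + 1 =
            c - (nD w (a + 1) : ZMod (l + 2)) - 1 := by
          have h3 : ((nU w (a + 1) + nD w (a + 1) + 3 : ℕ) : ZMod (l + 2)) = 0 := by
            have h4 : nU w (a + 1) + nD w (a + 1) + 3 = l + 2 := by omega
            rw [h4]
            exact ZMod.natCast_self (l + 2)
          push_cast at h3
          linear_combination h3
        rw [h2]
        simp
    rw [hQ]

theorem T_rot (l : ℕ) (c d : ZMod (l + 2)) (w : ℕ → Bool) (F : Fr (l + 2) K) :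
    T l c w (F.rot d) = T l (c + d) w F := by
  apply Seed.ext
  · rfl
  · funext a
    have ht : c + d + 1 + (nU w (a + 1) : ZMod (l + 2)) =
        c + 1 + (nU w (a + 1) : ZMod (l + 2)) + d := by ring
    have hb : c + d - (nD w (a + 1) : ZMod (l + 2)) = c - (nD w (a + 1) : ZMod (l + 2)) + d := by
      ring
    rw [triA_y l c w (F.rot d) a _ _ _ _ rfl rfl rfl rfl, triA_y l (c + d) w F a _ _ _ _ ht hb rfl rfl]
    have hQ : (if w (a + 1) then c + 1 + (nU w (a + 1) : ZMod (l + 2)) + d + 1
        else c - (nD w (a + 1) : ZMod (l + 2)) + d - 1) =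
        (if w (a + 1) then c + 1 + (nU w (a + 1) : ZMod (l + 2)) + 1
        else c - (nD w (a + 1) : ZMod (l + 2)) - 1) + d := by
      split_ifs <;> ring
    have hP : (if w a then c + 1 + (nU w (a + 1) : ZMod (l + 2)) + d - 1
        else c - (nD w (a + 1) : ZMod (l + 2)) + d + 1) =
        (if w a then c + 1 + (nU w (a + 1) : ZMod (l + 2)) - 1
        else c - (nD w (a + 1) : ZMod (l + 2)) + 1) + d := by
      split_ifs <;> ring
    rw [hQ, hP]
    rfl

/-- Reflection: with `c' = -c-1` and the opposite word, `t' = -b`, `b' = -t`, `P' = -P`, `Q' = -Q`, and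
`F.refl.x i j = F.x (-j) (-i)`; the cross ratio becomes its inverse (use `anti` twice; `inv_div`).  `epsW` changes
sign. -/
theorem T_refl (l : ℕ) (c : ZMod (l + 2)) (w : ℕ → Bool) (F : Fr (l + 2) K) :
    T l c w F.refl = (T l (-c - 1) (fun i => !(w i)) F).anti := by
  apply Seed.ext
  · funext i j
    show epsW (l - 1) w i j = - epsW (l - 1) (fun i => !(w i)) i j
    unfold epsW
    by_cases h1 : j.val = i.val + 1
    · rw [if_pos h1, if_pos h1]
      by_cases h : w j.val = true
      · simp [h]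
      · rw [Bool.not_eq_true] at h
        simp [h]
    · rw [if_neg h1, if_neg h1]
      by_cases h2 : i.val = j.val + 1
      · rw [if_pos h2, if_pos h2]
        by_cases h : w i.val = true
        · simp [h]
        · rw [Bool.not_eq_true] at h
          simp [h]
      · rw [if_neg h2, if_neg h2, neg_zero]
  · funext a
    show _ = ((T l (-c - 1) (fun i => !(w i)) F).y a)⁻¹
    obtain ⟨hU, hD⟩ := triA_neg (w := w) ((a : ℕ) + 1)
    have ht : -c - 1 + 1 + (nU (fun i => !(w i)) (a + 1) : ZMod (l + 2)) =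
        -(c - (nD w (a + 1) : ZMod (l + 2))) := by
      rw [hU]
      ring
    have hb : -c - 1 - (nD (fun i => !(w i)) (a + 1) : ZMod (l + 2)) =
        -(c + 1 + (nU w (a + 1) : ZMod (l + 2))) := by
      rw [hD]
      ring
    rw [triA_y l c w F.refl a _ _ _ _ rfl rfl rfl rfl,
      triA_y l (-c - 1) (fun i => !(w i)) F a _ _
        (-(if w a then c + 1 + (nU w (a + 1) : ZMod (l + 2)) - 1
          else c - (nD w (a + 1) : ZMod (l + 2)) + 1))
        (-(if w (a + 1) then c + 1 + (nU w (a + 1) : ZMod (l + 2)) + 1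
          else c - (nD w (a + 1) : ZMod (l + 2)) - 1)) ht hb
        (by cases w (a + 1) <;> simp <;> ring) (by cases w a <;> simp <;> ring)]
    generalize (if w a then c + 1 + (nU w (a + 1) : ZMod (l + 2)) - 1
          else c - (nD w (a + 1) : ZMod (l + 2)) + 1) = P
    generalize (if w (a + 1) then c + 1 + (nU w (a + 1) : ZMod (l + 2)) + 1
          else c - (nD w (a + 1) : ZMod (l + 2)) - 1) = Q
    generalize c + 1 + (nU w (a + 1) : ZMod (l + 2)) = t
    generalize c - (nD w (a + 1) : ZMod (l + 2)) = b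
    show F.x (-Q) (-t) * F.x (-P) (-b) / (F.x (-b) (-Q) * F.x (-P) (-t)) =
      (F.x (-b) (-Q) * F.x (-t) (-P) / (F.x (-Q) (-t) * F.x (-b) (-P)))⁻¹
    rw [inv_div, F.anti (-b) (-P), F.anti (-t) (-P), mul_neg, mul_neg, neg_div_neg_eq]

end Pool.Agent.Lib.MP_d4c67c_gt
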