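import Pool.Agent.Lib.MP_d4c67c_gt.Div
import Pool.Agent.Lib.MP_d4c67c_gt.TriA

/-!
# JOB Dens: the coordinates of a fan seed are independent

(You may use `Q`, `Ch`, `HH`, `Pts`, `Div`, `TriA`, which are other jobs.)
-/

namespace Pool.Agent.Lib.MP_d4c67c_gt

open MvPolynomial

variable {k : Type*} [Field k]

/-- the word `D D D …` -/
abbrev wD : ℕ → Bool := fun _ => false

private theorem Dens_nU (t : ℕ) : nU wD t = 0 := by
  induction t with
  | zero => rfl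
  | succ t ih => simp [nU, ih]

private theorem Dens_nD (t : ℕ) : nD wD t = t := by
  induction t with
  | zero => rfl
  | succ t ih => simp [nD, ih]

/-- For the word `D D D …` and `c = -1`: `t = 0`, `b = -(a+2)`, `P = b + 1`, `Q = b - 1`, so the coordinate is
`x 0 (-(a+3)) * x (-(a+2)) (-(a+1)) / (x (-(a+3)) (-(a+2)) * x 0 (-(a+1))) = x 0 (-(a+3)) / x 0 (-(a+1))` -/
theorem T_fan (l : ℕ) (F : Fr (l + 2) k) (a : Fin (l - 1)) :
    (T l (-1) wD F).y a = F.x 0 (-((a.val + 3 : ℕ) : ZMod (l + 2))) / F.x 0 (-((a.val + 1 : ℕ) : ZMod (l + 2))) := by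
  have h1 : (T l (-1) wD F).y a =
      F.x (-1 + 1 + (nU wD (a + 1) : ZMod (l + 2))) (-1 - (nD wD (a + 1) : ZMod (l + 2)) - 1) *
      F.x (-1 - (nD wD (a + 1) : ZMod (l + 2))) (-1 - (nD wD (a + 1) : ZMod (l + 2)) + 1) /
      (F.x (-1 - (nD wD (a + 1) : ZMod (l + 2)) - 1) (-1 - (nD wD (a + 1) : ZMod (l + 2))) *
       F.x (-1 + 1 + (nU wD (a + 1) : ZMod (l + 2)))
        (-1 - (nD wD (a + 1) : ZMod (l + 2)) + 1)) := rfl
  rw [h1, Dens_nU, Dens_nD]
  have e1 : (-1 + 1 + ((0 : ℕ) : ZMod (l + 2))) = 0 := by push_cast; ring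
  have e2 : (-1 - ((a.val + 1 : ℕ) : ZMod (l + 2)) - 1) = -((a.val + 3 : ℕ) : ZMod (l + 2)) := by
    push_cast; ring
  have e3 : (-1 - ((a.val + 1 : ℕ) : ZMod (l + 2)) + 1) = -((a.val + 1 : ℕ) : ZMod (l + 2)) := by
    push_cast; ring
  have o1 := F.one (-1 - ((a.val + 1 : ℕ) : ZMod (l + 2)))
  have o2 := F.one (-1 - ((a.val + 1 : ℕ) : ZMod (l + 2)) - 1)
  rw [sub_add_cancel] at o2
  rw [o1, o2, e1, e2, e3, mul_one, one_mul]

/-- the second coordinates of the polygon -/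
private noncomputable def Dens_G (Y : ℕ → k) (c : k) : ℕ → k
  | 0 => -1
  | 1 => c
  | (a + 2) => Y a * Dens_G Y c a

private noncomputable def Dens_T (Y : ℕ → k) (c : k) : ℕ → k
  | 0 => 0
  | (a + 1) => Dens_T Y c a + 1 / (Dens_G Y c a * Dens_G Y c (a + 1))

private theorem Dens_G_ne (Y : ℕ → k) (c : k) (hY : ∀ a, Y a ≠ 0) (hc : c ≠ 0) (n : ℕ) :
    Dens_G Y c n ≠ 0 := by
  induction n using Nat.strong_induction_on with
  | _ n ih =>
    match n, ih with
    | 0, _ => simp [Dens_G]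
    | 1, _ => simpa [Dens_G] using hc
    | (n + 2), ih =>
      simp only [Dens_G]
      exact mul_ne_zero (hY n) (ih n (by omega))

private theorem Dens_G_odd (Y : ℕ → k) (c : k) (s : ℕ) :
    Dens_G Y c (2 * s + 1) = c * Dens_G Y 1 (2 * s + 1) := by
  induction s with
  | zero => simp [Dens_G]
  | succ s ih =>
    have e : 2 * (s + 1) + 1 = (2 * s + 1) + 2 := by ring
    rw [e]
    simp only [Dens_G]
    rw [ih]
    ring

/-- the polygon -/
private noncomputable def Dens_W (l : ℕ) (Y : ℕ → k) (c : k) (i : ZMod (l + 2)) : k × k :=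
  if i.val = 0 then (1, 0)
  else (Dens_G Y c (l + 1 - i.val) * Dens_T Y c (l + 1 - i.val), Dens_G Y c (l + 1 - i.val))

private theorem Dens_W_one (l : ℕ) (hl : 1 ≤ l) (Y : ℕ → k) (c : k) (hY : ∀ a, Y a ≠ 0)
    (hc : c ≠ 0) (hG : Dens_G Y c l = 1) (i : ZMod (l + 2)) :
    dt (Dens_W l Y c i) (Dens_W l Y c (i + 1)) = 1 := by
  have hv := ZMod.val_lt i
  by_cases h : i.val + 1 < l + 2
  · have h1 : (i + 1).val = i.val + 1 := by
      rw [ZMod.val_add_of_lt]
      · rw [ZMod.val_one'' (by omega)]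
      · rw [ZMod.val_one'' (by omega)]; exact h
    by_cases h0 : i.val = 0
    · unfold Dens_W
      rw [h1, if_pos h0, if_neg (by omega), h0]
      have e : l + 1 - (0 + 1) = l := by omega
      rw [e, hG]
      unfold dt
      ring
    · unfold Dens_W
      rw [h1, if_neg h0, if_neg (by omega)]
      obtain ⟨a, ha⟩ : ∃ a, l + 1 - (i.val + 1) = a := ⟨_, rfl⟩
      have e : l + 1 - i.val = a + 1 := by omega
      rw [ha, e]
      have g1 := Dens_G_ne Y c hY hc a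
      have g2 := Dens_G_ne Y c hY hc (a + 1)
      have e3 : Dens_T Y c (a + 1) = Dens_T Y c a + 1 / (Dens_G Y c a * Dens_G Y c (a + 1)) := rfl
      unfold dt
      simp only []
      rw [e3]
      field_simp
      ring
  · have h1 : i.val = l + 1 := by omega
    have h2 : (i + 1).val = 0 := by
      rw [ZMod.val_eq_zero]
      have : i = ((l + 1 : ℕ) : ZMod (l + 2)) := by
        rw [← h1, ZMod.natCast_zmod_val]
      rw [this]
      have := ZMod.natCast_self (l + 2)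
      push_cast at this ⊢
      linear_combination this
    unfold Dens_W
    rw [h2, h1, if_neg (by omega), if_pos rfl, Nat.sub_self]
    unfold dt
    simp [Dens_G]

private theorem Dens_x (l : ℕ) (hl : 1 ≤ l) (Y : ℕ → k) (c : k) (hY : ∀ a, Y a ≠ 0)
    (hc : c ≠ 0) (hG : Dens_G Y c l = 1) (b : ℕ) (hb : b ≤ l) :
    (Fr.ofPoly (Dens_W l Y c) (Dens_W_one l hl Y c hY hc hG)).x 0
      (-((b + 1 : ℕ) : ZMod (l + 2))) = Dens_G Y c b := by
  have h1 : -((b + 1 : ℕ) : ZMod (l + 2)) = ((l + 1 - b : ℕ) : ZMod (l + 2)) := by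
    have h2 : ((l + 1 - b : ℕ) : ZMod (l + 2)) + ((b + 1 : ℕ) : ZMod (l + 2)) = 0 := by
      rw [← Nat.cast_add, show l + 1 - b + (b + 1) = l + 2 by omega]
      exact ZMod.natCast_self (l + 2)
    exact (eq_neg_of_add_eq_zero_left h2).symm
  have h2 : (-((b + 1 : ℕ) : ZMod (l + 2))).val = l + 1 - b := by
    rw [h1]
    exact ZMod.val_natCast_of_lt (by omega)
  change dt (Dens_W l Y c 0) (Dens_W l Y c (-((b + 1 : ℕ) : ZMod (l + 2)))) = _
  unfold Dens_W
  rw [h2, ZMod.val_zero, if_pos rfl, if_neg (by omega)]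
  have e : l + 1 - (l + 1 - b) = b := by omega
  rw [e]
  unfold dt
  ring

/-- Every `y` with nonzero entries is attained (`l` odd).  Let `g 1 = -1`, `g (2 s + 3) = y (2 s) * g (2 s + 1)`;
`g (l + 1) = 1` and downwards `g (2 s) = g (2 s + 2) / y (2 s - 1)`; that is
`g (2 s + 1) = - ∏_{u < s} y (2 u)` and `g (2 s) = ∏_{s ≤ u, 2 u ≤ l - 1} (y (2 u - 1))⁻¹`
(extend `y` by `1` outside `0 … l-2`).  So `g j ≠ 0` for `1 ≤ j ≤ l + 1`, `g (a+3) = y a * g (a+1)`.
Let `τ 1 = 0`, `τ (j+1) = τ j + 1 / (g j * g (j+1))`.  Polygon: `W 0 = (1, 0)`, `W (-j) = (g j * τ j, g j)` for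
`1 ≤ j ≤ l + 1` (label `i ≠ 0` is `-j` with `j = l + 2 - i.val`).  `dt (W (-(j+1))) (W (-j)) = g j g (j+1) (τ (j+1) - τ j) = 1`,
`dt (W (-1)) (W 0) = - g 1 = 1`, `dt (W 0) (W 1) = g (l+1) = 1` (`1 = -(l+1)`).  So `x 0 (-j) = g j`; use `T_fan`. -/
theorem fan_surj (l : ℕ) (ho : Odd l) (y : Fin (l - 1) → k) (hy : ∀ a, y a ≠ 0) :
    ∃ F : Fr (l + 2) k, (∀ j : ZMod (l + 2), j ≠ 0 → F.x 0 j ≠ 0) ∧ (T l (-1) wD F).y = y := by
  obtain ⟨s, hs⟩ := ho
  have hl : 1 ≤ l := by omega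
  set Y : ℕ → k := fun a => if h : a < l - 1 then y ⟨a, h⟩ else 1 with hYd
  have hY : ∀ a, Y a ≠ 0 := by
    intro a
    rw [hYd]
    dsimp only
    split_ifs with h
    · exact hy _
    · exact one_ne_zero
  have h1 : Dens_G Y 1 l ≠ 0 := Dens_G_ne Y 1 hY one_ne_zero l
  set c : k := (Dens_G Y 1 l)⁻¹ with hcd
  have hc : c ≠ 0 := inv_ne_zero h1
  have hG : Dens_G Y c l = 1 := by
    have h2 := Dens_G_odd Y c s
    rw [← hs] at h2
    rw [h2, hcd, inv_mul_cancel₀ h1]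
  refine ⟨Fr.ofPoly (Dens_W l Y c) (Dens_W_one l hl Y c hY hc hG), ?_, ?_⟩
  · intro j hj
    have hv := ZMod.val_lt j
    have hj0 : j.val ≠ 0 := by
      rw [Ne, ZMod.val_eq_zero]
      exact hj
    have e : j = -((l + 1 - j.val + 1 : ℕ) : ZMod (l + 2)) := by
      have h2 : j + ((l + 1 - j.val + 1 : ℕ) : ZMod (l + 2)) = 0 := by
        have h3 : ((j.val : ℕ) : ZMod (l + 2)) + ((l + 1 - j.val + 1 : ℕ) : ZMod (l + 2)) = 0 := by
          rw [← Nat.cast_add, show j.val + (l + 1 - j.val + 1) = l + 2 by omega]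
          exact ZMod.natCast_self (l + 2)
        rwa [ZMod.natCast_zmod_val] at h3
      exact eq_neg_of_add_eq_zero_left h2
    rw [e, Dens_x l hl Y c hY hc hG _ (by omega)]
    exact Dens_G_ne Y c hY hc _
  · funext a
    have ha := a.isLt
    rw [T_fan, Dens_x l hl Y c hY hc hG (a.val + 2) (by omega),
      Dens_x l hl Y c hY hc hG a.val (by omega)]
    have h2 : Dens_G Y c (a.val + 2) = Y a.val * Dens_G Y c a.val := rfl
    have h3 : Y a.val = y a := by
      rw [hYd]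
      dsimp only
      rw [dif_pos ha]
    rw [h2, h3, mul_div_assoc, div_self (Dens_G_ne Y c hY hc _), mul_one]

/-- Polynomials in the coordinates of the fan seed, times a power of a product of entries, are elements of the frieze
ring (induction on `H`; `y a` is `x 0 (-(a+3)) / x 0 (-(a+1))`). -/
theorem fan_poly (l : ℕ) (H : MvPolynomial (Fin (l - 1)) k) :
    ∃ (M : ℕ) (h : A k l), ∀ F : Fr (l + 2) k, (∀ j : ZMod (l + 2), j ≠ 0 → F.x 0 j ≠ 0) →
      lift F h = eval (T l (-1) wD F).y H *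
        (∏ a : Fin (l - 1), F.x 0 (-((a.val + 1 : ℕ) : ZMod (l + 2)))) ^ M := by
  classical
  set D : A k l := ∏ a : Fin (l - 1), (univ k l).x 0 (-((a.val + 1 : ℕ) : ZMod (l + 2))) with hD
  have hDF : ∀ F : Fr (l + 2) k, lift F D =
      ∏ a : Fin (l - 1), F.x 0 (-((a.val + 1 : ℕ) : ZMod (l + 2))) := by
    intro F
    rw [hD, map_prod]
    exact Finset.prod_congr rfl fun a _ => lift_univ F _ _
  induction H using MvPolynomial.induction_on with
  | C c =>
    refine ⟨0, algebraMap k _ c, fun F _ => ?_⟩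
    rw [pow_zero, mul_one, eval_C, AlgHom.commutes]
    rfl
  | add p q hp hq =>
    obtain ⟨M₁, h₁, hh₁⟩ := hp
    obtain ⟨M₂, h₂, hh₂⟩ := hq
    refine ⟨M₁ + M₂, h₁ * D ^ M₂ + h₂ * D ^ M₁, fun F hF => ?_⟩
    rw [map_add, map_mul, map_mul, map_pow, map_pow, hDF, hh₁ F hF, hh₂ F hF, map_add, pow_add]
    ring
  | mul_X p a hp =>
    obtain ⟨M, h, hh⟩ := hp
    refine ⟨M + 1, h * (univ k l).x 0 (-((a.val + 3 : ℕ) : ZMod (l + 2))) *
      ∏ a' ∈ Finset.univ.erase a, (univ k l).x 0 (-((a'.val + 1 : ℕ) : ZMod (l + 2))),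
      fun F hF => ?_⟩
    have hne : F.x 0 (-((a.val + 1 : ℕ) : ZMod (l + 2))) ≠ 0 := by
      apply hF
      intro h0
      rw [neg_eq_zero, ZMod.natCast_eq_zero_iff] at h0
      have h1 := Nat.le_of_dvd (by omega) h0
      have h2 := a.isLt
      omega
    have hy : (T l (-1) wD F).y a * F.x 0 (-((a.val + 1 : ℕ) : ZMod (l + 2))) =
        F.x 0 (-((a.val + 3 : ℕ) : ZMod (l + 2))) := by
      rw [T_fan, div_mul_cancel₀ _ hne]
    have hp1 : ∏ a' ∈ Finset.univ.erase a, lift F ((univ k l).x 0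
        (-((a'.val + 1 : ℕ) : ZMod (l + 2)))) =
        ∏ a' ∈ Finset.univ.erase a, F.x 0 (-((a'.val + 1 : ℕ) : ZMod (l + 2))) :=
      Finset.prod_congr rfl fun a' _ => lift_univ F _ _
    have hp2 : F.x 0 (-((a.val + 1 : ℕ) : ZMod (l + 2))) *
        ∏ a' ∈ Finset.univ.erase a, F.x 0 (-((a'.val + 1 : ℕ) : ZMod (l + 2))) =
        ∏ a' : Fin (l - 1), F.x 0 (-((a'.val + 1 : ℕ) : ZMod (l + 2))) :=
      Finset.mul_prod_erase Finset.univ
        (fun a' : Fin (l - 1) => F.x 0 (-((a'.val + 1 : ℕ) : ZMod (l + 2)))) (Finset.mem_univ a)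
    rw [map_mul, map_mul, map_prod, hp1, lift_univ, hh F hF, map_mul, eval_X, ← hy, pow_succ, ← hp2]
    ring

/-- Density.  `H * ∏ X_i ≠ 0`, so there is `y` with `H(y) ≠ 0` and all `y_i ≠ 0` (`k` infinite, `MvPolynomial.funext`);
`F0` from `fan_surj`; with `h` from `fan_poly`, `lift F0 h ≠ 0`, so `h ≠ 0`.  `A k l` is a domain (`A_isDomain`) and
`h * a * ∏_{i ≠ j} x i j ≠ 0` (`univ_ne_zero`), so by `eval_inj` there is `F` with `lift F (…) ≠ 0`; it is generic,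
`lift F a ≠ 0`, and `lift F h ≠ 0` gives `H(y(F)) ≠ 0`. -/
theorem dens [CharZero k] (l : ℕ) (ho : Odd l) (h3 : 3 ≤ l) (a : A k l) (ha : a ≠ 0)
    (H : MvPolynomial (Fin (l - 1)) k) (hH : H ≠ 0) :
    ∃ F : Fr (l + 2) k, Gen F ∧ lift F a ≠ 0 ∧ eval (T l (-1) wD F).y H ≠ 0 := by
  classical
  have hdom : IsDomain (A k l) := A_isDomain l (Or.inr h3)
  have hinf : Infinite k := CharZero.infinite k
  have h1 : H * ∏ i : Fin (l - 1), X i ≠ 0 :=
    mul_ne_zero hH (Finset.prod_ne_zero_iff.2 fun i _ => X_ne_zero i)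
  obtain ⟨y, hy⟩ : ∃ y : Fin (l - 1) → k, eval y (H * ∏ i : Fin (l - 1), X i) ≠ 0 := by
    by_contra hcon
    push Not at hcon
    apply h1
    refine MvPolynomial.funext fun y => ?_
    rw [hcon y, map_zero]
  rw [map_mul, map_prod] at hy
  have hy1 : eval y H ≠ 0 := left_ne_zero_of_mul hy
  have hy2 : ∀ i, y i ≠ 0 := by
    intro i
    have h2 := Finset.prod_ne_zero_iff.1 (right_ne_zero_of_mul hy) i (Finset.mem_univ i)
    rwa [eval_X] at h2
  obtain ⟨F0, hF0, hF0y⟩ := fan_surj l ho y hy2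
  obtain ⟨M, h, hh⟩ := fan_poly l H
  have hneg : ∀ a : Fin (l - 1), -((a.val + 1 : ℕ) : ZMod (l + 2)) ≠ 0 := by
    intro a h0
    rw [neg_eq_zero, ZMod.natCast_eq_zero_iff] at h0
    have h1 := Nat.le_of_dvd (by omega) h0
    have h2 := a.isLt
    omega
  have hh0 : h ≠ 0 := by
    rintro rfl
    have h2 := hh F0 hF0
    rw [map_zero, hF0y] at h2
    exact (mul_ne_zero hy1 (pow_ne_zero M (Finset.prod_ne_zero_iff.2
      fun a _ => hF0 _ (hneg a)))) h2.symm
  have hP : h * a * ∏ p ∈ Finset.univ.filter (fun p : ZMod (l + 2) × ZMod (l + 2) => p.1 ≠ p.2),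
      (univ k l).x p.1 p.2 ≠ 0 := by
    refine mul_ne_zero (mul_ne_zero hh0 ha) (Finset.prod_ne_zero_iff.2 fun p hp => ?_)
    exact univ_ne_zero l h3 p.1 p.2 (Finset.mem_filter.1 hp).2
  obtain ⟨F, hF⟩ : ∃ F : Fr (l + 2) k, lift F (h * a *
      ∏ p ∈ Finset.univ.filter (fun p : ZMod (l + 2) × ZMod (l + 2) => p.1 ≠ p.2),
        (univ k l).x p.1 p.2) ≠ 0 := by
    by_contra hcon
    push Not at hcon
    exact hP (eval_inj l (Or.inr h3) _ hcon)
  rw [map_mul, map_mul, map_prod] at hF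
  have hgen : Gen F := by
    intro i j hij
    have h2 := Finset.prod_ne_zero_iff.1 (right_ne_zero_of_mul hF) (i, j)
      (Finset.mem_filter.2 ⟨Finset.mem_univ _, hij⟩)
    rwa [lift_univ] at h2
  have hF1 := left_ne_zero_of_mul hF
  refine ⟨F, hgen, right_ne_zero_of_mul hF1, fun h0 => ?_⟩
  have h2 := hh F fun j hj => hgen 0 j (Ne.symm hj)
  rw [h0, zero_mul] at h2
  exact left_ne_zero_of_mul hF1 h2

end Pool.Agent.Lib.MP_d4c67c_gt
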