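import Pool.Agent.Lib.MP_d4c67c_gt.Steps

/-!
# JOB Dihed: isomorphisms of frieze rings are dihedral

(You may use everything of `Q`, `Ch`, `HH`, `Pts`, `Row`, `Div`, `Steps`, which are other jobs.)
Notation: `s i = x i (i+2)`.
-/

namespace Pool.Agent.Lib.MP_d4c67c_gt

open Polynomial

private theorem Dihed_cast_ne {l : ℕ} (m : ℕ) (h1 : 0 < m) (h2 : m < l + 2) :
    ((m : ℕ) : ZMod (l + 2)) ≠ 0 := by
  intro h
  rw [ZMod.natCast_eq_zero_iff] at h
  have := Nat.le_of_dvd h1 h
  omega

private theorem Dihed_run {N : ℕ} [NeZero N] (τ : ZMod N → ZMod N) (e : ZMod N)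
    (h0 : τ 1 = τ 0 + e)
    (h : ∀ i, τ (i + 1) = τ i + e → τ (i + 1 + 1) = τ (i + 1) + e) (i : ZMod N) :
    τ i = τ 0 + i * e := by
  have key : ∀ n : ℕ, τ ((n : ZMod N) + 1) = τ (n : ZMod N) + e := by
    intro n
    induction n with
    | zero =>
      rw [Nat.cast_zero, zero_add]
      exact h0
    | succ n ih =>
      have := h _ ih
      push_cast
      exact this
  have key2 : ∀ n : ℕ, τ (n : ZMod N) = τ 0 + (n : ZMod N) * e := by
    intro n
    induction n with
    | zero =>
      rw [Nat.cast_zero, zero_mul, add_zero]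
    | succ n ih =>
      push_cast
      rw [key n, ih]
      ring
  have := key2 i.val
  rwa [ZMod.natCast_zmod_val] at this

/-- An injective map of `ZMod N` that moves neighbours to neighbours is `i ↦ τ 0 + i` or `i ↦ τ 0 - i`.
If `τ 1 = τ 0 + 1`, prove by induction on `n : ℕ`, `n ≤ N - 1`, that `τ n = τ 0 + n` (injectivity excludes going back:
`τ (n+1) = τ n - 1 = τ (n-1)` would give `(n+1 : ZMod N) = n - 1`, `2 = 0`, impossible for `N ≥ 3`); similarly in
the other case. -/
theorem dihedral_of_adj {N : ℕ} (hN : 3 ≤ N) (τ : ZMod N → ZMod N) (hinj : Function.Injective τ)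
    (h : ∀ i, τ (i + 1) = τ i + 1 ∨ τ (i + 1) = τ i - 1) :
    (∀ i, τ i = τ 0 + i) ∨ (∀ i, τ i = τ 0 - i) := by
  have : NeZero N := ⟨by omega⟩
  have h20 : (2 : ZMod N) ≠ 0 := by
    intro h2
    have h3 : ((2 : ℕ) : ZMod N) = 0 := by exact_mod_cast h2
    rw [ZMod.natCast_eq_zero_iff] at h3
    have := Nat.le_of_dvd (by norm_num) h3
    omega
  have hback : ∀ i, τ (i + 1 + 1) ≠ τ i := by
    intro i hi
    have := hinj hi
    apply h20
    linear_combination this
  have h01 := h 0
  rw [zero_add] at h01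
  rcases h01 with h01 | h01
  · left
    intro i
    have := Dihed_run τ 1 h01 (fun i hi => by
      rcases h (i + 1) with h2 | h2
      · exact h2
      · exact absurd (by rw [h2, hi]; ring) (hback i)) i
    rw [this, mul_one]
  · right
    intro i
    have := Dihed_run τ (-1) (by rw [h01]; ring) (fun i hi => by
      rcases h (i + 1) with h2 | h2
      · exact absurd (by rw [h2, hi]; ring) (hback i)
      · rw [h2]; ring) i
    rw [this]
    ring

variable {k : Type*} [Field k]

variable (k) in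
/-- reflection automorphism: `x i j ↦ x (c - j) (c - i)`; it is an involution -/
noncomputable def reflA (l : ℕ) (c : ZMod (l + 2)) : A k l ≃ₐ[k] A k l :=
  AlgEquiv.ofAlgHom (lift ((univ k l).rot c).refl) (lift ((univ k l).rot c).refl)
    (by
      apply A_hom_ext
      intro j hj
      simp only [AlgHom.comp_apply, AlgHom.id_apply]
      rw [lift_gen _ j hj]
      show lift _ ((univ k l).x _ _) = _
      rw [lift_univ]
      show (univ k l).x _ _ = _
      rw [← univ_short k l j hj]
      congr 1 <;> ring)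
    (by
      apply A_hom_ext
      intro j hj
      simp only [AlgHom.comp_apply, AlgHom.id_apply]
      rw [lift_gen _ j hj]
      show lift _ ((univ k l).x _ _) = _
      rw [lift_univ]
      show (univ k l).x _ _ = _
      rw [← univ_short k l j hj]
      congr 1 <;> ring)

theorem reflA_univ (l : ℕ) (c i j : ZMod (l + 2)) :
    reflA k l c ((univ k l).x i j) = (univ k l).x (c - j) (c - i) := by
  have h : reflA k l c ((univ k l).x i j) = (univ k l).x (-j + c) (-i + c) := lift_univ _ _ _
  rw [h]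
  congr 1 <;> ring

/-- If a homomorphism multiplies every `s i` by a constant, the constants are `1`.  For `i` take `F` from
`single_exists k l ho i`, and `F' = (univ k l).map (lift F ∘ ρ)`, so that `F'.x j (j+2) = c j * F.x j (j+2)`
for all `j`.  By `single_val` for `F` and `F'`, `F'.x i (i+2) = F.x i (i+2) = -(-1)^((l-1)/2) ≠ 0`, so `c i = 1`. -/
theorem scale_one {l : ℕ} (ho : Odd l) (ρ : A k l →ₐ[k] A k l) (c : ZMod (l + 2) → k)
    (h : ∀ i, ρ ((univ k l).x i (i + 2)) = algebraMap k _ (c i) * (univ k l).x i (i + 2)) (i : ZMod (l + 2)) :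
    c i = 1 := by
  obtain ⟨F, hF⟩ := single_exists k l ho i
  set F' : Fr (l + 2) k := (univ k l).map (((lift F).comp ρ : A k l →ₐ[k] k) : A k l →+* k) with hF'
  have hs : ∀ j, F'.x j (j + 2) = c j * F.x j (j + 2) := by
    intro j
    show lift F (ρ ((univ k l).x j (j + 2))) = _
    rw [h j, map_mul, lift_univ, AlgHom.commutes]
    rfl
  have h1 := single_val l ho F i hF
  have h2 := single_val l ho F' i (fun n hn hn' => by rw [hs, hF n hn hn', mul_zero])
  rw [hs i, h1] at h2
  have h3 : (-(-1 : k) ^ ((l - 1) / 2)) ≠ 0 := neg_ne_zero.2 (pow_ne_zero _ (by norm_num))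
  exact (mul_eq_right₀ h3).1 h2

/-- distinct short diagonals are not associated: from `not_short_dvd` (`4 ≠ 0` in `ZMod (l+2)`, `l + 2 ≥ 5`) -/
theorem short_inj [CharZero k] {l : ℕ} (h3 : 3 ≤ l) {i j : ZMod (l + 2)}
    (h : (univ k l).x i (i + 2) ∣ (univ k l).x j (j + 2)) : i = j := by
  have n2 : (2 : ZMod (l + 2)) ≠ 0 := by
    have := Dihed_cast_ne (l := l) 2 (by norm_num) (by omega)
    exact_mod_cast this
  have n4 : (4 : ZMod (l + 2)) ≠ 0 := by
    have := Dihed_cast_ne (l := l) 4 (by norm_num) (by omega)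
    exact_mod_cast this
  have hne : j ≠ j + 2 := by
    intro hj
    apply n2
    linear_combination -hj
  rcases not_short_dvd l h3 i j (j + 2) hne h with ⟨h1, _⟩ | ⟨h1, h2⟩
  · exact h1.symm
  · exfalso
    apply n4
    linear_combination h2 - h1

private theorem Dihed_inj [CharZero k] {l l' : ℕ} (h3' : 3 ≤ l')
    (ψ : A k l' ≃ₐ[k] A k l) (σ : ZMod (l' + 2) → ZMod (l + 2)) (c : ZMod (l' + 2) → k)
    (hc : ∀ i, c i ≠ 0)
    (h : ∀ i, ψ ((univ k l').x i (i + 2)) = algebraMap k _ (c i) * (univ k l).x (σ i) (σ i + 2)) :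
    Function.Injective σ := by
  intro i j hij
  refine short_inj h3' (k := k) ?_
  have h1 := h i
  have h2 := h j
  rw [← hij] at h2
  have h4 : ψ ((univ k l').x j (j + 2)) =
      ψ ((univ k l').x i (i + 2) * algebraMap k _ (c j * (c i)⁻¹)) := by
    rw [map_mul, h1, h2, AlgEquiv.commutes, map_mul]
    have h5 : algebraMap k (A k l) (c i) * algebraMap k (A k l) (c i)⁻¹ = 1 := by
      rw [← map_mul, mul_inv_cancel₀ (hc i), map_one]
    linear_combination (-(algebraMap k (A k l) (c j) * (univ k l).x (σ i) (σ i + 2))) * h5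
  have h6 := ψ.injective h4
  exact ⟨_, h6⟩

private theorem Dihed_le [CharZero k] {l l' : ℕ} (ho : Odd l) (h3 : 3 ≤ l) (ho' : Odd l')
    (h3' : 3 ≤ l') (ψ : A k l' ≃ₐ[k] A k l) : l' ≤ l := by
  have h := short_to_short ho h3 ho' h3' ψ
  choose σ c hc h using h
  have hinj := Dihed_inj h3' ψ σ c hc h
  have := Fintype.card_le_of_injective σ hinj
  rw [ZMod.card, ZMod.card] at this
  omega

/-- The numbers of short diagonals agree.  By `short_to_short` and choice there is `σ : ZMod (l'+2) → ZMod (l+2)`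
with `ψ (s' i) = c i * s (σ i)`; it is injective by `short_inj`, so `l' + 2 ≤ l + 2` (`Fintype.card_le_of_injective`,
`ZMod.card`).  The same for `ψ.symm`. -/
theorem ring_card [CharZero k] {l l' : ℕ} (ho : Odd l) (h3 : 3 ≤ l) (ho' : Odd l') (h3' : 3 ≤ l')
    (ψ : A k l' ≃ₐ[k] A k l) : l' = l := by
  exact le_antisymm (Dihed_le ho h3 ho' h3' ψ) (Dihed_le ho' h3' ho h3 ψ.symm)

/-- Adjacency.  Suppose `ψ (s i) = ci * s (σi)`, `ψ (s j) = cj * s (σi - 1)` (`ci, cj ≠ 0`).  Then `j = i + 1` or
`j = i - 1`.  Write `l = n + 2`, `g` from `gi n _ σi`, `G = (univ k l).map (g ∘ ψ)`, a frieze over `D[X]`, `D = A k n`.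
If `G.x p q = 0`, `p ≠ q`: `s (σi) ∣ ψ (x p q)`, so `ψ (s i) ∣ ψ (x p q)`, `s i ∣ x p q`, `{p,q} = {i,i+2}` (`not_short_dvd`).
`natDegree (G.x j (j+2)) = natDegree (cj * g (s (σi - 1))) = 1` (third property of `gi`; `algebraMap k _ cj` is
`C` of a nonzero constant).  `j ≠ i` because `g (s σi) = 0`.  Assume `j ≠ i ± 1`.  If `j ≠ i + 2`, then neither `j`
nor `j + 1` is in `{i, i+2}`, so `row` at `j` gives `natDegree (G.x j (j+2)) = 0`, contradiction.  If
`j = i + 2` use `row` at `j + 1 = i + 3` (`i + 3, i + 4 ∉ {i, i+2}` because `l + 2 ≥ 5`), whose second part is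
`natDegree (G.x j (j+2)) = 0`, contradiction. -/
theorem adj [CharZero k] {l : ℕ} (ho : Odd l) (h3 : 3 ≤ l) (ψ : A k l ≃ₐ[k] A k l)
    {i j p : ZMod (l + 2)} {ci cj : k} (hci : ci ≠ 0) (hcj : cj ≠ 0)
    (hi : ψ ((univ k l).x i (i + 2)) = algebraMap k _ ci * (univ k l).x p (p + 2))
    (hj : ψ ((univ k l).x j (j + 2)) = algebraMap k _ cj * (univ k l).x (p - 1) (p + 1)) :
    j = i + 1 ∨ j = i - 1 := by
  obtain ⟨n, rfl⟩ : ∃ n, l = n + 2 := ⟨l - 2, by omega⟩
  have hn : Odd n := by
    obtain ⟨t, ht⟩ := ho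
    exact ⟨t - 1, by omega⟩
  have hdom : IsDomain (A k n) := A_isDomain n (odd_cases hn)
  obtain ⟨g, _, hker, hdeg⟩ := gi (k := k) n hn p
  set G : Fr (n + 2 + 2) (A k n)[X] := (univ k (n + 2)).map
    ((g.comp (ψ : A k (n + 2) →ₐ[k] A k (n + 2)) : A k (n + 2) →ₐ[k] (A k n)[X]) :
      A k (n + 2) →+* (A k n)[X]) with hG
  have hGx : ∀ a b, G.x a b = g (ψ ((univ k (n + 2)).x a b)) := fun a b => rfl
  have small : ∀ m : ℕ, 0 < m → m < n + 2 + 2 → ((m : ℕ) : ZMod (n + 2 + 2)) ≠ 0 :=
    fun m h1 h2 => Dihed_cast_ne (l := n + 2) m h1 h2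
  have n1 : (1 : ZMod (n + 2 + 2)) ≠ 0 := by
    have := small 1 (by norm_num) (by omega)
    exact_mod_cast this
  have n2 : (2 : ZMod (n + 2 + 2)) ≠ 0 := by
    have := small 2 (by norm_num) (by omega)
    exact_mod_cast this
  have n3 : (3 : ZMod (n + 2 + 2)) ≠ 0 := by
    have := small 3 (by norm_num) (by omega)
    exact_mod_cast this
  have n4 : (4 : ZMod (n + 2 + 2)) ≠ 0 := by
    have := small 4 (by norm_num) (by omega)
    exact_mod_cast this
  -- the zeros of G
  have hzero : ∀ a b, a ≠ b → G.x a b = 0 → a = i ∨ a = i + 2 := by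
    intro a b hab h0
    rw [hGx, hker] at h0
    have h1 : (univ k (n + 2)).x i (i + 2) ∣ (univ k (n + 2)).x a b := by
      obtain ⟨w, hw⟩ := h0
      refine ⟨ψ.symm (w * algebraMap k _ ci⁻¹), ?_⟩
      apply ψ.injective
      rw [map_mul, AlgEquiv.apply_symm_apply, hi, hw]
      have h5 : algebraMap k (A k (n + 2)) ci * algebraMap k (A k (n + 2)) ci⁻¹ = 1 := by
        rw [← map_mul, mul_inv_cancel₀ hci, map_one]
      linear_combination (-((univ k (n + 2)).x p (p + 2) * w)) * h5
    rcases not_short_dvd (n + 2) h3 i a b hab h1 with ⟨h2, _⟩ | ⟨h2, _⟩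
    · exact Or.inl h2
    · exact Or.inr h2
  -- the degree of G.x j (j+2)
  have hdj : (G.x j (j + 2)).natDegree = 1 := by
    rw [hGx, hj, map_mul, AlgHom.commutes,
      IsScalarTower.algebraMap_apply k (A k n) (A k n)[X], ← C_eq_algebraMap,
      natDegree_C_mul, hdeg]
    exact (map_ne_zero_iff _ (algebraMap k (A k n)).injective).2 hcj
  have hGi : G.x i (i + 2) = 0 := by
    rw [hGx, hi, map_mul, (hker _).2 (dvd_refl _), mul_zero]
  have hji : j ≠ i := by
    intro h
    rw [h, hGi, natDegree_zero] at hdj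
    exact zero_ne_one hdj
  by_contra hcon
  rw [not_or] at hcon
  obtain ⟨hc1, hc2⟩ := hcon
  by_cases hji2 : j = i + 2
  · -- row at j + 1
    have r := row (N := n + 2 + 2) (by omega) G (j + 1)
      (fun m hm h0 => by
        rcases hzero (j + 1) m (Ne.symm hm) h0 with h1 | h1
        · apply n3
          linear_combination h1 - hji2
        · apply n1
          linear_combination h1 - hji2)
      (fun m hm h0 => by
        rcases hzero (j + 1 + 1) m (Ne.symm hm) h0 with h1 | h1
        · apply n4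
          linear_combination h1 - hji2
        · apply n2
          linear_combination h1 - hji2)
    have r2 := r.2
    have e1 : j + 1 - 1 = j := by ring
    have e2 : j + 1 + 1 = j + 2 := by ring
    rw [e1, e2, hdj] at r2
    exact one_ne_zero r2
  · have r := row (N := n + 2 + 2) (by omega) G j
      (fun m hm h0 => by
        rcases hzero j m (Ne.symm hm) h0 with h1 | h1
        · exact hji h1
        · exact hji2 h1)
      (fun m hm h0 => by
        rcases hzero (j + 1) m (Ne.symm hm) h0 with h1 | h1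
        · apply hc2
          linear_combination h1
        · apply hc1
          linear_combination h1)
    have r1 := r.1
    rw [hdj] at r1
    exact one_ne_zero r1

/-- Every automorphism is dihedral.  `σ` as in `ring_card` is injective, hence bijective (`Finite.injective_iff_bijective`).
Let `τ` be its inverse: by `adj` with `i = τ m`, `j = τ (m-1)`, `p = m`: `τ (m-1) = τ m ± 1`; `dihedral_of_adj` for `τ`; so
`σ i = i + c0` for all `i` or `σ i = c0 - i` for all `i`.  In the first case `ρ = rotA (-c0) ∘ ψ` multiplies each `s i`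
by `c i`, so all `c i = 1` (`scale_one`) and `ψ = rotA c0` on generators (`A_hom_ext`, `univ_short`), hence everywhere.
In the second case use `reflA (c0 + 2)`, which sends `s (c0 - i)` to `s i`: `ψ = reflA (c0+2)`. -/
theorem ring_dihedral [CharZero k] {l : ℕ} (ho : Odd l) (h3 : 3 ≤ l) (ψ : A k l ≃ₐ[k] A k l) :
    ∃ c : ZMod (l + 2), (∀ i j, ψ ((univ k l).x i j) = (univ k l).x (i + c) (j + c)) ∨
      (∀ i j, ψ ((univ k l).x i j) = (univ k l).x (c - j) (c - i)) := by
  have h := short_to_short ho h3 ho h3 ψ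
  choose σ c hc h using h
  have hinj := Dihed_inj h3 ψ σ c hc h
  have hbij : Function.Bijective σ := Finite.injective_iff_bijective.1 hinj
  obtain ⟨τ, hτ1, hτ2⟩ := Function.bijective_iff_has_inverse.1 hbij
  have hτinj : Function.Injective τ := hτ2.injective
  have hadj : ∀ i, τ (i + 1) = τ i + 1 ∨ τ (i + 1) = τ i - 1 := by
    intro i
    have a1 := h (τ (i + 1))
    have a2 := h (τ i)
    rw [hτ2] at a1 a2
    have a3 : ψ ((univ k l).x (τ i) (τ i + 2)) = algebraMap k _ (c (τ i)) *
        (univ k l).x (i + 1 - 1) (i + 1 + 1) := by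
      have e1 : i + 1 - 1 = i := by ring
      have e2 : i + 1 + 1 = i + 2 := by ring
      rw [e1, e2]
      exact a2
    rcases adj ho h3 ψ (hc _) (hc _) a1 a3 with b | b
    · right
      rw [b]
      ring
    · left
      rw [b]
      ring
  rcases dihedral_of_adj (by omega) τ hτinj hadj with hd | hd
  · -- rotation
    have hσ : ∀ j, σ j = j + (-τ 0) := by
      intro j
      have a1 := hτ1 j
      rw [hd] at a1
      linear_combination a1
    have hone : ∀ i, c i = 1 := by
      intro i
      refine scale_one ho (((rotA k l (-(-τ 0)) : A k l →ₐ[k] A k l)).comp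
        (ψ : A k l →ₐ[k] A k l)) c (fun i => ?_) i
      show rotA k l (-(-τ 0)) (ψ ((univ k l).x i (i + 2))) = _
      rw [h i, map_mul, AlgEquiv.commutes, rotA_univ, hσ i]
      congr 2 <;> ring
    refine ⟨-τ 0, Or.inl fun i j => ?_⟩
    have heq : (ψ : A k l →ₐ[k] A k l) = (rotA k l (-τ 0) : A k l →ₐ[k] A k l) := by
      apply A_hom_ext
      intro j hj
      show ψ (gen k l j) = rotA k l (-τ 0) (gen k l j)
      rw [← univ_short k l j hj, h, hone, map_one, one_mul, rotA_univ, hσ]
      congr 1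
      ring
    have := congrArg (fun f : A k l →ₐ[k] A k l => f ((univ k l).x i j)) heq
    have h2 : ψ ((univ k l).x i j) = rotA k l (-τ 0) ((univ k l).x i j) := this
    rw [h2, rotA_univ]
  · -- reflection
    have hσ : ∀ j, σ j = τ 0 - j := by
      intro j
      have a1 := hτ1 j
      rw [hd] at a1
      linear_combination -a1
    have hone : ∀ i, c i = 1 := by
      intro i
      refine scale_one ho (((reflA k l (τ 0 + 2) : A k l →ₐ[k] A k l)).comp
        (ψ : A k l →ₐ[k] A k l)) c (fun i => ?_) i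
      show reflA k l (τ 0 + 2) (ψ ((univ k l).x i (i + 2))) = _
      rw [h i, map_mul, AlgEquiv.commutes, reflA_univ, hσ i]
      congr 2 <;> ring
    refine ⟨τ 0 + 2, Or.inr fun i j => ?_⟩
    have heq : (ψ : A k l →ₐ[k] A k l) = (reflA k l (τ 0 + 2) : A k l →ₐ[k] A k l) := by
      apply A_hom_ext
      intro j hj
      show ψ (gen k l j) = reflA k l (τ 0 + 2) (gen k l j)
      rw [← univ_short k l j hj, h, hone, map_one, one_mul, reflA_univ, hσ]
      congr 1 <;> ring
    have := congrArg (fun f : A k l →ₐ[k] A k l => f ((univ k l).x i j)) heq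
    have h2 : ψ ((univ k l).x i j) = reflA k l (τ 0 + 2) ((univ k l).x i j) := this
    rw [h2, reflA_univ]

/-- The same with possibly different `l`, `l'`, and indices written as integers. -/
theorem ring_main [CharZero k] {l l' : ℕ} (ho : Odd l) (h3 : 3 ≤ l) (ho' : Odd l') (h3' : 3 ≤ l')
    (ψ : A k l' ≃ₐ[k] A k l) : l' = l ∧ ∃ c : ℤ,
      (∀ i j : ℤ, ψ ((univ k l').x (i : ZMod (l' + 2)) (j : ZMod (l' + 2)))
        = (univ k l).x ((i + c : ℤ) : ZMod (l + 2)) ((j + c : ℤ) : ZMod (l + 2))) ∨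
      (∀ i j : ℤ, ψ ((univ k l').x (i : ZMod (l' + 2)) (j : ZMod (l' + 2)))
        = (univ k l).x ((c - j : ℤ) : ZMod (l + 2)) ((c - i : ℤ) : ZMod (l + 2))) := by
  have hl := ring_card ho h3 ho' h3' ψ
  refine ⟨hl, ?_⟩
  subst hl
  obtain ⟨c, hc⟩ := ring_dihedral ho h3 ψ
  obtain ⟨c, rfl⟩ := ZMod.intCast_surjective c
  refine ⟨c, ?_⟩
  rcases hc with hc | hc
  · left
    intro i j
    rw [hc]
    push_cast
    rfl
  · right
    intro i j
    rw [hc]
    push_cast
    rfl

end Pool.Agent.Lib.MP_d4c67c_gt
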