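import Pool.Agent.Lib.MP_d4c67c_gt.Fr

/-!
# JOB HH: `A k (n+2) / (x (n+1) (n+3)) ≅ (A k n)[X]` for odd `n`
-/

namespace Pool.Agent.Lib.MP_d4c67c_gt

open Polynomial

variable {k : Type*} [Field k]

/-- the sequence `-gen 0, …, -gen (n-1), X, 0` -/
noncomputable def hseq (k : Type*) [Field k] (n : ℕ) : ℕ → (A k n)[X] :=
  fun j => if j < n then - C (gen k n j) else if j = n then X else 0

/-- `(Ws h (n+3)).2 = h (n+1) * _ - (Ws h (n+1)).2 = - (Ws h (n+1)).2`; by `Ws_congr` replace `h` by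
`- C (gen _)`, then `Ws_neg`, `Ws_map`, `gen_closed`: `(Ws h (n+1)).2 = (-1)^(n+2) * C (-1) = 1`. -/
theorem hseq_closed (n : ℕ) (hn : Odd n) : (Ws (hseq k n) (n + 2 + 1)).2 = -1 := by
  have h1 : (Ws (hseq k n) (n + 2 + 1)).2 =
      hseq k n (n + 1) * (Ws (hseq k n) (n + 1 + 1)).2 - (Ws (hseq k n) (n + 1)).2 := rfl
  have h2 : hseq k n (n + 1) = 0 := by
    unfold hseq
    rw [if_neg (by omega), if_neg (by omega)]
  have h3 : Ws (hseq k n) (n + 1) =
      Ws (fun i => - (fun j => (C : A k n →+* (A k n)[X]) (gen k n j)) i) (n + 1) := by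
    apply Ws_congr
    intro i hi
    unfold hseq
    rw [if_pos (by omega)]
  have h4 : Ws (fun j => (C : A k n →+* (A k n)[X]) (gen k n j)) (n + 1) =
      (C (Ws (gen k n) (n + 1)).1, C (Ws (gen k n) (n + 1)).2) := Ws_map C (gen k n) (n + 1)
  have h5 : (-1 : (A k n)[X]) ^ (n + 1 + 1) = -1 := by
    have h6 : Odd (n + 1 + 1) := by
      obtain ⟨r, hr⟩ := hn
      exact ⟨r + 1, by omega⟩
    exact h6.neg_one_pow
  rw [h1, h2, h3, Ws_neg, h4, gen_closed, zero_mul, h5, C_neg, C_1]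
  ring

/-- the homomorphism `A k (n+2) → (A k n)[X]`, `gen j ↦ -gen j` (`j < n`), `gen n ↦ X`, `gen (n+1) ↦ 0` -/
noncomputable def hh (k : Type*) [Field k] (n : ℕ) (hn : Odd n) : A k (n + 2) →ₐ[k] (A k n)[X] :=
  lift (ofSeq (n + 2) (hseq k n) (hseq_closed n hn))

theorem hh_gen (n : ℕ) (hn : Odd n) (j : ℕ) (hj : j < n + 2) :
    hh k n hn (gen k (n + 2) j) = hseq k n j := by
  unfold hh
  rw [lift_gen _ j hj]
  exact ofSeq_short (n + 2) (hseq k n) (hseq_closed n hn) j hj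

/-- surjective: the range contains `C (algebraMap c)`, `C (gen j)` and `X` (use `A_induction` for the
coefficients and `Polynomial.induction_on`) -/
theorem hh_surj (n : ℕ) (hn : Odd n) : Function.Surjective (hh k n hn) := by
  have hX : hh k n hn (gen k (n + 2) n) = X := by
    rw [hh_gen n hn n (by omega)]
    unfold hseq
    rw [if_neg (by omega), if_pos rfl]
  have hg : ∀ j, j < n → hh k n hn (- gen k (n + 2) j) = C (gen k n j) := by
    intro j hj
    rw [map_neg, hh_gen n hn j (by omega)]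
    unfold hseq
    rw [if_pos hj, neg_neg]
  have hCc : ∀ a : A k n, ∃ b, hh k n hn b = C a := by
    intro a
    refine A_induction (P := fun a : A k n => ∃ b, hh k n hn b = C a) ?_ ?_ ?_ a
    · intro c
      refine ⟨algebraMap k _ c, ?_⟩
      rw [AlgHom.commutes]
      rfl
    · rintro a b ⟨x, hx⟩ ⟨y, hy⟩
      exact ⟨x + y, by rw [map_add, hx, hy, C_add]⟩
    · rintro a j hj ⟨x, hx⟩
      exact ⟨x * (- gen k (n + 2) j), by rw [map_mul, hx, hg j hj, C_mul]⟩
  intro p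
  induction p using Polynomial.induction_on with
  | C a => exact hCc a
  | add p q hp hq =>
    obtain ⟨x, hx⟩ := hp
    obtain ⟨y, hy⟩ := hq
    exact ⟨x + y, by rw [map_add, hx, hy]⟩
  | monomial m a _ =>
    obtain ⟨x, hx⟩ := hCc a
    exact ⟨x * gen k (n + 2) n ^ (m + 1), by rw [map_mul, map_pow, hx, hX]⟩

private theorem HH_factor (n : ℕ) (hn : Odd n) {Q : Type*} [CommRing Q] [Algebra k Q]
    (q : A k (n + 2) →ₐ[k] Q) (hq0 : q (gen k (n + 2) (n + 1)) = 0) :
    ∃ g : (A k n)[X] →ₐ[k] Q, g.comp (hh k n hn) = q := by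
  have hcl : (Ws (fun j => - (fun i => (q : A k (n + 2) →+* Q) (gen k (n + 2) i)) j)
      (n + 1)).2 = -1 := by
    have h1 := gen_closed k (n + 2)
    have h2 : (Ws (gen k (n + 2)) (n + 2 + 1)).2 =
        gen k (n + 2) (n + 1) * (Ws (gen k (n + 2)) (n + 1 + 1)).2 -
          (Ws (gen k (n + 2)) (n + 1)).2 := rfl
    rw [h2] at h1
    have h3 := congrArg q h1
    rw [map_sub, map_mul, hq0, zero_mul, zero_sub, map_neg, map_one] at h3
    have h4 := neg_injective h3
    have h5 : (Ws (fun i => (q : A k (n + 2) →+* Q) (gen k (n + 2) i))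
        (n + 1)).2 = q ((Ws (gen k (n + 2)) (n + 1)).2) :=
      congrArg Prod.snd (Ws_map (q : A k (n + 2) →+* Q) (gen k (n + 2)) (n + 1))
    have h6 : (-1 : Q) ^ (n + 1 + 1) = -1 := by
      have h7 : Odd (n + 1 + 1) := by
        obtain ⟨r, hr⟩ := hn
        exact ⟨r + 1, by omega⟩
      exact h7.neg_one_pow
    rw [Ws_neg, h6]
    show -1 * (Ws (fun i => (q : A k (n + 2) →+* Q) (gen k (n + 2) i)) (n + 1)).2 = -1
    rw [h5, h4, mul_one]
  let G : Fr (n + 2) Q := ofSeq n _ hcl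
  let lG : A k n →ₐ[k] Q := lift G
  let g : (A k n)[X] →ₐ[k] Q :=
    { Polynomial.eval₂RingHom (lG : A k n →+* Q) (q (gen k (n + 2) n)) with
      commutes' := by
        intro c
        show Polynomial.eval₂ (lG : A k n →+* Q) (q (gen k (n + 2) n))
          (C (algebraMap k (A k n) c)) = _
        rw [Polynomial.eval₂_C]
        exact lG.commutes c }
  have hgC : ∀ b : A k n, g (C b) = lG b := fun b => Polynomial.eval₂_C _ _
  have hgX : g X = q (gen k (n + 2) n) := Polynomial.eval₂_X _ _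
  refine ⟨g, ?_⟩
  apply A_hom_ext
  intro j hj
  rw [AlgHom.comp_apply, hh_gen n hn j hj]
  unfold hseq
  by_cases h1 : j < n
  · rw [if_pos h1, map_neg, hgC]
    show - lift G (gen k n j) = _
    rw [lift_gen G j h1]
    have h2 : G.x (j : ZMod (n + 2)) ((j : ZMod (n + 2)) + 2) = - q (gen k (n + 2) j) :=
      ofSeq_short n _ hcl j h1
    rw [h2, neg_neg]
  · by_cases h2 : j = n
    · rw [if_neg h1, if_pos h2, hgX, h2]
    · have h3 : j = n + 1 := by omega
      rw [if_neg h1, if_neg h2, map_zero, h3, hq0]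

/-- The kernel is generated by `gen (n+1)`.  Let `Q = A k (n+2) ⧸ span {gen (n+1)}`, `g : (A k n)[X] →+* Q`
the homomorphism with `gen j ↦ -gen j`, `X ↦ gen n`: it is `Polynomial.eval₂RingHom (lift G) (gen n)` where
`G : Fr (n+2) Q` is `ofSeq n (fun j => - mk (gen j)) _`; its closing condition `(Ws _ (n+1)).2 = -1` follows
from `gen_closed` for `n+2` modulo `gen (n+1)`:
`-1 = (Ws gen (n+3)).2 = gen (n+1) * _ - (Ws gen (n+1)).2`, so `(Ws (mk gen) (n+1)).2 = 1` in `Q`, and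
`Ws_neg` (`n` odd).  Then `g ∘ hh = mk` on generators, hence everywhere (`A_hom_ext`); so `hh a = 0` implies
`mk a = 0`, that is, `gen (n+1) ∣ a`. -/
theorem hh_ker (n : ℕ) (hn : Odd n) (a : A k (n + 2)) (ha : hh k n hn a = 0) :
    gen k (n + 2) (n + 1) ∣ a := by
  have hmem0 : gen k (n + 2) (n + 1) ∈ Ideal.span {gen k (n + 2) (n + 1)} :=
    Ideal.mem_span_singleton_self _
  obtain ⟨g, hg⟩ := HH_factor (k := k) (Q := A k (n + 2) ⧸ Ideal.span {gen k (n + 2) (n + 1)}) n hn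
    (Ideal.Quotient.mkₐ k (Ideal.span {gen k (n + 2) (n + 1)}))
    (Ideal.Quotient.eq_zero_iff_mem.mpr hmem0)
  have h1 := DFunLike.congr_fun hg a
  rw [AlgHom.comp_apply, ha, map_zero] at h1
  exact Ideal.mem_span_singleton.mp (Ideal.Quotient.eq_zero_iff_mem.mp h1.symm)

end Pool.Agent.Lib.MP_d4c67c_gt
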