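import Pool.Agent.Lib.MP_d4c67c_gt.Fr

/-!
# JOB Pts: special friezes over the base field
-/

namespace Pool.Agent.Lib.MP_d4c67c_gt

variable {k : Type*} [Field k]

/-- the frieze of a polygon given by a sequence of vectors -/
private theorem Pts_mk {R : Type*} [CommRing R] (l : ℕ) (W : ℕ → R × R)
    (h : ∀ i, i < l + 1 → dt (W i) (W (i + 1)) = 1) (h' : dt (W (l + 1)) (W 0) = 1) :
    ∃ F : Fr (l + 2) R, ∀ i j : ZMod (l + 2), F.x i j = dt (W i.val) (W j.val) := by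
  refine ⟨Fr.ofPoly (fun i => W i.val) ?_, fun i j => rfl⟩
  intro i
  have hv := ZMod.val_lt i
  by_cases hi : i.val + 1 < l + 2
  · have h1 : (i + 1).val = i.val + 1 := by
      rw [ZMod.val_add_of_lt]
      · rw [ZMod.val_one'' (by omega)]
      · rw [ZMod.val_one'' (by omega)]; exact hi
    simp only [h1]
    exact h _ (by omega)
  · have h1 : i.val = l + 1 := by omega
    have h2 : (i + 1).val = 0 := by
      rw [ZMod.val_eq_zero]
      have h3 : i = ((l + 1 : ℕ) : ZMod (l + 2)) := by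
        rw [← h1, ZMod.natCast_zmod_val]
      rw [h3]
      have h4 := ZMod.natCast_self (l + 2)
      push_cast at h4 ⊢
      linear_combination h4
    simp only [h2, h1]
    exact h'

/-- the polygon for `pt_short` -/
private def Pts_W (k : Type*) [Field k] : ℕ → k × k
  | 0 => (1, 0)
  | 1 => (1, 1)
  | 2 => (-1, 0)
  | (n + 3) => ((n : k), -1)

private theorem Pts_W_zero [CharZero k] (i j : ℕ) (hij : i ≠ j) (h : dt (Pts_W k i) (Pts_W k j) = 0) :
    (i = 0 ∧ j = 2) ∨ (i = 2 ∧ j = 0) := by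
  have hpos : ∀ n : ℕ, (n : k) + 1 ≠ 0 := fun n => Nat.cast_add_one_ne_zero n
  match i, j, hij, h with
  | 0, 0, hij, _ => exact absurd rfl hij
  | 0, 1, _, h => simp [dt, Pts_W] at h
  | 0, 2, _, _ => exact Or.inl ⟨rfl, rfl⟩
  | 0, (n + 3), _, h => simp [dt, Pts_W] at h
  | 1, 0, _, h => simp [dt, Pts_W] at h
  | 1, 1, hij, _ => exact absurd rfl hij
  | 1, 2, _, h => simp [dt, Pts_W] at h
  | 1, (n + 3), _, h =>
    exfalso
    simp only [dt, Pts_W] at h
    exact hpos n (by linear_combination -h)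
  | 2, 0, _, _ => exact Or.inr ⟨rfl, rfl⟩
  | 2, 1, _, h => simp [dt, Pts_W] at h
  | 2, 2, hij, _ => exact absurd rfl hij
  | 2, (n + 3), _, h => simp [dt, Pts_W] at h
  | (n + 3), 0, _, h => simp [dt, Pts_W] at h
  | (n + 3), 1, _, h =>
    exfalso
    simp only [dt, Pts_W] at h
    exact hpos n (by linear_combination h)
  | (n + 3), 2, _, h => simp [dt, Pts_W] at h
  | (n + 3), (m + 3), hij, h =>
    exfalso
    simp only [dt, Pts_W] at h
    have h1 : (n : k) = (m : k) := by linear_combination -h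
    have h2 : n = m := Nat.cast_injective h1
    exact hij (by rw [h2])

/-- A frieze in which exactly one diagonal `{c, c+2}` vanishes (`char k = 0`).
By rotation (`Fr.rot (-c)`) it is enough to treat `c = 0`.  Polygon (`Fr.ofPoly`), `N = l + 2 ≥ 5`:
`W 0 = (1,0)`, `W 1 = (1,1)`, `W 2 = (-1,0)`, `W i = (i-3, -1)` for `3 ≤ i ≤ N-1` (use `i.val`).
Determinants (`dt v w = v.1 * w.2 - v.2 * w.1`): `dt (W 0) (W 1) = 1`, `dt (W 1) (W 2) = 1`,
`dt (W 2) (W 3) = (-1)(-1) - 0 = 1`, `dt (W i) (W (i+1)) = -(i-3) + (i-2) = 1`,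
`dt (W (N-1)) (W 0) = 0 + 1 = 1`.  `dt (W 0) (W 2) = 0`.  All others are not zero: `dt (W 0) (W i) = -1`,
`dt (W 2) (W i) = 1`, `dt (W 1) (W i) = -1 - (i-3) = 2 - i`, `dt (W i) (W j) = j - i`. -/
theorem pt_short [CharZero k] (l : ℕ) (hl : 3 ≤ l) (c : ZMod (l + 2)) :
    ∃ F : Fr (l + 2) k, F.x c (c + 2) = 0 ∧
      ∀ i j, i ≠ j → F.x i j = 0 → (i = c ∧ j = c + 2) ∨ (i = c + 2 ∧ j = c) := by
  obtain ⟨F, hF⟩ := Pts_mk (R := k) l (Pts_W k) (by
    intro i _
    match i with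
    | 0 => simp [dt, Pts_W]
    | 1 => simp [dt, Pts_W]
    | 2 => simp [dt, Pts_W]
    | (n + 3) =>
      show dt (Pts_W k (n + 3)) (Pts_W k (n + 1 + 3)) = 1
      simp only [dt, Pts_W]
      push_cast
      ring) (by
    obtain ⟨m, rfl⟩ : ∃ m, l = m + 2 := ⟨l - 2, by omega⟩
    show dt (Pts_W k (m + 3)) (Pts_W k 0) = 1
    simp [dt, Pts_W])
  have hval0 : (0 : ZMod (l + 2)).val = 0 := ZMod.val_zero
  have hval2 : (2 : ZMod (l + 2)).val = 2 := by
    have h1 : (2 : ZMod (l + 2)) = ((2 : ℕ) : ZMod (l + 2)) := by push_cast; rfl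
    rw [h1]
    exact ZMod.val_natCast_of_lt (by omega)
  have hrot : ∀ i j, (F.rot (-c)).x i j = dt (Pts_W k (i + -c).val) (Pts_W k (j + -c).val) :=
    fun i j => hF _ _
  refine ⟨F.rot (-c), ?_, ?_⟩
  · rw [hrot]
    have e1 : c + -c = 0 := by ring
    have e2 : c + 2 + -c = 2 := by ring
    rw [e1, e2, hval0, hval2]
    simp [dt, Pts_W]
  · intro i j hij h
    rw [hrot] at h
    have hne : (i + -c).val ≠ (j + -c).val := by
      intro he
      have h1 := ZMod.val_injective (l + 2) he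
      exact hij (add_right_cancel h1)
    rcases Pts_W_zero _ _ hne h with ⟨h1, h2⟩ | ⟨h1, h2⟩
    · left
      have e1 : i + -c = 0 := ZMod.val_injective (l + 2) (by rw [h1, hval0])
      have e2 : j + -c = 2 := ZMod.val_injective (l + 2) (by rw [h2, hval2])
      exact ⟨by linear_combination e1, by linear_combination e2⟩
    · right
      have e1 : i + -c = 2 := ZMod.val_injective (l + 2) (by rw [h1, hval2])
      have e2 : j + -c = 0 := ZMod.val_injective (l + 2) (by rw [h2, hval0])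
      exact ⟨by linear_combination e1, by linear_combination e2⟩

/-- the polygon for `pt_long` -/
private noncomputable def Pts_V (j : ℕ) (z : k) (n : ℕ) : k × k :=
  if n = 0 then (1, 0)
  else if n + 2 ≤ j then (1 - (n : k), 1)
  else if n + 1 = j then (z * (3 - (j : k)) - 1, z)
  else if n = j then (-z⁻¹, 0)
  else if n = j + 1 then (0, -z)
  else (z⁻¹ + ((n : k) - (j : k) - 2), -1)

private theorem Pts_V0 (j : ℕ) (z : k) : Pts_V j z 0 = (1, 0) := by
  unfold Pts_V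
  rw [if_pos rfl]

private theorem Pts_V1 (j : ℕ) (z : k) (n : ℕ) (h0 : n ≠ 0) (h : n + 2 ≤ j) :
    Pts_V j z n = (1 - (n : k), 1) := by
  unfold Pts_V
  rw [if_neg h0, if_pos h]

private theorem Pts_V2 (j : ℕ) (z : k) (n : ℕ) (h0 : n ≠ 0) (h : n + 1 = j) :
    Pts_V j z n = (z * (3 - (j : k)) - 1, z) := by
  unfold Pts_V
  rw [if_neg h0, if_neg (by omega), if_pos h]

private theorem Pts_V3 (j : ℕ) (z : k) (h0 : j ≠ 0) : Pts_V j z j = (-z⁻¹, 0) := by
  unfold Pts_V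
  rw [if_neg h0, if_neg (by omega), if_neg (by omega), if_pos rfl]

private theorem Pts_V4 (j : ℕ) (z : k) : Pts_V j z (j + 1) = (0, -z) := by
  unfold Pts_V
  rw [if_neg (by omega), if_neg (by omega), if_neg (by omega), if_neg (by omega), if_pos rfl]

private theorem Pts_V5 (j : ℕ) (z : k) (n : ℕ) (h : j + 2 ≤ n) :
    Pts_V j z n = (z⁻¹ + ((n : k) - (j : k) - 2), -1) := by
  unfold Pts_V
  rw [if_neg (by omega), if_neg (by omega), if_neg (by omega), if_neg (by omega), if_neg (by omega)]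

/-- Friezes with `x 0 j = 0`, `x 0 (j-1) = z` arbitrary nonzero, `3 ≤ j ≤ N - 3`, `N = l + 2`.
Polygon: `W 0 = (1,0)`, `W j = (-1/z, 0)`, and `W i = r i • (t i, 1)` for the other `0 < i < N`, where
`r i = 1` for `1 ≤ i ≤ j-2`, `r (j-1) = z`, `r (j+1) = -z`, `r i = -1` for `j+2 ≤ i ≤ N-1` (note `1 ≤ j-2` and
`j+2 ≤ N-1`), and `t (i+1) = t i - 1/(r i * r (i+1))` inside each of the two blocks
`1 ≤ i ≤ j-1`, `j+1 ≤ i ≤ N-1` (start with `t 1 = 0`, `t (j+1) = 0`).  Explicitly: `W i = (1 - i, 1)` for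
`1 ≤ i ≤ j-2`; `W (j-1) = (z * (3 - j) - 1, z)`; `W (j+1) = (0, -z)`; for `j+2 ≤ i ≤ N-1`:
`W i = (1/z + (i - j - 2), -1)`.
Determinants: `dt (W 0) (W 1) = 1`; `dt (W i) (W (i+1)) = (1-i) + i = 1`;
`dt (W (j-2)) (W (j-1)) = (3-j) z - (z(3-j) - 1) = 1`; `dt (W (j-1)) (W j) = -z * (-1/z) = 1`;
`dt (W j) (W (j+1)) = (-1/z)(-z) = 1`; `dt (W (j+1)) (W (j+2)) = 0 + z * (1/z) = 1`;
`dt (W i) (W (i+1)) = -(1/z + i-j-2) + (1/z + i-j-1) = 1`; `dt (W (N-1)) (W 0) = 1`.
`x 0 j = dt (W 0) (W j) = 0`, `x 0 (j-1) = z`. -/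
theorem pt_long (l j : ℕ) (hj : 3 ≤ j) (hj' : j + 1 ≤ l) (z : k) (hz : z ≠ 0) :
    ∃ F : Fr (l + 2) k, F.x 0 ((j : ℕ) : ZMod (l + 2)) = 0 ∧
      F.x 0 (((j - 1 : ℕ)) : ZMod (l + 2)) = z := by
  obtain ⟨F, hF⟩ := Pts_mk (R := k) l (Pts_V j z) (by
    intro n _
    rcases Nat.eq_zero_or_pos n with h0 | h0
    · subst h0
      rw [Pts_V0, Pts_V1 j z (0 + 1) (by omega) (by omega)]
      simp [dt]
    · rcases Nat.lt_or_ge (n + 2) j with h1 | h1
      · rw [Pts_V1 j z n (by omega) (by omega), Pts_V1 j z (n + 1) (by omega) (by omega)]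
        simp only [dt]
        push_cast
        ring
      rcases Nat.eq_or_lt_of_le h1 with h2 | h2
      · rw [Pts_V1 j z n (by omega) (by omega), Pts_V2 j z (n + 1) (by omega) (by omega), h2]
        simp only [dt]
        push_cast
        ring
      rcases Nat.lt_trichotomy (n + 1) j with h3 | h3 | h3
      · omega
      · rw [Pts_V2 j z n (by omega) h3, h3, Pts_V3 j z (by omega)]
        simp only [dt]
        field_simp
        ring
      rcases Nat.lt_trichotomy n j with h4 | h4 | h4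
      · omega
      · subst h4
        rw [Pts_V3 n z (by omega), Pts_V4]
        simp only [dt]
        field_simp
        ring
      rcases Nat.eq_or_lt_of_le (Nat.succ_le_of_lt h4) with h5 | h5
      · have h6 : n = j + 1 := by omega
        subst h6
        rw [Pts_V4, Pts_V5 j z (j + 1 + 1) (by omega)]
        simp only [dt]
        push_cast
        have h7 : z⁻¹ + ((j : k) + 1 + 1 - (j : k) - 2) = z⁻¹ := by ring
        rw [h7]
        field_simp
        ring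
      · rw [Pts_V5 j z n (by omega), Pts_V5 j z (n + 1) (by omega)]
        simp only [dt]
        push_cast
        ring) (by
    rw [Pts_V5 j z (l + 1) (by omega), Pts_V0]
    simp [dt])
  have hval0 : (0 : ZMod (l + 2)).val = 0 := ZMod.val_zero
  refine ⟨F, ?_, ?_⟩
  · rw [hF, hval0, ZMod.val_natCast_of_lt (by omega), Pts_V0, Pts_V3 j z (by omega)]
    simp [dt]
  · rw [hF, hval0, ZMod.val_natCast_of_lt (by omega), Pts_V0, Pts_V2 j z (j - 1) (by omega) (by omega)]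
    simp [dt]

/-- `(Ws b n).2` for `b = (s, 0, 0, …)`: for `n = 2 t + 2` it is `(-1)^t * s` -/
theorem Ws_single {R : Type*} [CommRing R] (b : ℕ → R) (t : ℕ) (hb : ∀ i, 1 ≤ i → i ≤ 2 * t → b i = 0) :
    (Ws b (2 * t + 2)).2 = (-1) ^ t * b 0 := by
  induction t with
  | zero => simp [Ws]
  | succ t ih =>
    have h1 := ih (fun i hi hi' => hb i hi (by omega))
    have h2 : b (2 * t + 2) = 0 := hb _ (by omega) (by omega)
    have h3 : (Ws b (2 * (t + 1) + 2)).2 =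
        b (2 * t + 2) * (Ws b (2 * t + 2 + 1)).2 - (Ws b (2 * t + 2)).2 := by
      rw [show 2 * (t + 1) + 2 = 2 * t + 2 + 2 from by ring]
      simp only [Ws]
    rw [h3, h2, h1]
    ring

/-- If all `x (i+n) (i+n+2)`, `1 ≤ n < l`, vanish, then `x i (i+2) = -(-1)^((l-1)/2)`.
Apply `Fr.closed` to `F.rot i` and `Ws_single` with `l = 2 t + 1`. -/
theorem single_val {R : Type*} [CommRing R] (l : ℕ) (hl : Odd l) (F : Fr (l + 2) R) (i : ZMod (l + 2))
    (h : ∀ n : ℕ, 1 ≤ n → n < l → F.x (i + (n : ZMod (l + 2))) (i + (n : ZMod (l + 2)) + 2) = 0) :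
    F.x i (i + 2) = -(-1) ^ ((l - 1) / 2) := by
  obtain ⟨t, rfl⟩ := hl
  have ht : (2 * t + 1 - 1) / 2 = t := by omega
  rw [ht]
  have h1 := (F.rot i).closed
  have h2 := Ws_single (fun j : ℕ => (F.rot i).x (j : ZMod (2 * t + 1 + 2))
    ((j : ZMod (2 * t + 1 + 2)) + 2)) t (by
      intro j hj hj'
      have h3 := h j hj (by omega)
      show F.x ((j : ZMod (2 * t + 1 + 2)) + i) ((j : ZMod (2 * t + 1 + 2)) + 2 + i) = 0
      have e1 : (j : ZMod (2 * t + 1 + 2)) + i = i + (j : ZMod (2 * t + 1 + 2)) := by ring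
      have e2 : (j : ZMod (2 * t + 1 + 2)) + 2 + i = i + (j : ZMod (2 * t + 1 + 2)) + 2 := by ring
      rw [e1, e2]
      exact h3)
  have h3 : (Ws (fun j : ℕ => (F.rot i).x (j : ZMod (2 * t + 1 + 2))
    ((j : ZMod (2 * t + 1 + 2)) + 2)) (2 * t + 1 + 1)).2 = (-1) ^ t *
      (F.rot i).x ((0 : ℕ) : ZMod (2 * t + 1 + 2)) (((0 : ℕ) : ZMod (2 * t + 1 + 2)) + 2) := h2
  rw [h1] at h3
  have h4 : (F.rot i).x ((0 : ℕ) : ZMod (2 * t + 1 + 2)) (((0 : ℕ) : ZMod (2 * t + 1 + 2)) + 2) =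
      F.x i (i + 2) := by
    show F.x (((0 : ℕ) : ZMod (2 * t + 1 + 2)) + i) (((0 : ℕ) : ZMod (2 * t + 1 + 2)) + 2 + i) = _
    have e1 : ((0 : ℕ) : ZMod (2 * t + 1 + 2)) + i = i := by push_cast; ring
    have e2 : ((0 : ℕ) : ZMod (2 * t + 1 + 2)) + 2 + i = i + 2 := by push_cast; ring
    rw [e1, e2]
  rw [h4] at h3
  have h5 : ((-1 : R) ^ t) * ((-1 : R) ^ t) = 1 := by
    rw [← mul_pow]
    norm_num
  calc F.x i (i + 2) = ((-1 : R) ^ t * (-1 : R) ^ t) * F.x i (i + 2) := by rw [h5, one_mul]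
    _ = (-1 : R) ^ t * ((-1 : R) ^ t * F.x i (i + 2)) := by ring
    _ = (-1 : R) ^ t * (-1) := by rw [← h3]
    _ = -(-1) ^ t := by ring

/-- such a frieze exists (`ofSeq` with `b 0 = -(-1)^((l-1)/2)`, `b j = 0` for `j ≥ 1`, then `Fr.rot (-i)`) -/
theorem single_exists (R : Type*) [CommRing R] (l : ℕ) (hl : Odd l) (i : ZMod (l + 2)) :
    ∃ F : Fr (l + 2) R, ∀ n : ℕ, 1 ≤ n → n < l →
      F.x (i + (n : ZMod (l + 2))) (i + (n : ZMod (l + 2)) + 2) = 0 := by
  obtain ⟨t, rfl⟩ := hl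
  set b : ℕ → R := fun j => if j = 0 then -(-1) ^ t else 0 with hb
  have h5 : ((-1 : R) ^ t) * ((-1 : R) ^ t) = 1 := by
    rw [← mul_pow]
    norm_num
  have hcl : (Ws b (2 * t + 1 + 1)).2 = -1 := by
    have h1 := Ws_single b t (by
      intro j hj _
      simp only [hb]
      rw [if_neg (by omega)])
    have h2 : (Ws b (2 * t + 1 + 1)).2 = (-1) ^ t * b 0 := h1
    rw [h2]
    simp only [hb, if_true]
    linear_combination -h5
  refine ⟨(ofSeq (2 * t + 1) b hcl).rot (-i), ?_⟩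
  intro n hn hn'
  show (ofSeq (2 * t + 1) b hcl).x (i + (n : ZMod (2 * t + 1 + 2)) + -i)
    (i + (n : ZMod (2 * t + 1 + 2)) + 2 + -i) = 0
  have e1 : i + (n : ZMod (2 * t + 1 + 2)) + -i = (n : ZMod (2 * t + 1 + 2)) := by ring
  have e2 : i + (n : ZMod (2 * t + 1 + 2)) + 2 + -i = (n : ZMod (2 * t + 1 + 2)) + 2 := by ring
  rw [e1, e2, ofSeq_short _ _ _ _ hn']
  simp only [hb]
  rw [if_neg (by omega)]

end Pool.Agent.Lib.MP_d4c67c_gt
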