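import Pool.Agent.Lib.MP_d4c67c_gt.Ch
import Pool.Agent.Lib.MP_d4c67c_gt.HH
import Pool.Agent.Lib.MP_d4c67c_gt.Pts

/-!
# JOB Div: units and divisors in `A k l`, `l` odd

(You may use everything of `Q.lean`, `Ch.lean`, `HH.lean`, `Pts.lean`, which are other jobs.)
-/

namespace Pool.Agent.Lib.MP_d4c67c_gt

open MvPolynomial

variable {k : Type*} [Field k]

theorem odd_cases {l : ℕ} (ho : Odd l) : l = 1 ∨ 3 ≤ l := by
  obtain ⟨t, rfl⟩ := ho; omega

private theorem Div_nat_ne {N : ℕ} [NeZero N] {a b : ℕ} (ha : a < N) (hb : b < N) (h : a ≠ b) :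
    ((a : ℕ) : ZMod N) ≠ ((b : ℕ) : ZMod N) := by
  intro e
  apply h
  have := congrArg ZMod.val e
  rwa [ZMod.val_natCast_of_lt ha, ZMod.val_natCast_of_lt hb] at this

/-- The entries `x i (i+2)` are prime, `l ≥ 3` odd.  Write `l = n + 2`.  By the automorphism `rotA`
(`rotA_univ`; primality is invariant under ring automorphisms, `MulEquiv.prime_iff`) it is enough for
`x (n+1) (n+3) = gen (n+1)` (`univ_short`).  It is the kernel generator of the surjection `hh` onto a domain
(`A_isDomain` for `n`, polynomial ring): `gen (n+1) ∣ a ↔ hh a = 0` by `hh_ker` and `hh_gen` (`hseq (n+1) = 0`);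
hence prime: it is not zero (there is a frieze over `k` where it does not vanish: e.g. by `pt_short` with
`c = 0`, `(n+1, n+3) ≠ (0,2)`), not a unit (its image under `hh` is `0` in a nontrivial ring), and
`hh (a b) = 0` implies `hh a = 0` or `hh b = 0`. -/
theorem short_prime [CharZero k] (l : ℕ) (ho : Odd l) (h3 : 3 ≤ l) (i : ZMod (l + 2)) :
    Prime ((univ k l).x i (i + 2)) := by
  obtain ⟨n, rfl⟩ : ∃ n, l = n + 2 := ⟨l - 2, by omega⟩
  have hn : Odd n := by
    rcases ho with ⟨t, ht⟩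
    exact ⟨t - 1, by omega⟩
  have hdom : IsDomain (A k n) := A_isDomain n (odd_cases hn)
  have hne : ∀ j : ZMod (n + 2 + 2), (univ k (n + 2)).x j (j + 2) ≠ 0 := by
    intro j h0
    obtain ⟨F, -, hF⟩ := pt_short (k := k) (n + 2) h3 (j + 1)
    have hj : j ≠ j + 2 := by
      intro e
      have e2 : (2 : ZMod (n + 2 + 2)) = 0 := by linear_combination -e
      exact Div_nat_ne (N := n + 2 + 2) (a := 2) (b := 0) (by omega) (by omega) (by omega)
        (by push_cast; exact e2)
    have h1 : F.x j (j + 2) = 0 := by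
      rw [← lift_univ (k := k) F j (j + 2), h0, map_zero]
    rcases hF j (j + 2) hj h1 with ⟨h2, -⟩ | ⟨h2, -⟩
    · have e2 : (1 : ZMod (n + 2 + 2)) = 0 := by linear_combination -h2
      exact Div_nat_ne (N := n + 2 + 2) (a := 1) (b := 0) (by omega) (by omega) (by omega)
        (by push_cast; exact e2)
    · have e2 : (3 : ZMod (n + 2 + 2)) = 0 := by linear_combination -h2
      exact Div_nat_ne (N := n + 2 + 2) (a := 3) (b := 0) (by omega) (by omega) (by omega)
        (by push_cast; exact e2)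
  have hg0 : hh k n hn (gen k (n + 2) (n + 1)) = 0 := by
    rw [hh_gen n hn (n + 1) (by omega), hseq]
    simp
  have hgen : Prime (gen k (n + 2) (n + 1)) := by
    refine ⟨?_, ?_, ?_⟩
    · rw [← univ_short k (n + 2) (n + 1) (by omega)]
      exact hne _
    · intro hu
      have h1 := hu.map (hh k n hn)
      rw [hg0] at h1
      exact not_isUnit_zero h1
    · intro a b hab
      obtain ⟨c, hc⟩ := hab
      have h1 : hh k n hn a * hh k n hn b = 0 := by
        rw [← map_mul, hc, map_mul, hg0, zero_mul]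
      rcases mul_eq_zero.1 h1 with h2 | h2
      · exact Or.inl (hh_ker n hn a h2)
      · exact Or.inr (hh_ker n hn b h2)
  rw [← univ_short k (n + 2) (n + 1) (by omega)] at hgen
  have h5 := (MulEquiv.prime_iff (rotA k (n + 2) (i - ((n + 1 : ℕ) : ZMod (n + 2 + 2)))).toMulEquiv).2
    hgen
  have h6 : (rotA k (n + 2) (i - ((n + 1 : ℕ) : ZMod (n + 2 + 2)))).toMulEquiv
      ((univ k (n + 2)).x ((n + 1 : ℕ) : ZMod (n + 2 + 2))
        (((n + 1 : ℕ) : ZMod (n + 2 + 2)) + 2)) = (univ k (n + 2)).x i (i + 2) := by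
    have h7 := rotA_univ (k := k) (n + 2) (i - ((n + 1 : ℕ) : ZMod (n + 2 + 2)))
      ((n + 1 : ℕ) : ZMod (n + 2 + 2)) (((n + 1 : ℕ) : ZMod (n + 2 + 2)) + 2)
    have e1 : ((n + 1 : ℕ) : ZMod (n + 2 + 2)) + (i - ((n + 1 : ℕ) : ZMod (n + 2 + 2))) = i := by
      ring
    have e2 : (((n + 1 : ℕ) : ZMod (n + 2 + 2)) + 2) + (i - ((n + 1 : ℕ) : ZMod (n + 2 + 2))) =
        i + 2 := by
      ring
    rw [e1, e2] at h7
    exact h7
  rw [h6] at h5
  exact h5

/-- all entries `x i j`, `i ≠ j`, are not zero (`l ≥ 3`): use `pt_short` with some `c` such that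
`{i,j} ≠ {c, c+2}`, and `lift_univ` -/
theorem univ_ne_zero [CharZero k] (l : ℕ) (h3 : 3 ≤ l) (i j : ZMod (l + 2)) (hij : i ≠ j) :
    (univ k l).x i j ≠ 0 := by
  intro h0
  have : NeZero (l + 2) := ⟨by omega⟩
  obtain ⟨F, -, hF⟩ := pt_short (k := k) l h3 (i + 1)
  have h1 : F.x i j = 0 := by
    rw [← lift_univ (k := k) F i j, h0, map_zero]
  rcases hF i j hij h1 with ⟨h2, -⟩ | ⟨h2, -⟩
  · have e2 : (1 : ZMod (l + 2)) = 0 := by linear_combination -h2
    exact Div_nat_ne (N := l + 2) (a := 1) (b := 0) (by omega) (by omega) (by omega)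
      (by push_cast; exact e2)
  · have e2 : (3 : ZMod (l + 2)) = 0 := by linear_combination -h2
    exact Div_nat_ne (N := l + 2) (a := 3) (b := 0) (by omega) (by omega) (by omega)
      (by push_cast; exact e2)

/-- `x c (c+2)` does not divide `x i j` unless `{i,j} = {c,c+2}`: evaluate at the point of `pt_short` -/
theorem not_short_dvd [CharZero k] (l : ℕ) (h3 : 3 ≤ l) (c i j : ZMod (l + 2)) (hij : i ≠ j)
    (h : (univ k l).x c (c + 2) ∣ (univ k l).x i j) : (i = c ∧ j = c + 2) ∨ (i = c + 2 ∧ j = c) := by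
  obtain ⟨F, hF0, hF⟩ := pt_short (k := k) l h3 c
  obtain ⟨y, hy⟩ := h
  refine hF i j hij ?_
  rw [← lift_univ (k := k) F i j, hy, map_mul, lift_univ, hF0, zero_mul]

/-- Factorisation in a domain: `u` prime, `x = 1` or prime, `F * G = u ^ M * x`.  Induction on `M`:
`M = 0`: `F ∣ x`, so `F` is a unit or associated to `x`.  `M + 1`: `u ∣ F` or `u ∣ G`; cancel. -/
theorem factor_aux {B : Type*} [CommRing B] [IsDomain B] {u x : B} (hu : Prime u)
    (hx : x = 1 ∨ Prime x) (M : ℕ) (F G : B) (h : F * G = u ^ M * x) :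
    ∃ (e : ℕ) (w : Bˣ), F = w * u ^ e ∨ F = w * u ^ e * x := by
  induction M generalizing F G with
  | zero =>
    rw [pow_zero, one_mul] at h
    rcases hx with hx | hx
    · rw [hx] at h
      have hF : IsUnit F := IsUnit.of_mul_eq_one G h
      obtain ⟨w, hw⟩ := hF
      exact ⟨0, w, Or.inl (by rw [pow_zero, mul_one, hw])⟩
    · have hd : x ∣ F * G := ⟨1, by rw [h, mul_one]⟩
      rcases hx.dvd_or_dvd hd with ⟨c, hc⟩ | ⟨c, hc⟩
      · have h1 : x * (c * G) = x * 1 := by
          rw [mul_one, ← mul_assoc, ← hc, h]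
        have h2 : c * G = 1 := mul_left_cancel₀ hx.ne_zero h1
        have hcu : IsUnit c := IsUnit.of_mul_eq_one G h2
        obtain ⟨w, hw⟩ := hcu
        exact ⟨0, w, Or.inr (by rw [pow_zero, mul_one, hw, hc, mul_comm])⟩
      · have h1 : x * (F * c) = x * 1 := by
          rw [mul_one]
          conv_rhs => rw [← h, hc]
          ring
        have h2 : F * c = 1 := mul_left_cancel₀ hx.ne_zero h1
        have hFu : IsUnit F := IsUnit.of_mul_eq_one c h2
        obtain ⟨w, hw⟩ := hFu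
        exact ⟨0, w, Or.inl (by rw [pow_zero, mul_one, hw])⟩
  | succ M ih =>
    have hd : u ∣ F * G := ⟨u ^ M * x, by rw [h, pow_succ]; ring⟩
    rcases hu.dvd_or_dvd hd with ⟨c, hc⟩ | ⟨c, hc⟩
    · have h1 : u * (c * G) = u * (u ^ M * x) := by
        rw [← mul_assoc, ← hc, h, pow_succ]
        ring
      have h2 : c * G = u ^ M * x := mul_left_cancel₀ hu.ne_zero h1
      obtain ⟨e, w, hw⟩ := ih c G h2
      refine ⟨e + 1, w, ?_⟩
      rcases hw with hw | hw
      · left
        rw [hc, hw, pow_succ]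
        ring
      · right
        rw [hc, hw, pow_succ]
        ring
    · have h1 : u * (F * c) = u * (u ^ M * x) := by
        have h3 : F * (u * c) = u ^ (M + 1) * x := by rw [← hc, h]
        rw [pow_succ] at h3
        linear_combination h3
      have h2 : F * c = u ^ M * x := mul_left_cancel₀ hu.ne_zero h1
      exact ih F c h2

private theorem Div_U_prime [CharZero k] (m : ℕ) (ho : Odd (m + 1)) (h3 : 3 ≤ m + 1) :
    Prime ((univ k (m + 1)).x 0 (((m + 1 : ℕ)) : ZMod (m + 1 + 2))) := by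
  have h0 : (((m + 1 : ℕ)) : ZMod (m + 1 + 2)) + 2 = 0 := by
    have := ZMod.natCast_self (m + 1 + 2)
    push_cast at this ⊢
    linear_combination this
  have h1 := short_prime (k := k) (m + 1) ho h3 (((m + 1 : ℕ)) : ZMod (m + 1 + 2))
  rw [h0, (univ k (m + 1)).anti 0 (((m + 1 : ℕ)) : ZMod (m + 1 + 2))] at h1
  exact (Associated.prime_iff (Associated.neg_left (Associated.refl _))).1 h1

/-- Main divisor lemma.  `l = m + 1 ≥ 3` odd.  Let `U = x 0 (m+1) = ch (q (m+1))` (`ch_q`; it is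
`- x (m+1) (m+1+2)`, because `m + 1 + 2 = 0` in `ZMod (m+1+2)`, so it is prime by `short_prime`), and let
`X = ch y` with `y = 1` or `y` prime in `MvPolynomial (Fin m) k`, and assume `¬ U ∣ X`.  Then every
divisor `f` of `X` is a nonzero constant or a nonzero constant times `X`.
Proof: `f * g = X`.  By `clear`: `U ^ s * f = ch F`, `U ^ r * g = ch G`.  Then
`ch (F * G) = ch (q (m+1) ^ (s+r) * y)`, so `F * G = q (m+1) ^ (s+r) * y` (`ch_inj`).  `q (m+1)` is prime in
the polynomial ring (`q_irred`, UFD).  By `factor_aux`, `F = w * q (m+1) ^ e` or `w * q (m+1) ^ e * y` with `w` a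
unit, that is, a nonzero constant (`MvPolynomial.isUnit_iff_eq_C_of_isReduced` or similar).  So in the domain
`A`: `U ^ s * f = c * U ^ e * X'` with `X' = 1` or `X`.  If `e < s` cancel: `U ^ (s-e) * f = c * X'`, so
`U ∣ X'`, impossible (`U` is not a unit and `¬ U ∣ X`).  If `e > s`: `f = c * U ^ (e-s) * X'`, so
`U ∣ f ∣ X`, impossible.  So `e = s` and `f = c * X'`. -/
theorem divisor_aux [CharZero k] (m : ℕ) (ho : Odd (m + 1)) (h3 : 3 ≤ m + 1)
    (y : MvPolynomial (Fin m) k) (hy : y = 1 ∨ Prime y)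
    (hU : ¬ (univ k (m + 1)).x 0 (((m + 1 : ℕ)) : ZMod (m + 1 + 2)) ∣ ch k m y)
    (f : A k (m + 1)) (hf : f ∣ ch k m y) :
    ∃ c : k, c ≠ 0 ∧ (f = algebraMap k _ c ∨ f = algebraMap k _ c * ch k m y) := by
  have hdom : IsDomain (A k (m + 1)) := A_isDomain (m + 1) (Or.inr h3)
  set U : A k (m + 1) := (univ k (m + 1)).x 0 (((m + 1 : ℕ)) : ZMod (m + 1 + 2)) with hUdef
  have hUp : Prime U := Div_U_prime m ho h3
  have hUq : ch k m ((Ws (vr k m) (m + 1)).2) = U := ch_q m (m + 1) le_rfl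
  have hq : Prime ((Ws (vr k m) (m + 1)).2) := (q_irred m (m + 1) (by omega) le_rfl).prime
  obtain ⟨g, hg⟩ := hf
  obtain ⟨s, F, hF⟩ := clear m f
  obtain ⟨r, G, hG⟩ := clear m g
  have h1 : F * G = (Ws (vr k m) (m + 1)).2 ^ (s + r) * y := by
    apply ch_inj m
    rw [map_mul, map_mul, map_pow, hUq, ← hF, ← hG, hg, pow_add]
    ring
  obtain ⟨e, w, hw⟩ := factor_aux hq hy (s + r) F G h1
  obtain ⟨c, hc, hwc⟩ := MvPolynomial.isUnit_iff_eq_C_of_isReduced.1 w.isUnit
  have hc0 : c ≠ 0 := hc.ne_zero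
  have hchC : ch k m (C c) = algebraMap k _ c := by
    rw [← MvPolynomial.algebraMap_eq]
    exact (ch k m).commutes c
  -- the common form
  obtain ⟨X', hX', hFX⟩ : ∃ X' : A k (m + 1), (X' = 1 ∨ X' = ch k m y) ∧
      ch k m F = algebraMap k _ c * U ^ e * X' := by
    rcases hw with hw | hw
    · refine ⟨1, Or.inl rfl, ?_⟩
      rw [hw, map_mul, map_pow, hUq, hwc, hchC, mul_one]
    · refine ⟨ch k m y, Or.inr rfl, ?_⟩
      rw [hw, map_mul, map_mul, map_pow, hUq, hwc, hchC]
  have hUX' : ¬ U ∣ X' := by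
    rcases hX' with h | h
    · rw [h]
      exact fun h2 => hUp.not_isUnit (isUnit_of_dvd_one h2)
    · rw [h]
      exact hU
  rw [← hF] at hFX
  have hcu : IsUnit (algebraMap k (A k (m + 1)) c) := (isUnit_iff_ne_zero.2 hc0).map _
  rcases lt_trichotomy e s with hes | hes | hes
  · exfalso
    obtain ⟨d, rfl⟩ : ∃ d, s = e + (d + 1) := ⟨s - e - 1, by omega⟩
    have h2 : U ^ e * (U ^ (d + 1) * f) = U ^ e * (algebraMap k _ c * X') := by
      rw [pow_add] at hFX
      linear_combination hFX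
    have h3' := mul_left_cancel₀ (pow_ne_zero e hUp.ne_zero) h2
    have h4 : U ∣ algebraMap k (A k (m + 1)) c * X' := by
      rw [← h3', pow_succ]
      exact ⟨U ^ d * f, by ring⟩
    exact hUX' ((hcu.dvd_mul_left).1 h4)
  · subst hes
    have h2 : U ^ e * f = U ^ e * (algebraMap k _ c * X') := by
      linear_combination hFX
    have h3' := mul_left_cancel₀ (pow_ne_zero e hUp.ne_zero) h2
    refine ⟨c, hc0, ?_⟩
    rcases hX' with h | h
    · left
      rw [h3', h, mul_one]
    · right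
      rw [h3', h]
  · exfalso
    obtain ⟨d, rfl⟩ : ∃ d, e = s + (d + 1) := ⟨e - s - 1, by omega⟩
    have h2 : U ^ s * f = U ^ s * (algebraMap k _ c * U ^ (d + 1) * X') := by
      rw [pow_add] at hFX
      linear_combination hFX
    have h3' := mul_left_cancel₀ (pow_ne_zero s hUp.ne_zero) h2
    apply hU
    rw [hg, h3', pow_succ]
    exact ⟨algebraMap k _ c * U ^ d * X' * g, by ring⟩

/-- Units are constants.  `l = 1`: every element of `A k 1` is a constant, because `gen 0 = -1`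
(`gen_closed`) and `A_induction`.  `l ≥ 3`: `divisor_aux` with `y = 1`. -/
theorem units_A [CharZero k] (l : ℕ) (ho : Odd l) (a : A k l) (ha : IsUnit a) :
    ∃ c : k, c ≠ 0 ∧ a = algebraMap k _ c := by
  rcases odd_cases ho with h1 | h3
  · subst h1
    have hdom : IsDomain (A k 1) := A_isDomain 1 (Or.inl rfl)
    have key : ∀ b : A k 1, ∃ c : k, b = algebraMap k _ c := by
      have hg : gen k 1 0 = algebraMap k (A k 1) (-1) := by
        have h2 := gen_closed k 1
        simp only [Ws, mul_one, sub_zero] at h2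
        rw [h2, map_neg, map_one]
      intro b
      induction b using A_induction with
      | hC c => exact ⟨c, rfl⟩
      | hadd a b ha hb =>
        obtain ⟨c, hc⟩ := ha
        obtain ⟨d, hd⟩ := hb
        exact ⟨c + d, by rw [hc, hd, map_add]⟩
      | hmul a j hj ha =>
        obtain ⟨c, hc⟩ := ha
        obtain rfl : j = 0 := by omega
        exact ⟨c * (-1), by rw [hc, hg, map_mul]⟩
    obtain ⟨c, hc⟩ := key a
    refine ⟨c, ?_, hc⟩
    rintro rfl
    rw [hc, map_zero] at ha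
    exact not_isUnit_zero ha
  · obtain ⟨m, rfl⟩ : ∃ m, l = m + 1 := ⟨l - 1, by omega⟩
    have hUp := Div_U_prime (k := k) m ho h3
    obtain ⟨c, hc, h4⟩ := divisor_aux m ho h3 1 (Or.inl rfl) (by
      rw [map_one]
      exact fun h2 => hUp.not_isUnit (isUnit_of_dvd_one h2)) a (by
      rw [map_one]
      exact ha.dvd)
    refine ⟨c, hc, ?_⟩
    rcases h4 with h4 | h4
    · exact h4
    · rw [h4, map_one, mul_one]

/-- `divisor_aux` with `y = q j` (`ch_q`, `q_irred`); `¬ U ∣ x 0 j` by `not_short_dvd` with `c = m + 1`. -/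
theorem dvd_x [CharZero k] (l : ℕ) (ho : Odd l) (h3 : 3 ≤ l) (j : ℕ) (h2 : 2 ≤ j) (hj : j + 1 ≤ l)
    (f : A k l) (hf : f ∣ (univ k l).x 0 ((j : ℕ) : ZMod (l + 2))) :
    ∃ c : k, c ≠ 0 ∧ (f = algebraMap k _ c ∨
      f = algebraMap k _ c * (univ k l).x 0 ((j : ℕ) : ZMod (l + 2))) := by
  obtain ⟨m, rfl⟩ : ∃ m, l = m + 1 := ⟨l - 1, by omega⟩
  have hq : Prime ((Ws (vr k m) j).2) := (q_irred m j h2 (by omega)).prime
  have hch : ch k m ((Ws (vr k m) j).2) = (univ k (m + 1)).x 0 ((j : ℕ) : ZMod (m + 1 + 2)) :=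
    ch_q m j (by omega)
  have key := divisor_aux m ho h3 ((Ws (vr k m) j).2) (Or.inr hq) (by
    rw [hch]
    intro hd
    have h0 : (((m + 1 : ℕ)) : ZMod (m + 1 + 2)) + 2 = 0 := by
      have := ZMod.natCast_self (m + 1 + 2)
      push_cast at this ⊢
      linear_combination this
    have h5 : (univ k (m + 1)).x (((m + 1 : ℕ)) : ZMod (m + 1 + 2))
        ((((m + 1 : ℕ)) : ZMod (m + 1 + 2)) + 2) ∣
        (univ k (m + 1)).x 0 ((j : ℕ) : ZMod (m + 1 + 2)) := by
      rw [h0]
      obtain ⟨c, hc⟩ := hd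
      refine ⟨-c, ?_⟩
      rw [hc, (univ k (m + 1)).anti (((m + 1 : ℕ)) : ZMod (m + 1 + 2)) 0]
      ring
    have hj0 : (0 : ZMod (m + 1 + 2)) ≠ ((j : ℕ) : ZMod (m + 1 + 2)) := by
      have := Div_nat_ne (N := m + 1 + 2) (a := 0) (b := j) (by omega) (by omega) (by omega)
      simpa using this
    rcases not_short_dvd (m + 1) h3 (((m + 1 : ℕ)) : ZMod (m + 1 + 2)) 0 _ hj0 h5 with
      ⟨h6, -⟩ | ⟨-, h6⟩
    · exact Div_nat_ne (N := m + 1 + 2) (a := 0) (b := m + 1) (by omega) (by omega) (by omega)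
        (by rw [Nat.cast_zero]; exact h6)
    · exact Div_nat_ne (N := m + 1 + 2) (a := j) (b := m + 1) (by omega) (by omega) (by omega)
        h6) f (by rw [hch]; exact hf)
  rw [hch] at key
  exact key

end Pool.Agent.Lib.MP_d4c67c_gt
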