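import Pool.Agent.Lib.MP_d4c67c_gt.Fr

/-!
# JOB Q: the continuant polynomials are irreducible, the ring `A k l` is a domain

Notation: `q n = (Ws (vr k l) n).2`, so `q 0 = 0`, `q 1 = 1`, `q (n+2) = vr n * q (n+1) - q n` (by `Ws`, `rfl`).
-/

namespace Pool.Agent.Lib.MP_d4c67c_gt

open MvPolynomial

variable {k : Type*} [Field k]

theorem Q_step (l n : ℕ) : (Ws (vr k l) (n + 2)).2
    = vr k l n * (Ws (vr k l) (n + 1)).2 - (Ws (vr k l) n).2 := rfl

/-- `q n` only involves the variables `X_0, …, X_(n-2)`.  Strong induction on `n` with `vars_sub_subset`,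
`vars_mul`, `vars_X` (`vr` is `X ⟨n, _⟩` or `0`). -/
theorem q_vars (l n : ℕ) : ∀ i ∈ ((Ws (vr k l) n).2).vars, i.val + 2 ≤ n := by
  classical
  induction n using Nat.strong_induction_on with
  | _ n ih =>
    match n, ih with
    | 0, _ =>
      intro i hi
      have h0 : (Ws (vr k l) 0).2 = 0 := rfl
      rw [h0, vars_0] at hi
      simp at hi
    | 1, _ =>
      intro i hi
      have h0 : (Ws (vr k l) 1).2 = 1 := rfl
      rw [h0, vars_one] at hi
      simp at hi
    | (n + 2), ih =>
      intro i hi
      rw [Q_step] at hi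
      have h1 := vars_sub_subset (p := vr k l n * (Ws (vr k l) (n + 1)).2)
        (q := (Ws (vr k l) n).2) hi
      rcases Finset.mem_union.mp h1 with h2 | h2
      · have h3 := vars_mul _ _ h2
        rcases Finset.mem_union.mp h3 with h4 | h4
        · unfold vr at h4
          split_ifs at h4 with hl
          · rw [vars_X] at h4
            have h5 := Finset.mem_singleton.mp h4
            have h6 : i.val = n := congrArg Fin.val h5
            omega
          · rw [vars_0] at h4
            simp at h4
        · have := ih (n + 1) (by omega) i h4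
          omega
      · have := ih n (by omega) i h2
        omega

theorem Q_coprime (l r : ℕ) : IsCoprime ((Ws (vr k l) (r + 1)).2) ((Ws (vr k l) r).2) := by
  refine ⟨(Ws (vr k l) r).1, - (Ws (vr k l) (r + 1)).1, ?_⟩
  have h := dt_Ws_succ (vr k l) r
  unfold dt at h
  linear_combination h

/-- Proof: strong induction, proving irreducibility for `2 ≤ n ≤ l + 1`.  Write `n = r + 2`, `r < l`:
`q (r+2) = q (r+1) * X ⟨r,_⟩ + (- q r)`.  Use `MvPolynomial.irreducible_mul_X_add` with `f = q (r+1)`,
`g = - q r`: neither involves `X_r` (`q_vars`); `q (r+1) ≠ 0` (it is `1` for `r = 0`, irreducible by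
induction otherwise); relatively prime because
`(Ws _ r).1 * q (r+1) - q r * (Ws _ (r+1)).1 = 1` (`dt_Ws_succ`), so `IsCoprime`, so `IsRelPrime`. -/
theorem q_irred (l n : ℕ) (h2 : 2 ≤ n) (hn : n ≤ l + 1) : Irreducible ((Ws (vr k l) n).2) := by
  induction n using Nat.strong_induction_on with
  | _ n ih =>
    obtain ⟨r, rfl⟩ : ∃ r, n = r + 2 := ⟨n - 2, by omega⟩
    have hr : r < l := by omega
    have hne : (Ws (vr k l) (r + 1)).2 ≠ 0 := by
      rcases Nat.eq_zero_or_pos r with h0 | h0
      · subst h0
        have : (Ws (vr k l) (0 + 1)).2 = 1 := rfl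
        rw [this]
        exact one_ne_zero
      · exact (ih (r + 1) (by omega) (by omega) (by omega)).ne_zero
    have he : (Ws (vr k l) (r + 2)).2
        = (Ws (vr k l) (r + 1)).2 * X ⟨r, hr⟩ + (- (Ws (vr k l) r).2) := by
      rw [Q_step]
      have hv : vr k l r = X ⟨r, hr⟩ := by
        unfold vr
        rw [dif_pos hr]
      rw [hv]
      ring
    rw [he]
    apply irreducible_mul_X_add
    · exact hne
    · intro hmem
      have h5 := q_vars l (r + 1) _ hmem
      have h6 : (⟨r, hr⟩ : Fin l).val = r := rfl
      rw [h6] at h5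
      omega
    · intro hmem
      rw [vars_neg] at hmem
      have h5 := q_vars l r _ hmem
      have h6 : (⟨r, hr⟩ : Fin l).val = r := rfl
      rw [h6] at h5
      omega
    · have hc := (Q_coprime (k := k) l r).neg_right
      exact hc.isRelPrime

theorem q_ne_zero (l n : ℕ) (h1 : 1 ≤ n) (hn : n ≤ l + 1) : (Ws (vr k l) n).2 ≠ 0 := by
  rcases Nat.lt_or_ge n 2 with h | h
  · have : n = 1 := by omega
    subst this
    have h0 : (Ws (vr k l) 1).2 = 1 := rfl
    rw [h0]
    exact one_ne_zero
  · exact (q_irred l n h hn).ne_zero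

/-- values of the continuants at the special point -/
theorem Q_eval [CharZero k] (l : ℕ) (s : ℕ → k) (hs : ∀ j, j + 2 < l → s j = 2) :
    ∀ n, n + 1 ≤ l → (Ws s n).2 = (n : k) := by
  intro n
  induction n using Nat.strong_induction_on with
  | _ n ih =>
    match n, ih with
    | 0, _ => intro _; simp [Ws]
    | 1, _ => intro _; simp [Ws]
    | (n + 2), ih =>
      intro hn
      have h1 := ih (n + 1) (by omega) (by omega)
      have h2 := ih n (by omega) (by omega)
      have h3 : (Ws s (n + 2)).2 = s n * (Ws s (n + 1)).2 - (Ws s n).2 := rfl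
      rw [h3, h1, h2, hs n (by omega)]
      push_cast
      ring

/-- `rel k l = q (l+1) + 1 = q l * X_(l-1) + (1 - q (l-1))` is irreducible.
`l = 1`: it is `1 * X_0 + 1`.  `l ≥ 3`: `irreducible_mul_X_add` with `f = q l`, `g = 1 - q (l-1)`; for
`IsRelPrime (q l) (1 - q (l-1))`: `q l` is irreducible, so it is enough that it does not divide
`1 - q (l-1)` (something like `Irreducible.isRelPrime_iff_not_dvd`).  If it did, evaluate at the point
with all coordinates `2` except the coordinate number `l-2`, which is `(l-2)/(l-1)`: by `Ws_map`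
(ring homomorphism `eval`) and induction `q n` takes the value `n` for `n ≤ l - 1`, so
`q l = ((l-2)/(l-1)) * (l-1) - (l-2) = 0`, while `1 - q (l-1) = 1 - (l-1) = 2 - l ≠ 0` in
characteristic `0`. -/
theorem rel_irred [CharZero k] (l : ℕ) (h : l = 1 ∨ 3 ≤ l) : Irreducible (rel k l) := by
  obtain ⟨r, rfl⟩ : ∃ r, l = r + 1 := ⟨l - 1, by omega⟩
  have hr : r < r + 1 := by omega
  have he : rel k (r + 1) = (Ws (vr k (r + 1)) (r + 1)).2 * X ⟨r, hr⟩
      + (1 - (Ws (vr k (r + 1)) r).2) := by
    have h0 : rel k (r + 1) = (Ws (vr k (r + 1)) (r + 2)).2 + 1 := rfl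
    rw [h0, Q_step]
    have hv : vr k (r + 1) r = X ⟨r, hr⟩ := by
      unfold vr
      rw [dif_pos hr]
    rw [hv]
    ring
  rw [he]
  apply irreducible_mul_X_add
  · exact q_ne_zero _ _ (by omega) (by omega)
  · intro hmem
    have h5 := q_vars (r + 1) (r + 1) _ hmem
    have h6 : (⟨r, hr⟩ : Fin (r + 1)).val = r := rfl
    rw [h6] at h5
    omega
  · intro hmem
    classical
    have h7 := vars_sub_subset (p := (1 : MvPolynomial (Fin (r + 1)) k))
      (q := (Ws (vr k (r + 1)) r).2) hmem
    rcases Finset.mem_union.mp h7 with h8 | h8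
    · rw [vars_one] at h8
      simp at h8
    · have h5 := q_vars (r + 1) r _ h8
      have h6 : (⟨r, hr⟩ : Fin (r + 1)).val = r := rfl
      rw [h6] at h5
      omega
  · rcases Nat.eq_zero_or_pos r with h0 | h0
    · subst h0
      have h1 : (Ws (vr k (0 + 1)) (0 + 1)).2 = 1 := rfl
      rw [h1]
      exact isCoprime_one_left.isRelPrime
    · have hr2 : 2 ≤ r := by omega
      have hirr := q_irred (k := k) (r + 1) (r + 1) (by omega) (by omega)
      rw [hirr.isRelPrime_iff_not_dvd]
      rintro ⟨c, hc⟩
      -- the special point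
      let v : Fin (r + 1) → k := fun j => if j.val + 1 = r then ((r : k) - 1) / (r : k) else 2
      have hev := congrArg (eval v) hc
      rw [map_mul, map_sub, map_one] at hev
      have hmap : ∀ n, eval v ((Ws (vr k (r + 1)) n).2)
          = (Ws (fun i => eval v (vr k (r + 1) i)) n).2 := by
        intro n
        have h9 := Ws_map (eval v) (vr k (r + 1)) n
        exact (congrArg Prod.snd h9).symm
      have hs2 : ∀ j, j + 2 < r + 1 → eval v (vr k (r + 1) j) = 2 := by
        intro j hj
        have hj' : j < r + 1 := by omega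
        unfold vr
        rw [dif_pos hj', eval_X]
        show (if j + 1 = r then ((r : k) - 1) / (r : k) else 2) = 2
        rw [if_neg (by omega)]
      have hval := Q_eval (k := k) (r + 1) (fun i => eval v (vr k (r + 1) i)) hs2
      have hrk : (r : k) ≠ 0 := by
        exact_mod_cast (by omega : r ≠ 0)
      have hlast : eval v (vr k (r + 1) (r - 1)) = ((r : k) - 1) / (r : k) := by
        have hj' : r - 1 < r + 1 := by omega
        unfold vr
        rw [dif_pos hj', eval_X]
        show (if r - 1 + 1 = r then ((r : k) - 1) / (r : k) else 2) = _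
        rw [if_pos (by omega)]
      obtain ⟨t, rfl⟩ : ∃ t, r = t + 1 := ⟨r - 1, by omega⟩
      have hq1 : (Ws (fun i => eval v (vr k (t + 1 + 1) i)) (t + 1)).2 = ((t + 1 : ℕ) : k) :=
        hval (t + 1) (by omega)
      have hq0 : (Ws (fun i => eval v (vr k (t + 1 + 1) i)) t).2 = (t : k) :=
        hval t (by omega)
      have hq2 : (Ws (fun i => eval v (vr k (t + 1 + 1) i)) (t + 1 + 1)).2 = 0 := by
        have h10 : (Ws (fun i => eval v (vr k (t + 1 + 1) i)) (t + 2)).2
            = eval v (vr k (t + 1 + 1) t)
              * (Ws (fun i => eval v (vr k (t + 1 + 1) i)) (t + 1)).2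
              - (Ws (fun i => eval v (vr k (t + 1 + 1) i)) t).2 := rfl
        have h11 : t + 1 + 1 = t + 2 := rfl
        have h12 : t + 1 - 1 = t := rfl
        rw [h12] at hlast
        rw [h11] at *
        rw [h10, hq1, hq0, hlast]
        field_simp
        push_cast
        ring
      rw [hmap, hmap, hq1, hq2, zero_mul] at hev
      have h13 : ((t + 1 : ℕ) : k) = ((1 : ℕ) : k) := by
        push_cast at hev ⊢
        linear_combination -hev
      have h14 := Nat.cast_injective h13
      omega

/-- `MvPolynomial (Fin l) k` is a UFD, so `rel k l` is prime (`Irreducible.prime`) and the quotient by the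
ideal it spans is a domain (`Ideal.Quotient.isDomain`, `Ideal.span_singleton_prime`). -/
theorem A_isDomain [CharZero k] (l : ℕ) (h : l = 1 ∨ 3 ≤ l) : IsDomain (A k l) := by
  have hirr := rel_irred (k := k) l h
  have hp : Prime (rel k l) := hirr.prime
  have hI : (Ideal.span {rel k l}).IsPrime := (Ideal.span_singleton_prime hp.ne_zero).mpr hp
  exact Ideal.Quotient.isDomain _

end Pool.Agent.Lib.MP_d4c67c_gt
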