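import Pool.Agent.Lib.MP_d4c67c_gt.CfB
import Pool.Agent.Lib.MP_d4c67c_gt.TriA

/-!
# JOB Lnk: seeds of configurations are seeds of friezes; the reversal

(You may use `CfA`, `CfB`, `TriA`, which are other jobs.)
-/

open scoped LinearAlgebra.Projectivization

namespace Pool.Agent.Lib.MP_d4c67c_gt

variable {k : Type*} [Field k] {m n : ℕ}

/-- the cross ratio may be computed with any vectors on the four lines (each vector occurs once in the numerator
and once in the denominator): `rep = c • v`, `c ≠ 0` -/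
theorem cr_mk {v1 v2 v3 v4 : Fin 2 → k} (h1 : v1 ≠ 0) (h2 : v2 ≠ 0) (h3 : v3 ≠ 0) (h4 : v4 ≠ 0) :
    cr (Projectivization.mk k v1 h1) (Projectivization.mk k v2 h2) (Projectivization.mk k v3 h3)
      (Projectivization.mk k v4 h4) = det2 v1 v2 * det2 v3 v4 / (det2 v2 v3 * det2 v1 v4) := by
  obtain ⟨a1, e1⟩ := Projectivization.exists_smul_eq_mk_rep k v1 h1
  obtain ⟨a2, e2⟩ := Projectivization.exists_smul_eq_mk_rep k v2 h2
  obtain ⟨a3, e3⟩ := Projectivization.exists_smul_eq_mk_rep k v3 h3
  obtain ⟨a4, e4⟩ := Projectivization.exists_smul_eq_mk_rep k v4 h4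
  have key : ∀ (a b : kˣ) (v w : Fin 2 → k), det2 (a • v) (b • w) = (a : k) * (b : k) * det2 v w := by
    intro a b v w
    simp only [det2, Pi.smul_apply, Units.smul_def, smul_eq_mul]
    ring
  unfold cr
  rw [← e1, ← e2, ← e3, ← e4, key, key, key, key]
  have hne : (a1 : k) * a2 * a3 * a4 ≠ 0 :=
    mul_ne_zero (mul_ne_zero (mul_ne_zero a1.ne_zero a2.ne_zero) a3.ne_zero) a4.ne_zero
  rw [← mul_div_mul_left (det2 v1 v2 * det2 v3 v4) (det2 v2 v3 * det2 v1 v4) hne]
  congr 1 <;> ring

/-- `B^i` has cyclic label `i` -/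
theorem U_eq (p : Cfg k m n) (i : ℕ) (hi : i ≤ m) : p.U i = pt p ((i : ℕ) : ZMod (m + n + 2)) := by
  rw [pt_up p i hi]
  unfold Cfg.U
  congr 1
  apply Fin.ext
  simp only [Fin.ofNat]
  exact Nat.mod_eq_of_lt (by omega)

/-- `B_j` has cyclic label `-1 - j` -/
theorem D_eq (p : Cfg k m n) (j : ℕ) (hj : j ≤ n) : p.D j = pt p (-1 - ((j : ℕ) : ZMod (m + n + 2))) := by
  have e : (-1 - ((j : ℕ) : ZMod (m + n + 2))) = (((m + n + 1 - j : ℕ)) : ZMod (m + n + 2)) := by
    have h0 := ZMod.natCast_self (m + n + 2)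
    rw [Nat.cast_sub (by omega)]
    push_cast at h0 ⊢
    linear_combination -h0
  rw [e, pt_dn p j hj]
  unfold Cfg.D
  congr 1
  apply Fin.ext
  simp only [Fin.ofNat]
  exact Nat.mod_eq_of_lt (by omega)

private theorem Lnk_mono (w : ℕ → Bool) {s t : ℕ} (h : s ≤ t) : nU w s ≤ nU w t := by
  induction t with
  | zero => rw [Nat.le_zero.1 h]
  | succ t ih =>
    rcases Nat.lt_or_ge s (t + 1) with h1 | h1
    · have h2 := ih (by omega)
      have h3 : nU w (t + 1) = nU w t + (if w t then 1 else 0) := rfl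
      omega
    · have : s = t + 1 := by omega
      rw [this]

private theorem Lnk_monoD (w : ℕ → Bool) {s t : ℕ} (h : s ≤ t) : nD w s ≤ nD w t := by
  induction t with
  | zero => rw [Nat.le_zero.1 h]
  | succ t ih =>
    rcases Nat.lt_or_ge s (t + 1) with h1 | h1
    · have h2 := ih (by omega)
      have h3 : nD w (t + 1) = nD w t + (if w t then 0 else 1) := rfl
      omega
    · have : s = t + 1 := by omega
      rw [this]

/-- For a word with `m` letters `U` and `n` letters `D`.  `nU w s ≤ m`, `nD w s ≤ n` for `s ≤ m + n`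
(monotone, `nU_add_nD`); `P`: if `w a = U` then `nU w (a+1) - 1 = nU w a`; `Q`: if `w (a+1) = U` then
`nU w (a+1) + 1 = nU w (a+2) ≤ m`, etc.  Use `U_eq`, `D_eq`, `exists_lift`, `cr_mk`; the constant `c` cancels.
`T` is taken with left edge `{c+1, c} = {0, -1}`, i.e. `c = -1`. -/
theorem seedOf_eq [IsAlgClosed k] (ho : Odd (m + n)) (w : ℕ → Bool) (hw : nU w (m + n) = m)
    (p : Cfg k m n) : seedOf w p = T (m + n) (-1) w (frz ho (Quotient.mk _ p : Conf k m n)) := by
  obtain ⟨v, c, hc, hv, hdet⟩ := exists_lift ho p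
  have hU : ∀ s, s ≤ m + n → nU w s ≤ m := by
    intro s hs
    rw [← hw]
    exact Lnk_mono w hs
  have hnD : nD w (m + n) = n := by
    have := nU_add_nD w (m + n)
    omega
  have hD : ∀ s, s ≤ m + n → nD w s ≤ n := by
    intro s hs
    conv_rhs => rw [← hnD]
    exact Lnk_monoD w hs
  apply Seed.ext
  · rfl
  · funext a
    have ha := a.isLt
    have hcr : ∀ i1 i2 i3 i4 : ZMod (m + n + 2), cr (pt p i1) (pt p i2) (pt p i3) (pt p i4) =
        (frz ho (Quotient.mk _ p : Conf k m n)).x i1 i2 *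
          (frz ho (Quotient.mk _ p : Conf k m n)).x i3 i4 /
          ((frz ho (Quotient.mk _ p : Conf k m n)).x i2 i3 *
            (frz ho (Quotient.mk _ p : Conf k m n)).x i1 i4) := by
      intro i1 i2 i3 i4
      obtain ⟨h1, e1⟩ := hv i1
      obtain ⟨h2, e2⟩ := hv i2
      obtain ⟨h3, e3⟩ := hv i3
      obtain ⟨h4, e4⟩ := hv i4
      rw [e1, e2, e3, e4, cr_mk h1 h2 h3 h4, hdet, hdet, hdet, hdet]
      rw [← mul_div_mul_left _ ((frz ho (Quotient.mk _ p : Conf k m n)).x i2 i3 *
            (frz ho (Quotient.mk _ p : Conf k m n)).x i1 i4) (mul_ne_zero hc hc)]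
      congr 1 <;> ring
    have hQ : (if w (a.val + 1) then p.U (nU w (a.val + 1) + 1) else p.D (nD w (a.val + 1) + 1)) =
        pt p (if w (a.val + 1) then -1 + 1 + (nU w (a.val + 1) : ZMod (m + n + 2)) + 1
          else -1 - (nD w (a.val + 1) : ZMod (m + n + 2)) - 1) := by
      by_cases h : w (a.val + 1) = true
      · rw [if_pos h, if_pos h]
        have h1 : nU w (a.val + 1) + 1 ≤ m := by
          have h2 := hU (a.val + 1 + 1) (by omega)
          have h3 : nU w (a.val + 1 + 1) = nU w (a.val + 1) + (if w (a.val + 1) then 1 else 0) := rfl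
          rw [if_pos h] at h3
          omega
        rw [U_eq p _ h1]
        congr 1
        push_cast
        ring
      · rw [if_neg h, if_neg h]
        have h1 : nD w (a.val + 1) + 1 ≤ n := by
          have h2 := hD (a.val + 1 + 1) (by omega)
          have h3 : nD w (a.val + 1 + 1) = nD w (a.val + 1) + (if w (a.val + 1) then 0 else 1) := rfl
          rw [if_neg h] at h3
          omega
        rw [D_eq p _ h1]
        congr 1
        push_cast
        ring
    have hP : (if w a.val then p.U (nU w (a.val + 1) - 1) else p.D (nD w (a.val + 1) - 1)) =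
        pt p (if w a.val then -1 + 1 + (nU w (a.val + 1) : ZMod (m + n + 2)) - 1
          else -1 - (nD w (a.val + 1) : ZMod (m + n + 2)) + 1) := by
      by_cases h : w a.val = true
      · rw [if_pos h, if_pos h]
        have h3 : nU w (a.val + 1) = nU w a.val + (if w a.val then 1 else 0) := rfl
        rw [if_pos h] at h3
        have h4 := hU a.val (by omega)
        rw [h3, Nat.add_sub_cancel, U_eq p _ h4]
        congr 1
        push_cast
        ring
      · rw [if_neg h, if_neg h]
        have h3 : nD w (a.val + 1) = nD w a.val + (if w a.val then 0 else 1) := rfl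
        rw [if_neg h] at h3
        have h4 := hD a.val (by omega)
        rw [h3, Nat.add_sub_cancel, D_eq p _ h4]
        congr 1
        push_cast
        ring
    have hT : p.U (nU w (a.val + 1)) = pt p (-1 + 1 + (nU w (a.val + 1) : ZMod (m + n + 2))) := by
      rw [U_eq p _ (hU (a.val + 1) (by omega))]
      congr 1
      ring
    have hB : p.D (nD w (a.val + 1)) = pt p (-1 - (nD w (a.val + 1) : ZMod (m + n + 2))) :=
      D_eq p _ (hD (a.val + 1) (by omega))
    show cr (p.U (nU w (a.val + 1)))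
      (if w (a.val + 1) then p.U (nU w (a.val + 1) + 1) else p.D (nD w (a.val + 1) + 1))
      (p.D (nD w (a.val + 1)))
      (if w a.val then p.U (nU w (a.val + 1) - 1) else p.D (nD w (a.val + 1) - 1)) = _
    rw [hQ, hP, hT, hB, hcr]
    rfl

/-- `pt (revC p) i = pt p (m - i)` -/
theorem pt_revC (p : Cfg k m n) (i : ZMod (m + n + 2)) : pt p.revC i = pt p ((m : ZMod (m + n + 2)) - i) := by
  have hi := ZMod.val_lt i
  have hiv : ((i.val : ℕ) : ZMod (m + n + 2)) = i := ZMod.natCast_zmod_val i
  by_cases h : i.val ≤ m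
  · have e : (m : ZMod (m + n + 2)) - i = ((m - i.val : ℕ) : ZMod (m + n + 2)) := by
      rw [Nat.cast_sub h, hiv]
    rw [e, pt_up p (m - i.val) (by omega)]
    unfold pt
    rw [dif_pos h]
    show p.up (Fin.rev ⟨i.val, _⟩) = _
    congr 1
    apply Fin.ext
    rw [Fin.val_rev]
    simp only
    omega
  · have e : (m : ZMod (m + n + 2)) - i =
        ((m + n + 1 - (i.val - m - 1) : ℕ) : ZMod (m + n + 2)) := by
      have h0 := ZMod.natCast_self (m + n + 2)
      rw [Nat.cast_sub (by omega), Nat.cast_sub (by omega), Nat.cast_sub (by omega), hiv]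
      push_cast at h0 ⊢
      linear_combination -h0
    rw [e, pt_dn p (i.val - m - 1) (by omega)]
    unfold pt
    rw [dif_neg h]
    show p.dn (Fin.rev ⟨m + n + 1 - i.val, _⟩) = _
    congr 1
    apply Fin.ext
    rw [Fin.val_rev]
    simp only
    omega

/-- `frz (rev P) = (i, j) ↦ x (m - j) (m - i)`: this is the frieze `((frz P).rot m).refl`; use `frz_eq` with
`v i = u (m - i)`, where `u`, `c` come from `exists_lift`, and the constant `-c`:
`det2 (u (m-i)) (u (m-j)) = c * x (m-i) (m-j) = -c * x (m-j) (m-i)`. -/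
theorem frz_rev [IsAlgClosed k] (ho : Odd (m + n)) (P : Conf k m n) :
    frz ho (rev P) = ((frz ho P).rot (m : ZMod (m + n + 2))).refl := by
  obtain ⟨p, rfl⟩ := Quotient.exists_rep P
  obtain ⟨u, c, hc, hu, hdet⟩ := exists_lift ho p
  have hrev : rev (Quotient.mk _ p : Conf k m n) = Quotient.mk _ p.revC := rfl
  rw [hrev]
  refine frz_eq ho p.revC (fun i => u ((m : ZMod (m + n + 2)) - i)) ?_ _ (-c) (neg_ne_zero.2 hc) ?_
  · intro i
    obtain ⟨h1, h2⟩ := hu ((m : ZMod (m + n + 2)) - i)
    exact ⟨h1, by rw [pt_revC, h2]⟩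
  · intro i j
    show det2 (u ((m : ZMod (m + n + 2)) - i)) (u ((m : ZMod (m + n + 2)) - j)) =
      -c * (frz ho (Quotient.mk _ p : Conf k m n)).x (-j + m) (-i + m)
    rw [hdet, (frz ho (Quotient.mk _ p : Conf k m n)).anti (-i + m) (-j + m)]
    have e1 : (m : ZMod (m + n + 2)) - i = -i + m := by ring
    have e2 : (m : ZMod (m + n + 2)) - j = -j + m := by ring
    rw [e1, e2]
    ring

end Pool.Agent.Lib.MP_d4c67c_gt
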