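import Pool.Agent.Lib.MP_d4c67c_gt.Rep

/-!
# JOB Jac: mutations are Poisson (logarithmic Jacobian at positive real points)

(You may use `Rep.lean`, which is another job.)
-/

namespace Pool.Agent.Lib.MP_d4c67c_gt

/-- The bilinear identity behind `Poisson`.  `J : Fin r → Fin r → ℝ` (rows `J i`), `B u v = ∑_{a,b} u a * ε0 a b * v b`
antisymmetric bilinear, `B (J i) (J j) = ε i j`, `ε` antisymmetric with integer values; `q : ℝ` with `0 < q`;
`cf i = q⁻¹ / (1 + q⁻¹)` if `ε i c > 0`, `cf i = q / (1 + q)` if `ε i c < 0`, any value if `ε i c = 0`.  New rows: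
`J' c = - J c`, `J' i = J i + |ε i c| * cf i * J c`.  Then `B (J' i) (J' j) = ε' i j`, the mutated matrix.
Computation: for `i, j ≠ c`: `B = ε i j + |ε i c| cf i ε c j + ε i c |ε j c| cf j` (`B (J c) (J c) = ε c c = 0`); with
`ε c j = - ε j c`.  If `ε i c`, `ε j c` have the same sign the two terms cancel (`cf i = cf j`) and so does the
correction `(|ε i c| ε c j + ε i c |ε c j|)/2`.  If `ε i c > 0 > ε j c`: the sum is
`|ε i c| |ε j c| (cf i + cf j) = |ε i c| |ε j c|` since `1/(1+q) + q/(1+q) = 1`, and the correction is the same.  Similarly for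
`ε i c < 0 < ε j c` with the sign minus. -/
theorem poisson_step {r : ℕ} (B : (Fin r → ℝ) → (Fin r → ℝ) → ℝ)
    (hadd : ∀ u v w, B (u + v) w = B u w + B v w) (hsmul : ∀ (t : ℝ) u w, B (t • u) w = t * B u w)
    (hanti : ∀ u v, B v u = - B u v) (ε : Fin r → Fin r → ℤ) (hε : ∀ i j, ε j i = - ε i j)
    (J : Fin r → Fin r → ℝ) (hJ : ∀ i j, B (J i) (J j) = (ε i j : ℝ)) (c : Fin r) (q : ℝ) (hq : 0 < q)
    (cf : Fin r → ℝ) (hp : ∀ i, 0 < ε i c → cf i = 1 / (1 + q)) (hn : ∀ i, ε i c < 0 → cf i = q / (1 + q))
    (y : Fin r → ℝ) (i j : Fin r) :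
    B (if i = c then - J c else J i + (|(ε i c : ℝ)| * cf i) • J c)
      (if j = c then - J c else J j + (|(ε j c : ℝ)| * cf j) • J c)
      = (((⟨ε, y⟩ : Seed ℝ r).mutate c).ε i j : ℝ) := by
  have hadd' : ∀ u v w, B w (u + v) = B w u + B w v := by
    intro u v w
    rw [hanti (u + v) w, hadd, hanti u w, hanti v w]
    ring
  have hsmul' : ∀ (t : ℝ) u w, B w (t • u) = t * B w u := by
    intro t u w
    rw [hanti (t • u) w, hsmul, hanti u w]
    ring
  have hneg : ∀ u w, B (-u) w = - B u w := by
    intro u w
    rw [← neg_one_smul ℝ u, hsmul]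
    ring
  have hneg' : ∀ u w, B w (-u) = - B w u := by
    intro u w
    rw [← neg_one_smul ℝ u, hsmul']
    ring
  have hcc : (ε c c : ℝ) = 0 := by
    have h1 := hε c c
    have h2 : ε c c = 0 := by omega
    rw [h2, Int.cast_zero]
  show _ = ((if i = c ∨ j = c then - ε i j
    else ε i j + (|ε i c| * ε c j + ε i c * |ε c j|) / 2 : ℤ) : ℝ)
  by_cases hi : i = c
  · rw [if_pos hi, if_pos (Or.inl hi), hi]
    by_cases hj : j = c
    · rw [if_pos hj, hj, hneg, hneg', hJ]
      push_cast
      linarith
    · rw [if_neg hj, hneg, hadd', hsmul', hJ, hJ, hcc]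
      push_cast
      ring
  · rw [if_neg hi]
    by_cases hj : j = c
    · rw [if_pos hj, if_pos (Or.inr hj), hj, hneg', hadd, hsmul, hJ, hJ, hcc]
      push_cast
      ring
    · rw [if_neg hj, if_neg (not_or.2 ⟨hi, hj⟩), hadd, hadd', hadd', hsmul, hsmul, hsmul', hsmul',
        hJ, hJ, hJ, hJ, hcc]
      have hcj : ε c j = - ε j c := hε j c
      have hq1 : 1 / (1 + q) + q / (1 + q) = 1 := by
        have : (1 + q) ≠ 0 := by linarith
        field_simp
      rw [hcj]
      rcases lt_trichotomy (ε i c) 0 with he | he | he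
      · rcases lt_trichotomy (ε j c) 0 with hf | hf | hf
        · have h3 : (|ε i c| * -ε j c + ε i c * |(-ε j c)|) / 2 = 0 := by
            rw [abs_of_neg he, abs_of_pos (by omega)]
            have : -ε i c * -ε j c + ε i c * -ε j c = 0 := by ring
            rw [this]
            rfl
          have h1 : (ε i c : ℝ) < 0 := by exact_mod_cast he
          have h2 : (ε j c : ℝ) < 0 := by exact_mod_cast hf
          rw [h3, hn i he, hn j hf, abs_of_neg h1, abs_of_neg h2]
          push_cast
          ring
        · have h3 : (|ε i c| * -ε j c + ε i c * |(-ε j c)|) / 2 = 0 := by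
            rw [hf]
            simp
          rw [h3, hf]
          push_cast
          simp
        · have h3 : (|ε i c| * -ε j c + ε i c * |(-ε j c)|) / 2 = ε i c * ε j c := by
            rw [abs_of_neg he, abs_of_neg (by omega)]
            have : -ε i c * -ε j c + ε i c * -(-ε j c) = (ε i c * ε j c) * 2 := by ring
            rw [this]
            exact Int.mul_ediv_cancel _ (by norm_num)
          have h1 : (ε i c : ℝ) < 0 := by exact_mod_cast he
          have h2 : 0 < (ε j c : ℝ) := by exact_mod_cast hf
          rw [h3, hn i he, hp j hf, abs_of_neg h1, abs_of_pos h2]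
          push_cast
          linear_combination (ε i c * ε j c : ℝ) * hq1
      · have h3 : (|ε i c| * -ε j c + ε i c * |(-ε j c)|) / 2 = 0 := by
          rw [he]
          simp
        rw [h3, he]
        push_cast
        simp
      · rcases lt_trichotomy (ε j c) 0 with hf | hf | hf
        · have h3 : (|ε i c| * -ε j c + ε i c * |(-ε j c)|) / 2 = -(ε i c * ε j c) := by
            rw [abs_of_pos he, abs_of_pos (by omega)]
            have : ε i c * -ε j c + ε i c * -ε j c = (-(ε i c * ε j c)) * 2 := by ring
            rw [this]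
            exact Int.mul_ediv_cancel _ (by norm_num)
          have h1 : 0 < (ε i c : ℝ) := by exact_mod_cast he
          have h2 : (ε j c : ℝ) < 0 := by exact_mod_cast hf
          rw [h3, hp i he, hn j hf, abs_of_pos h1, abs_of_neg h2]
          push_cast
          linear_combination (-(ε i c * ε j c) : ℝ) * hq1
        · have h3 : (|ε i c| * -ε j c + ε i c * |(-ε j c)|) / 2 = 0 := by
            rw [hf]
            simp
          rw [h3, hf]
          push_cast
          simp
        · have h3 : (|ε i c| * -ε j c + ε i c * |(-ε j c)|) / 2 = 0 := by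
            rw [abs_of_pos he, abs_of_neg (by omega)]
            have : ε i c * -ε j c + ε i c * -(-ε j c) = 0 := by ring
            rw [this]
            rfl
          have h1 : 0 < (ε i c : ℝ) := by exact_mod_cast he
          have h2 : 0 < (ε j c : ℝ) := by exact_mod_cast hf
          rw [h3, hp i he, hp j hf, abs_of_pos h1, abs_of_pos h2]
          push_cast
          ring

/-- mutation preserves antisymmetry -/
theorem mutate_antisymm {K : Type*} [Field K] {r : ℕ} (s : Seed K r) (c : Fin r)
    (h : ∀ i j, s.ε j i = - s.ε i j) : ∀ i j, (s.mutate c).ε j i = - (s.mutate c).ε i j := by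
  intro i j
  show (if j = c ∨ i = c then - s.ε j i
    else s.ε j i + (|s.ε j c| * s.ε c i + s.ε j c * |s.ε c i|) / 2) =
    - (if i = c ∨ j = c then - s.ε i j
    else s.ε i j + (|s.ε i c| * s.ε c j + s.ε i c * |s.ε c j|) / 2)
  by_cases hij : i = c ∨ j = c
  · rw [if_pos hij, if_pos hij.symm, h i j]
  · rw [if_neg hij, if_neg (fun h1 => hij h1.symm), h i j, h i c, h j c]
    have e1 : (|s.ε j c| * -s.ε i c + s.ε j c * |(-s.ε i c)|) / 2 =
        -((|s.ε i c| * -s.ε j c + s.ε i c * |(-s.ε j c)|) / 2) := by
      rw [abs_neg, abs_neg]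
      rcases le_total 0 (s.ε i c) with h1 | h1 <;> rcases le_total 0 (s.ε j c) with h2 | h2
      · rw [abs_of_nonneg h1, abs_of_nonneg h2]
        have t1 : s.ε j c * -s.ε i c + s.ε j c * s.ε i c = 0 := by ring
        have t2 : s.ε i c * -s.ε j c + s.ε i c * s.ε j c = 0 := by ring
        rw [t1, t2]
        rfl
      · rw [abs_of_nonneg h1, abs_of_nonpos h2]
        have t1 : -s.ε j c * -s.ε i c + s.ε j c * s.ε i c = (s.ε i c * s.ε j c) * 2 := by ring
        have t2 : s.ε i c * -s.ε j c + s.ε i c * -s.ε j c = (-(s.ε i c * s.ε j c)) * 2 := by ring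
        rw [t1, t2, Int.mul_ediv_cancel _ (by norm_num), Int.mul_ediv_cancel _ (by norm_num)]
        ring
      · rw [abs_of_nonpos h1, abs_of_nonneg h2]
        have t1 : s.ε j c * -s.ε i c + s.ε j c * -s.ε i c = (-(s.ε i c * s.ε j c)) * 2 := by ring
        have t2 : -s.ε i c * -s.ε j c + s.ε i c * s.ε j c = (s.ε i c * s.ε j c) * 2 := by ring
        rw [t1, t2, Int.mul_ediv_cancel _ (by norm_num), Int.mul_ediv_cancel _ (by norm_num)]
      · rw [abs_of_nonpos h1, abs_of_nonpos h2]
        have t1 : -s.ε j c * -s.ε i c + s.ε j c * -s.ε i c = 0 := by ring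
        have t2 : -s.ε i c * -s.ε j c + s.ε i c * -s.ε j c = 0 := by ring
        rw [t1, t2]
        rfl
    rw [e1]
    ring

/-- antisymmetry of all exchange matrices -/
private theorem jac_anti {r : ℕ} (ε0 : Fin r → Fin r → ℤ) (ha : ∀ i j, ε0 j i = - ε0 i j)
    (y : Fin r → ℝ) (L : List (Fin r)) :
    ∀ i j, ((⟨ε0, y⟩ : Seed ℝ r).muts L).ε j i = - ((⟨ε0, y⟩ : Seed ℝ r).muts L).ε i j := by
  induction L using List.reverseRecOn with
  | nil => exact ha
  | append_singleton L c ih =>
    rw [muts_append]
    exact mutate_antisymm _ c ih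

/-- positivity of all coordinates -/
private theorem jac_pos {r : ℕ} (ε0 : Fin r → Fin r → ℤ) (L : List (Fin r)) (y : Fin r → ℝ)
    (hy : ∀ i, 0 < y i) (i : Fin r) : 0 < ((⟨ε0, y⟩ : Seed ℝ r).muts L).y i := by
  obtain ⟨a, b, D, -, -, h⟩ := rep ℝ ε0 L
  obtain ⟨-, h2⟩ := h y hy
  obtain ⟨ha, hb, he⟩ := h2 i
  rw [he]
  exact div_pos ha hb

/-- The curve number `a`: `y b = exp s` for `b = a`, `y b = 1` otherwise.  Along it the logarithm of each coordinate
after the mutations `L` has a derivative `J i a` at `s = 0`, and `∑_{a,b} J i a * ε a b * J j b` is the exchange matrix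
after `L`.  Induction on `L` from the end (`muts_append`).  Empty list: `J i a = 1` if `i = a`, else `0`
(`log (exp s) = s`, `log 1 = 0`).  For `L ++ [c]`: positivity of all coordinates from `rep ℝ ε0 L`; the coordinates at
`s = 0` do not depend on `a` (the starting point is `(1,…,1)`), let `q` be the coordinate number `c` there.
`log ((y c)⁻¹) = - log (y c)`; for `i ≠ c`, with `e = ε i c` (independent of `s`, `a` by `muts_eps`), `sg = sign e`:
`log (y i * (1 + y c ^ (-sg)) ^ (-e)) = log (y i) - e * log (1 + exp (-sg * log (y c)))`, whose derivative is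
`J i a - e * (q^(-sg) / (1 + q^(-sg))) * (-sg) * J c a = J i a + |e| * cf i * J c a` with `cf i = 1/(1+q)` for
`e > 0` and `q/(1+q)` for `e < 0`.  Then `poisson_step` with `B u v = ∑ u a * ε0 a b * v b`. -/
theorem jac {r : ℕ} (ε0 : Fin r → Fin r → ℤ) (ha : ∀ i j, ε0 j i = - ε0 i j) (L : List (Fin r)) :
    ∃ J : Fin r → Fin r → ℝ,
      (∀ i a, HasDerivAt (fun s : ℝ => Real.log
        (((⟨ε0, fun b => if b = a then Real.exp s else 1⟩ : Seed ℝ r).muts L).y i)) (J i a) 0) ∧
      ∀ i j, ∑ a, ∑ b, J i a * (ε0 a b : ℝ) * J j b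
        = (((⟨ε0, fun _ => (1 : ℝ)⟩ : Seed ℝ r).muts L).ε i j : ℝ) := by
  induction L using List.reverseRecOn with
  | nil =>
    refine ⟨fun i a => if i = a then 1 else 0, ?_, ?_⟩
    · intro i a
      show HasDerivAt (fun s : ℝ => Real.log (if i = a then Real.exp s else 1)) _ 0
      by_cases h : i = a
      · simp only [if_pos h, Real.log_exp]
        exact hasDerivAt_id 0
      · simp only [if_neg h, Real.log_one]
        exact hasDerivAt_const 0 (0 : ℝ)
    · intro i j
      show ∑ a, ∑ b, (if i = a then (1 : ℝ) else 0) * (ε0 a b : ℝ) * (if j = b then 1 else 0) =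
        (ε0 i j : ℝ)
      rw [Finset.sum_eq_single i, Finset.sum_eq_single j]
      · rw [if_pos rfl, if_pos rfl]
        ring
      · intro b _ hb
        rw [if_neg (Ne.symm hb), mul_zero]
      · intro hj
        exact absurd (Finset.mem_univ j) hj
      · intro a _ hai
        refine Finset.sum_eq_zero fun b _ => ?_
        rw [if_neg (Ne.symm hai), zero_mul, zero_mul]
      · intro hi
        exact absurd (Finset.mem_univ i) hi
  | append_singleton L c ih =>
    obtain ⟨J, hJ1, hJ2⟩ := ih
    set s1 : Seed ℝ r := (⟨ε0, fun _ => (1 : ℝ)⟩ : Seed ℝ r).muts L with hs1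
    have hst : ∀ a : Fin r, (fun b : Fin r => if b = a then Real.exp 0 else 1) =
        fun _ => (1 : ℝ) := by
      intro a
      funext b
      rw [Real.exp_zero, ite_self]
    have hq : 0 < s1.y c := jac_pos ε0 L _ (fun _ => one_pos) c
    have hpos : ∀ (a : Fin r) (s : ℝ) (i : Fin r), 0 <
        ((⟨ε0, fun b => if b = a then Real.exp s else 1⟩ : Seed ℝ r).muts L).y i := by
      intro a s i
      refine jac_pos ε0 L _ (fun b => ?_) i
      show 0 < if b = a then Real.exp s else 1
      split_ifs
      · exact Real.exp_pos s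
      · exact one_pos
    refine ⟨fun i => if i = c then - J c else J i +
      (|(s1.ε i c : ℝ)| * (if 0 < s1.ε i c then 1 / (1 + s1.y c) else s1.y c / (1 + s1.y c))) • J c,
      ?_, ?_⟩
    · intro i a
      have hJc := hJ1 c a
      have hu0 : Real.log (((⟨ε0, fun b => if b = a then Real.exp 0 else 1⟩ : Seed ℝ r).muts L).y c)
          = Real.log (s1.y c) := by
        rw [hst a]
      by_cases hi : i = c
      · have hf : (fun s : ℝ => Real.log
            (((⟨ε0, fun b => if b = a then Real.exp s else 1⟩ : Seed ℝ r).muts (L ++ [c])).y i)) =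
            fun s : ℝ => - Real.log
              (((⟨ε0, fun b => if b = a then Real.exp s else 1⟩ : Seed ℝ r).muts L).y c) := by
          funext s
          rw [muts_append, hi]
          show Real.log (if c = c then _ else _) = _
          rw [if_pos rfl, Real.log_inv]
        rw [hf]
        beta_reduce
        rw [if_pos hi]
        exact hJc.neg
      · have hf : (fun s : ℝ => Real.log
            (((⟨ε0, fun b => if b = a then Real.exp s else 1⟩ : Seed ℝ r).muts (L ++ [c])).y i)) =
            fun s : ℝ => Real.log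
              (((⟨ε0, fun b => if b = a then Real.exp s else 1⟩ : Seed ℝ r).muts L).y i) +
              (-(s1.ε i c : ℝ)) * Real.log (1 + Real.exp ((-((s1.ε i c).sign : ℝ)) * Real.log
              (((⟨ε0, fun b => if b = a then Real.exp s else 1⟩ : Seed ℝ r).muts L).y c))) := by
          funext s
          rw [muts_append]
          have hee : ((⟨ε0, fun b => if b = a then Real.exp s else 1⟩ : Seed ℝ r).muts L).ε = s1.ε :=
            muts_eps _ _ _ _
          show Real.log (if i = c then _ else
            ((⟨ε0, fun b => if b = a then Real.exp s else 1⟩ : Seed ℝ r).muts L).y i *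
            (1 + ((⟨ε0, fun b => if b = a then Real.exp s else 1⟩ : Seed ℝ r).muts L).y c ^
            (-(((⟨ε0, fun b => if b = a then Real.exp s else 1⟩ : Seed ℝ r).muts L).ε i c).sign)) ^
            (-(((⟨ε0, fun b => if b = a then Real.exp s else 1⟩ : Seed ℝ r).muts L).ε i c))) = _
          rw [if_neg hi, hee]
          have hyc := hpos a s c
          have hyi := hpos a s i
          set yc := ((⟨ε0, fun b => if b = a then Real.exp s else 1⟩ : Seed ℝ r).muts L).y c
          set yi := ((⟨ε0, fun b => if b = a then Real.exp s else 1⟩ : Seed ℝ r).muts L).y i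
          have h1 : 0 < 1 + yc ^ (-(s1.ε i c).sign) := by positivity
          rw [Real.log_mul hyi.ne' (zpow_pos h1 _).ne', Real.log_zpow]
          have h2 : yc ^ (-(s1.ε i c).sign) = Real.exp ((-((s1.ε i c).sign : ℝ)) * Real.log yc) := by
            rw [← Int.cast_neg, ← Real.log_zpow, Real.exp_log (zpow_pos hyc _)]
          rw [h2, Int.cast_neg]
        rw [hf]
        beta_reduce
        rw [if_neg hi]
        have hd1 : HasDerivAt (fun s : ℝ => 1 + Real.exp ((-((s1.ε i c).sign : ℝ)) * Real.log
              (((⟨ε0, fun b => if b = a then Real.exp s else 1⟩ : Seed ℝ r).muts L).y c)))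
            (Real.exp ((-((s1.ε i c).sign : ℝ)) * Real.log (s1.y c)) *
              ((-((s1.ε i c).sign : ℝ)) * J c a)) 0 := by
          have h3 := ((hJc.const_mul (-((s1.ε i c).sign : ℝ))).exp).const_add (1 : ℝ)
          rw [hu0] at h3
          exact h3
        have hd2 := hd1.log (by rw [hu0]; positivity)
        have hd3 := (hJ1 i a).add (hd2.const_mul (-(s1.ε i c : ℝ)))
        rw [hu0] at hd3
        refine hd3.congr_deriv ?_
        show _ = J i a + (|(s1.ε i c : ℝ)| *
          (if 0 < s1.ε i c then 1 / (1 + s1.y c) else s1.y c / (1 + s1.y c))) * J c a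
        rcases lt_trichotomy (s1.ε i c) 0 with he | he | he
        · have h1 : (s1.ε i c : ℝ) < 0 := by exact_mod_cast he
          rw [if_neg (not_lt.2 he.le), Int.sign_eq_neg_one_of_neg he, abs_of_neg h1]
          have h4 : Real.exp (-((-1 : ℤ) : ℝ) * Real.log (s1.y c)) = s1.y c := by
            rw [Int.cast_neg, Int.cast_one, neg_neg, one_mul, Real.exp_log hq]
          rw [h4]
          push_cast
          ring
        · rw [he]
          simp
        · have h1 : 0 < (s1.ε i c : ℝ) := by exact_mod_cast he
          rw [if_pos he, Int.sign_eq_one_of_pos he, abs_of_pos h1]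
          have h4 : Real.exp (-((1 : ℤ) : ℝ) * Real.log (s1.y c)) = (s1.y c)⁻¹ := by
            rw [Int.cast_one, neg_mul, one_mul, Real.exp_neg, Real.exp_log hq]
          rw [h4]
          have h5 : (s1.y c)⁻¹ / (1 + (s1.y c)⁻¹) = 1 / (1 + s1.y c) := by
            field_simp
            ring
          push_cast
          linear_combination (s1.ε i c : ℝ) * J c a * h5
    · intro i j
      rw [muts_append]
      have hst2 := poisson_step (fun u v => ∑ a, ∑ b, u a * (ε0 a b : ℝ) * v b) ?_ ?_ ?_ s1.ε
        (jac_anti ε0 ha _ L) J hJ2 c (s1.y c) hq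
        (fun i => if 0 < s1.ε i c then 1 / (1 + s1.y c) else s1.y c / (1 + s1.y c)) ?_ ?_ s1.y i j
      · exact hst2
      · intro u v w
        show ∑ a, ∑ b, (u + v) a * (ε0 a b : ℝ) * w b = ∑ a, ∑ b, u a * (ε0 a b : ℝ) * w b +
          ∑ a, ∑ b, v a * (ε0 a b : ℝ) * w b
        rw [← Finset.sum_add_distrib]
        refine Finset.sum_congr rfl fun a _ => ?_
        rw [← Finset.sum_add_distrib]
        refine Finset.sum_congr rfl fun b _ => ?_
        rw [Pi.add_apply]
        ring
      · intro t u w
        show ∑ a, ∑ b, (t • u) a * (ε0 a b : ℝ) * w b = t * ∑ a, ∑ b, u a * (ε0 a b : ℝ) * w b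
        rw [Finset.mul_sum]
        refine Finset.sum_congr rfl fun a _ => ?_
        rw [Finset.mul_sum]
        refine Finset.sum_congr rfl fun b _ => ?_
        rw [Pi.smul_apply, smul_eq_mul]
        ring
      · intro u v
        show ∑ a, ∑ b, v a * (ε0 a b : ℝ) * u b = - ∑ a, ∑ b, u a * (ε0 a b : ℝ) * v b
        rw [Finset.sum_comm, ← Finset.sum_neg_distrib]
        refine Finset.sum_congr rfl fun a _ => ?_
        rw [← Finset.sum_neg_distrib]
        refine Finset.sum_congr rfl fun b _ => ?_
        rw [ha a b]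
        push_cast
        ring
      · intro i hi
        exact if_pos hi
      · intro i hi
        exact if_neg (not_lt.2 hi.le)

end Pool.Agent.Lib.MP_d4c67c_gt
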