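import Pool.Agent.Lib.MP_d4c67c_gt.Dens
import Pool.Agent.Lib.MP_d4c67c_gt.Jac

/-!
# JOB Neg: a seed is not mutation equivalent to its dual

(You may use `Dens`, `Rep`, `Jac`, `TriA`, …, which are other jobs.)
-/

namespace Pool.Agent.Lib.MP_d4c67c_gt

open MvPolynomial

variable {k : Type*} [Field k]

private theorem Neg_epsW_anti (r : ℕ) (i j : Fin r) : epsW r wD j i = - epsW r wD i j := by
  unfold epsW
  by_cases h1 : j.val = i.val + 1
  · have h2 : ¬ (i.val = j.val + 1) := by omega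
    rw [if_neg h2, if_pos h1, if_pos h1]
    simp
  · by_cases h2 : i.val = j.val + 1
    · rw [if_pos h2, if_neg h1, if_pos h2]
      simp
    · rw [if_neg h2, if_neg h1, if_neg h1, if_neg h2]
      simp

private theorem Neg_T (l : ℕ) (F : Fr (l + 2) k) :
    T l (-1) wD F = ⟨epsW (l - 1) wD, (T l (-1) wD F).y⟩ := rfl

/-- two seed sequences which are inverse to each other at all generic points are inverse to each other
at all positive real points -/
private theorem Neg_log [CharZero k] (l : ℕ) (ho : Odd l) (h3 : 3 ≤ l) (a0 : A k l) (ha : a0 ≠ 0)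
    (L L' : List (Fin (l - 1))) (e : Fin (l - 1) ≃ Fin (l - 1))
    (hyp : ∀ F : Fr (l + 2) k, Gen F → lift F a0 ≠ 0 →
      ((T l (-1) wD F).muts L).relabel e = ((T l (-1) wD F).muts L').anti) (i : Fin (l - 1))
    (y : Fin (l - 1) → ℝ) (hy : ∀ b, 0 < y b) :
    Real.log (((⟨epsW (l - 1) wD, y⟩ : Seed ℝ (l - 1)).muts L).y (e.symm i))
      = - Real.log (((⟨epsW (l - 1) wD, y⟩ : Seed ℝ (l - 1)).muts L').y i) := by
  obtain ⟨a, b, D, hD, hk, hr⟩ := rep k (epsW (l - 1) wD) L
  obtain ⟨a', b', D', hD', hk', hr'⟩ := rep k (epsW (l - 1) wD) L'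
  have key : a (e.symm i) * a' i - b (e.symm i) * b' i = 0 := by
    by_contra hne
    have hP : (a (e.symm i) * a' i - b (e.symm i) * b' i) * D * D' ≠ 0 :=
      mul_ne_zero (mul_ne_zero hne hD) hD'
    have hH : MvPolynomial.map (Int.castRingHom k)
        ((a (e.symm i) * a' i - b (e.symm i) * b' i) * D * D') ≠ 0 := by
      intro h0
      apply hP
      apply MvPolynomial.map_injective (Int.castRingHom k) (RingHom.injective_int _)
      rw [h0, map_zero]
    obtain ⟨F, hF, hl, hev⟩ := dens l ho h3 a0 ha _ hH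
    obtain ⟨z, hz⟩ : ∃ z, z = (T l (-1) wD F).y := ⟨_, rfl⟩
    have hconv : ∀ p : MvPolynomial (Fin (l - 1)) ℤ,
        eval z (MvPolynomial.map (Int.castRingHom k) p) = aeval z p := by
      intro p
      rw [eval_map]
      rfl
    rw [← hz, hconv, map_mul, map_mul, map_sub, map_mul, map_mul] at hev
    have hev1 : aeval z D ≠ 0 := by
      intro h0
      apply hev
      rw [h0]
      ring
    have hev2 : aeval z D' ≠ 0 := by
      intro h0
      apply hev
      rw [h0]
      ring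
    obtain ⟨p1, p2, p3⟩ := hk z hev1 (e.symm i)
    obtain ⟨p1', p2', p3'⟩ := hk' z hev2 i
    have hs := congrFun (congrArg Seed.y (hyp F hF hl)) i
    rw [Neg_T] at hs
    rw [← hz] at hs
    change ((⟨epsW (l - 1) wD, z⟩ : Seed k (l - 1)).muts L).y (e.symm i) =
      (((⟨epsW (l - 1) wD, z⟩ : Seed k (l - 1)).muts L').y i)⁻¹ at hs
    rw [p3, p3', inv_div, div_eq_div_iff p2 p1'] at hs
    apply hev
    rw [hs]
    ring
  obtain ⟨-, q⟩ := hr y hy
  obtain ⟨q1, q2, q3⟩ := q (e.symm i)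
  obtain ⟨-, q'⟩ := hr' y hy
  obtain ⟨q1', q2', q3'⟩ := q' i
  have h1 := congrArg (aeval y : MvPolynomial (Fin (l - 1)) ℤ → ℝ) key
  rw [map_sub, map_mul, map_mul, map_zero, sub_eq_zero] at h1
  rw [q3, q3', ← Real.log_inv, inv_div]
  congr 1
  rw [div_eq_div_iff q2.ne' q1'.ne', h1]
  ring

/-- `rep k ε L`, `rep k ε L'` (`ε = epsW (l-1) wD`) give polynomials `a i, b i, D`, `a' i, b' i, D'` over `ℤ`.  Let
`i : Fin (l-1)`, `i' = e.symm i`, `Hi = a i' * a' i - b i' * b' i`.  Claim `Hi = 0`.  Otherwise the image `H` of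
`Hi * D * D'` in `k[Y]` is not zero (`ℤ → k` injective), and `dens` gives a generic `F` with `lift F a0 ≠ 0` and
`H(y) ≠ 0`, `y = (T l (-1) wD F).y`; the hypothesis says
`a i'(y) / b i'(y) = (a' i(y) / b' i(y))⁻¹`, so `Hi(y) = 0`: contradiction.
Hence at all positive real points, in particular along the curves of `jac`,
`log (y^L i') = - log (y^{L'} i)`.  Let `J`, `J'` be the Jacobians of `jac` for `L`, `L'`
(`epsW` is antisymmetric).  By uniqueness of derivatives `J i' a = - J' i a`, so by the second part of `jac`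
`ε^L i' j' = ε^{L'} i j` for all `i, j`.  On the other hand, evaluating the hypothesis at one `F` (from `dens` with `H = 1`;
`muts_eps` to pass from `k` to `ℝ`), `ε^L i' j' = - ε^{L'} i j`.  So `ε^{L'} = 0`, but `ε^{L'} = epsW (l-1) w''` has the entry
`(0,1)` equal to `±1` (`l - 1 ≥ 2`): contradiction. -/
theorem no_anti [CharZero k] (l : ℕ) (ho : Odd l) (h3 : 3 ≤ l) (a0 : A k l) (ha : a0 ≠ 0)
    (L L' : List (Fin (l - 1))) (e : Fin (l - 1) ≃ Fin (l - 1)) (w'' : ℕ → Bool)
    (hyp : ∀ F : Fr (l + 2) k, Gen F → lift F a0 ≠ 0 →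
      ((T l (-1) wD F).muts L).relabel e = ((T l (-1) wD F).muts L').anti ∧
      ((T l (-1) wD F).muts L').ε = epsW (l - 1) w'') : False := by
  have hlog := Neg_log l ho h3 a0 ha L L' e (fun F h1 h2 => (hyp F h1 h2).1)
  obtain ⟨J, hJ1, hJ2⟩ := jac (epsW (l - 1) wD) (Neg_epsW_anti (l - 1)) L
  obtain ⟨J', hJ1', hJ2'⟩ := jac (epsW (l - 1) wD) (Neg_epsW_anti (l - 1)) L'
  have hJJ : ∀ i a, J (e.symm i) a = - J' i a := by
    intro i a
    have h1 := hJ1 (e.symm i) a
    have h2 := (hJ1' i a).neg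
    have hfun : (fun s : ℝ => Real.log (((⟨epsW (l - 1) wD, fun b => if b = a then Real.exp s else 1⟩ :
          Seed ℝ (l - 1)).muts L).y (e.symm i))) =
        -(fun s : ℝ => Real.log (((⟨epsW (l - 1) wD, fun b => if b = a then Real.exp s else 1⟩ :
          Seed ℝ (l - 1)).muts L').y i)) := by
      funext s
      rw [Pi.neg_apply]
      refine hlog i _ (fun b => ?_)
      by_cases hb : b = a
      · rw [if_pos hb]
        exact Real.exp_pos s
      · rw [if_neg hb]
        exact one_pos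
    rw [hfun] at h1
    exact h1.unique h2
  obtain ⟨i, hi⟩ : ∃ i : Fin (l - 1), i.val = 0 := ⟨⟨0, by omega⟩, rfl⟩
  obtain ⟨j, hj⟩ : ∃ j : Fin (l - 1), j.val = 1 := ⟨⟨1, by omega⟩, rfl⟩
  obtain ⟨F, hF, hl, -⟩ := dens l ho h3 a0 ha 1 one_ne_zero
  obtain ⟨hs, hw⟩ := hyp F hF hl
  have e1 : ((⟨epsW (l - 1) wD, fun _ => (1 : ℝ)⟩ : Seed ℝ (l - 1)).muts L).ε =
      ((T l (-1) wD F).muts L).ε := by
    rw [Neg_T]
    exact muts_eps _ _ _ L
  have e2 : ((⟨epsW (l - 1) wD, fun _ => (1 : ℝ)⟩ : Seed ℝ (l - 1)).muts L').ε =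
      ((T l (-1) wD F).muts L').ε := by
    rw [Neg_T]
    exact muts_eps _ _ _ L'
  have h1 := hJ2 (e.symm i) (e.symm j)
  have h2 := hJ2' i j
  have h3' : ∑ a, ∑ b, J (e.symm i) a * (epsW (l - 1) wD a b : ℝ) * J (e.symm j) b =
      ∑ a, ∑ b, J' i a * (epsW (l - 1) wD a b : ℝ) * J' j b := by
    refine Finset.sum_congr rfl fun a _ => Finset.sum_congr rfl fun b _ => ?_
    rw [hJJ, hJJ]
    ring
  rw [h1, h2, e1, e2] at h3'
  have h4 : ((T l (-1) wD F).muts L).ε (e.symm i) (e.symm j) =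
      - ((T l (-1) wD F).muts L').ε i j :=
    congrFun (congrFun (congrArg Seed.ε hs) i) j
  have h5 : ((T l (-1) wD F).muts L).ε (e.symm i) (e.symm j) =
      ((T l (-1) wD F).muts L').ε i j := by
    exact_mod_cast h3'
  have h6 : ((T l (-1) wD F).muts L').ε i j = epsW (l - 1) w'' i j := by
    rw [hw]
  have h7 : epsW (l - 1) w'' i j ≠ 0 := by
    unfold epsW
    rw [if_pos (by omega)]
    split_ifs <;> norm_num
  omega

end Pool.Agent.Lib.MP_d4c67c_gt
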