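import Pool.Agent.Lib.MP_d4c67c_gt.Dihed
import Pool.Agent.Lib.MP_d4c67c_gt.CfD
import Pool.Agent.Lib.MP_d4c67c_gt.Lnk
import Pool.Agent.Lib.MP_d4c67c_gt.Conn
import Pool.Agent.Lib.MP_d4c67c_gt.Neg

/-!
# Final assembly
-/

namespace Pool.Agent.Lib.MP_d4c67c_gt

open MvPolynomial

universe u

section rel

variable {K : Type u} [Field K]

/-- `F'` is a rotation of `F` (orders written separately, integer labels) -/
def RotRel {l l' : ℕ} (F : Fr (l + 2) K) (F' : Fr (l' + 2) K) (c : ℤ) : Prop :=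
  ∀ i j : ℤ, F'.x (i : ZMod (l' + 2)) (j : ZMod (l' + 2))
    = F.x ((i + c : ℤ) : ZMod (l + 2)) ((j + c : ℤ) : ZMod (l + 2))

/-- `F'` is a reflection of `F` -/
def RefRel {l l' : ℕ} (F : Fr (l + 2) K) (F' : Fr (l' + 2) K) (c : ℤ) : Prop :=
  ∀ i j : ℤ, F'.x (i : ZMod (l' + 2)) (j : ZMod (l' + 2))
    = F.x ((c - j : ℤ) : ZMod (l + 2)) ((c - i : ℤ) : ZMod (l + 2))

theorem RotRel.eq {l : ℕ} {F F' : Fr (l + 2) K} {c : ℤ} (h : RotRel F F' c) :
    F' = F.rot (c : ZMod (l + 2)) := by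
  apply Fr.ext
  funext i j
  obtain ⟨i, rfl⟩ := ZMod.intCast_surjective i
  obtain ⟨j, rfl⟩ := ZMod.intCast_surjective j
  rw [h i j]
  push_cast
  rfl

theorem RefRel.eq {l : ℕ} {F F' : Fr (l + 2) K} {c : ℤ} (h : RefRel F F' c) :
    F' = (F.rot (c : ZMod (l + 2))).refl := by
  apply Fr.ext
  funext i j
  obtain ⟨i, rfl⟩ := ZMod.intCast_surjective i
  obtain ⟨j, rfl⟩ := ZMod.intCast_surjective j
  rw [h i j]
  show _ = F.x (-(j : ZMod (l + 2)) + c) (-(i : ZMod (l + 2)) + c)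
  push_cast
  congr 1 <;> ring

theorem relabel_refl {r : ℕ} (s : Seed K r) : s.relabel (Equiv.refl _) = s := rfl

theorem muts_append_list {r : ℕ} (s : Seed K r) (L L' : List (Fin r)) :
    s.muts (L ++ L') = (s.muts L).muts L' := by
  unfold Seed.muts
  rw [List.foldl_append]

theorem rot_seed {l l' : ℕ} (hl : l' = l) (hl2 : 2 ≤ l) (c : ℤ) (w w' : ℕ → Bool) :
    ∃ (L : List (Fin (l - 1))) (e : Fin (l - 1) ≃ Fin (l' - 1)),
      ∀ (F : Fr (l + 2) K) (F' : Fr (l' + 2) K), Gen F → RotRel F F' c →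
        ((T l (-1) w F).muts L).relabel e = T l' (-1) w' F' := by
  subst hl
  obtain ⟨L, hL⟩ := conn K l' hl2 (-1) (-1 + (c : ZMod (l' + 2))) w w'
  refine ⟨L, Equiv.refl _, ?_⟩
  intro F F' hF h
  rw [h.eq, T_rot, relabel_refl, hL F hF]

end rel

section pos

/-- `nU` of the word `U^m D^n` -/
theorem nU_std (m t : ℕ) : nU (fun i => decide (i < m)) t = min t m := by
  induction t with
  | zero => simp [nU]
  | succ t ih =>
    simp only [nU, ih]
    by_cases h : t < m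
    · simp only [h, decide_true, if_true]; omega
    · simp only [h, decide_false]
      simp only [Bool.false_eq_true, if_false]; omega

variable {k : Type u} [Field k] [IsAlgClosed k] [CharZero k] {m n m' n' : ℕ}

/-- product of all entries `x i j`, `i ≠ j` -/
noncomputable def allx (k : Type u) [Field k] (l : ℕ) : A k l :=
  ∏ i : ZMod (l + 2), ∏ j : ZMod (l + 2), if i = j then 1 else (univ k l).x i j

theorem allx_ne_zero (l : ℕ) (h3 : 3 ≤ l) : allx k l ≠ 0 := by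
  haveI := A_isDomain (k := k) l (Or.inr h3)
  unfold allx
  rw [Finset.prod_ne_zero_iff]
  intro i _
  rw [Finset.prod_ne_zero_iff]
  intro j _
  by_cases h : i = j
  · simp [h]
  · simp only [h, if_false]
    exact univ_ne_zero l h3 i j h

theorem gen_of_allx {l : ℕ} (F : Fr (l + 2) k) (h : lift F (allx k l) ≠ 0) : Gen F := by
  intro i j hij h0
  apply h
  unfold allx
  rw [map_prod]
  apply Finset.prod_eq_zero (Finset.mem_univ i)
  rw [map_prod]
  apply Finset.prod_eq_zero (Finset.mem_univ j)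
  simp only [hij, if_false]
  rw [lift_univ, h0]

theorem pos_part (ho : Odd (m + n)) (ho' : Odd (m' + n')) (h3 : 3 ≤ m + n) (hl : m' + n' = m + n)
    (Φ : Conf k m n → Conf k m' n') (c : ℤ)
    (h : ∀ P, RotRel (frz ho P) (frz ho' (Φ P)) c) : IsClusterPoisson Φ := by
  obtain ⟨L, e, hL⟩ := rot_seed (K := k) hl (by omega) c (fun i => decide (i < m))
    (fun i => decide (i < m'))
  refine ⟨fun i => decide (i < m), fun i => decide (i < m'), L, e,
    fun P => lift (frz ho P) (allx k (m + n)), ?_, ?_, reg_of_A ho _, ?_, ?_⟩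
  · rw [nU_std]; omega
  · rw [nU_std]; omega
  · by_contra hcon
    push Not at hcon
    apply allx_ne_zero (k := k) (m + n) h3
    apply eval_inj (m + n) (Or.inr h3)
    intro F
    have := hcon (Quotient.mk _ (cfgOf F))
    rwa [frz_cfgOf] at this
  · intro p q hpq hf
    have hgen := gen_of_allx _ hf
    rw [seedOf_eq ho _ (by rw [nU_std]; omega) p, seedOf_eq ho' _ (by rw [nU_std]; omega) q]
    apply hL _ _ hgen
    rw [← hpq]
    exact h _

end pos

section neg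

variable {k : Type u} [Field k] [IsAlgClosed k] [CharZero k]

theorem neg_abs {l l' : ℕ} (hl : l' = l) (ho : Odd l) (h3 : 3 ≤ l) (c : ℤ) (a0 : A k l) (ha : a0 ≠ 0)
    (L : List (Fin (l - 1))) (e : Fin (l - 1) ≃ Fin (l' - 1)) (w w' : ℕ → Bool)
    (hyp : ∀ F : Fr (l + 2) k, Gen F → lift F a0 ≠ 0 →
      ∃ F' : Fr (l' + 2) k, RefRel F F' c ∧ ((T l (-1) w F).muts L).relabel e = T l' (-1) w' F') :
    False := by
  subst hl
  obtain ⟨L1, hL1⟩ := conn k l' (by omega) (-1) (-1) wD w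
  obtain ⟨L2, hL2⟩ := conn k l' (by omega) (-1) (-(-1) - 1 + (c : ZMod (l' + 2))) wD (fun i => !(w' i))
  refine no_anti (k := k) l' ho h3 a0 ha (L1 ++ L) L2 e (fun i => !(w' i)) ?_
  intro F hF hFa
  obtain ⟨F', hF', heq⟩ := hyp F hF hFa
  rw [muts_append_list, hL1 F hF, heq, hL2 F hF, hF'.eq, T_refl, T_rot]
  exact ⟨rfl, rfl⟩

variable {m n m' n' : ℕ}

theorem neg_part (ho : Odd (m + n)) (ho' : Odd (m' + n')) (h3 : 3 ≤ m + n) (hl : m' + n' = m + n)
    (Φ : Conf k m n → Conf k m' n') (c : ℤ)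
    (h : ∀ P, RefRel (frz ho P) (frz ho' (Φ P)) c) : ¬ IsClusterPoisson Φ := by
  rintro ⟨w, w', L, e, f, hw, hw', hreg, ⟨P0, hP0⟩, hall⟩
  obtain ⟨a0, ha0⟩ := A_of_reg ho f hreg
  have hne : a0 ≠ 0 := by
    rintro rfl
    apply hP0
    rw [ha0, map_zero]
  refine neg_abs (k := k) hl ho h3 c a0 hne L e w w' ?_
  intro F hF hFa
  obtain ⟨q, hq⟩ := Quotient.exists_rep (Φ (Quotient.mk _ (cfgOf F)))
  have h1 := h (Quotient.mk _ (cfgOf F))
  rw [frz_cfgOf] at h1
  refine ⟨_, h1, ?_⟩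
  have h2 := hall (cfgOf F) q hq.symm (by rw [ha0, frz_cfgOf]; exact hFa)
  rw [seedOf_eq ho w hw, seedOf_eq ho' w' hw', frz_cfgOf, hq] at h2
  exact h2

theorem rev_of_ref (ho : Odd (m + n)) (ho' : Odd (m' + n'))
    (Φ : Conf k m n → Conf k m' n') (c : ℤ)
    (h : ∀ P, RefRel (frz ho P) (frz ho' (Φ P)) c) :
    ∀ P, RotRel (frz ho P) (frz ho' ((rev ∘ Φ) P)) (c - m') := by
  intro P i j
  show (frz ho' (rev (Φ P))).x _ _ = _
  rw [frz_rev]
  show (frz ho' (Φ P)).x (-(j : ZMod (m' + n' + 2)) + (m' : ZMod (m' + n' + 2)))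
    (-(i : ZMod (m' + n' + 2)) + (m' : ZMod (m' + n' + 2))) = _
  have := h P (-j + m') (-i + m')
  push_cast at this ⊢
  rw [this]
  congr 1 <;> ring

theorem rev_of_rot (ho : Odd (m + n)) (ho' : Odd (m' + n'))
    (Φ : Conf k m n → Conf k m' n') (c : ℤ)
    (h : ∀ P, RotRel (frz ho P) (frz ho' (Φ P)) c) :
    ∀ P, RefRel (frz ho P) (frz ho' ((rev ∘ Φ) P)) (c + m') := by
  intro P i j
  show (frz ho' (rev (Φ P))).x _ _ = _
  rw [frz_rev]
  show (frz ho' (Φ P)).x (-(j : ZMod (m' + n' + 2)) + (m' : ZMod (m' + n' + 2)))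
    (-(i : ZMod (m' + n' + 2)) + (m' : ZMod (m' + n' + 2))) = _
  have := h P (-j + m') (-i + m')
  push_cast at this ⊢
  rw [this]
  congr 1 <;> ring

theorem main (ho : Odd (m + n)) (h3 : 3 ≤ m + n) (ho' : Odd (m' + n')) (h3' : 3 ≤ m' + n')
    (Φ : Conf k m n ≃ Conf k m' n') (h1 : IsRegularMap Φ) (h2 : IsRegularMap Φ.symm) :
    m + n = m' + n' ∧ Xor (IsClusterPoisson Φ) (IsClusterPoisson (rev ∘ Φ)) := by
  obtain ⟨ψ, hψ⟩ := exists_psi ho ho' Φ h1 h2
  obtain ⟨hl, c, hc⟩ := ring_main ho h3 ho' h3' ψ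
  refine ⟨hl.symm, ?_⟩
  rcases hc with hc | hc
  · have hr : ∀ P, RotRel (frz ho P) (frz ho' (Φ P)) c := by
      intro P i j
      have := hψ P ((univ k (m' + n')).x (i : ZMod (m' + n' + 2)) (j : ZMod (m' + n' + 2)))
      rw [hc, lift_univ, lift_univ] at this
      exact this
    left
    exact ⟨pos_part ho ho' h3 hl Φ c hr,
      neg_part ho ho' h3 hl (rev ∘ Φ) (c + m') (rev_of_rot ho ho' Φ c hr)⟩
  · have hr : ∀ P, RefRel (frz ho P) (frz ho' (Φ P)) c := by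
      intro P i j
      have := hψ P ((univ k (m' + n')).x (i : ZMod (m' + n' + 2)) (j : ZMod (m' + n' + 2)))
      rw [hc, lift_univ, lift_univ] at this
      exact this
    right
    exact ⟨pos_part ho ho' h3 hl (rev ∘ Φ) (c - m') (rev_of_ref ho ho' Φ c hr),
      neg_part ho ho' h3 hl Φ c hr⟩

end neg

end Pool.Agent.Lib.MP_d4c67c_gt
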