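import Mathlib

/-!
# Friezes (polygons in the plane with consecutive determinants one, up to `SL_2`)

`Fr N R`: families `x i j` (`i j : ZMod N`), alternating, with the Plücker relations and `x i (i+1) = 1`.
`Ws b : ℕ → R × R` is the path `W 0 = (1,0)`, `W 1 = (0,1)`, `W (n+2) = b n • W (n+1) - W n`.
-/

namespace Pool.Agent.Lib.MP_d4c67c_gt

/-- determinant of two plane vectors (written as pairs) -/
def dt {R : Type*} [CommRing R] (v w : R × R) : R := v.1 * w.2 - v.2 * w.1

/-- A closed frieze of order `N` with values in `R`: a polygon `W : ZMod N → R²` with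
`det (W i) (W (i+1)) = 1`, recorded by all its determinants `x i j = det (W i) (W j)`. -/
@[ext] structure Fr (N : ℕ) (R : Type*) [CommRing R] where
  x : ZMod N → ZMod N → R
  self : ∀ i, x i i = 0
  anti : ∀ i j, x j i = - x i j
  pl : ∀ i j k l, x i j * x k l - x i k * x j l + x i l * x j k = 0
  one : ∀ i, x i (i + 1) = 1

namespace Fr

variable {N : ℕ} {R S : Type*} [CommRing R] [CommRing S]

/-- image of a frieze under a ring homomorphism -/
def map (f : R →+* S) (F : Fr N R) : Fr N S where
  x i j := f (F.x i j)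
  self i := by rw [F.self, map_zero]
  anti i j := by rw [F.anti, map_neg]
  pl i j k l := by
    have h := congrArg f (F.pl i j k l)
    simpa only [map_add, map_sub, map_mul, map_zero] using h
  one i := by rw [F.one, map_one]

/-- rotation of a frieze -/
def rot (c : ZMod N) (F : Fr N R) : Fr N R where
  x i j := F.x (i + c) (j + c)
  self i := F.self _
  anti i j := F.anti _ _
  pl i j k l := F.pl _ _ _ _
  one i := by rw [add_right_comm]; exact F.one _

/-- reflection of a frieze -/
def refl (F : Fr N R) : Fr N R where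
  x i j := F.x (-j) (-i)
  self i := F.self _
  anti i j := F.anti _ _
  pl i j k l := by
    have h := F.pl (-l) (-k) (-j) (-i)
    linear_combination h
  one i := by
    have h := F.one (-(i + 1))
    have e : -(i + 1) + 1 = -i := by ring
    rwa [e] at h

/-- the frieze of a polygon -/
def ofPoly (W : ZMod N → R × R) (hW : ∀ i, dt (W i) (W (i + 1)) = 1) : Fr N R where
  x i j := dt (W i) (W j)
  self i := by unfold dt; ring
  anti i j := by unfold dt; ring
  pl i j k l := by unfold dt; ring
  one i := hW i

end Fr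

/-- the path defined by a sequence `b`: `W 0 = (1,0)`, `W 1 = (0,1)`, `W (n+2) = b n • W (n+1) - W n` -/
def Ws {R : Type*} [CommRing R] (b : ℕ → R) : ℕ → R × R
  | 0 => (1, 0)
  | 1 => (0, 1)
  | (n + 2) => (b n * (Ws b (n + 1)).1 - (Ws b n).1, b n * (Ws b (n + 1)).2 - (Ws b n).2)

section Ws

variable {R S : Type*} [CommRing R] [CommRing S]

theorem dt_self (v : R × R) : dt v v = 0 := by unfold dt; ring

theorem dt_Ws_succ (b : ℕ → R) (n : ℕ) : dt (Ws b n) (Ws b (n + 1)) = 1 := by
  induction n with
  | zero => simp [dt, Ws]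
  | succ n ih =>
    simp only [dt, Ws] at ih ⊢
    linear_combination ih

theorem Ws_congr {b b' : ℕ → R} {n : ℕ} (h : ∀ i, i + 2 ≤ n → b i = b' i) : Ws b n = Ws b' n := by
  induction n using Nat.strong_induction_on with
  | _ n ih =>
    match n, ih, h with
    | 0, _, _ => rfl
    | 1, _, _ => rfl
    | (n + 2), ih, h =>
      have h1 := ih (n + 1) (by omega) (fun i hi => h i (by omega))
      have h2 := ih n (by omega) (fun i hi => h i (by omega))
      simp only [Ws, h1, h2, h n le_rfl]

theorem Ws_map (f : R →+* S) (b : ℕ → R) (n : ℕ) :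
    Ws (fun i => f (b i)) n = (f (Ws b n).1, f (Ws b n).2) := by
  induction n using Nat.strong_induction_on with
  | _ n ih =>
    match n, ih with
    | 0, _ => simp [Ws]
    | 1, _ => simp [Ws]
    | (n + 2), ih =>
      have h1 := ih (n + 1) (by omega)
      have h2 := ih n (by omega)
      simp only [Ws, h1, h2, map_sub, map_mul]

/-- sign rule: `Ws (-b) n = ((-1)^n (Ws b n).1, (-1)^(n+1) (Ws b n).2)` -/
theorem Ws_neg (b : ℕ → R) (n : ℕ) :
    Ws (fun i => - b i) n = ((-1) ^ n * (Ws b n).1, (-1) ^ (n + 1) * (Ws b n).2) := by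
  induction n using Nat.strong_induction_on with
  | _ n ih =>
    match n, ih with
    | 0, _ => simp [Ws]
    | 1, _ => simp [Ws]
    | (n + 2), ih =>
      have h1 := ih (n + 1) (by omega)
      have h2 := ih n (by omega)
      simp only [Ws, h1, h2, Prod.mk.injEq]
      constructor <;> ring

end Ws

section closed

variable {R S : Type*} [CommRing R] [CommRing S]

/-- the frieze of order `l + 2` of a sequence `b 0, …, b (l-1)` with continuant `-1` -/
def ofSeq (l : ℕ) (b : ℕ → R) (hb : (Ws b (l + 1)).2 = -1) : Fr (l + 2) R :=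
  Fr.ofPoly (fun i => Ws b i.val) (by
    intro i
    have hv := ZMod.val_lt i
    by_cases h : i.val + 1 < l + 2
    · have : (i + 1).val = i.val + 1 := by
        rw [ZMod.val_add_of_lt]
        · rw [ZMod.val_one'' (by omega)]
        · rw [ZMod.val_one'' (by omega)]; exact h
      simp only [this, dt_Ws_succ]
    · have h1 : i.val = l + 1 := by omega
      have : (i + 1).val = 0 := by
        rw [ZMod.val_eq_zero]
        have : i = ((l + 1 : ℕ) : ZMod (l + 2)) := by
          rw [← h1, ZMod.natCast_zmod_val]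
        rw [this]
        have := ZMod.natCast_self (l + 2)
        push_cast at this ⊢
        linear_combination this
      simp only [this, h1, Ws, dt, hb]
      ring)

theorem ofSeq_x (l : ℕ) (b : ℕ → R) (hb : (Ws b (l + 1)).2 = -1) (i j : ZMod (l + 2)) :
    (ofSeq l b hb).x i j = dt (Ws b i.val) (Ws b j.val) := rfl

theorem ofSeq_short (l : ℕ) (b : ℕ → R) (hb : (Ws b (l + 1)).2 = -1) (j : ℕ) (hj : j < l) :
    (ofSeq l b hb).x (j : ZMod (l + 2)) ((j : ZMod (l + 2)) + 2) = b j := by
  rw [ofSeq_x]
  have h1 : ((j : ZMod (l + 2))).val = j := ZMod.val_natCast_of_lt (by omega)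
  have h2 : ((j : ZMod (l + 2)) + 2).val = j + 2 := by
    have : ((j : ZMod (l + 2)) + 2) = ((j + 2 : ℕ) : ZMod (l + 2)) := by push_cast; ring
    rw [this]
    exact ZMod.val_natCast_of_lt (by omega)
  rw [h1, h2]
  have := dt_Ws_succ b j
  simp only [Ws, dt] at this ⊢
  linear_combination (b j) * this

/-- a frieze is recovered from its path -/
theorem Fr.path {l : ℕ} (F : Fr (l + 2) R) (n : ℕ) :
    Ws (fun j => F.x (j : ZMod (l + 2)) ((j : ZMod (l + 2)) + 2)) n
      = (F.x (n : ZMod (l + 2)) 1, F.x 0 (n : ZMod (l + 2))) := by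
  induction n using Nat.strong_induction_on with
  | _ n ih =>
    match n, ih with
    | 0, _ =>
      have := F.one 0
      rw [zero_add] at this
      simp [Ws, F.self, this]
    | 1, _ =>
      have := F.one 0
      rw [zero_add] at this
      simp [Ws, F.self, this]
    | (n + 2), ih =>
      have h1 := ih (n + 1) (by omega)
      have h2 := ih n (by omega)
      simp only [Ws, h1, h2, Prod.mk.injEq]
      have e1 : ((n + 1 : ℕ) : ZMod (l + 2)) = (n : ZMod (l + 2)) + 1 := by push_cast; ring
      have e2 : ((n + 2 : ℕ) : ZMod (l + 2)) = (n : ZMod (l + 2)) + 2 := by push_cast; ring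
      have e3 : (n : ZMod (l + 2)) + 1 + 1 = (n : ZMod (l + 2)) + 2 := by ring
      rw [e1, e2]
      set a : ZMod (l + 2) := (n : ZMod (l + 2)) with ha
      have o1 := F.one a
      have o2 := F.one (a + 1)
      rw [e3] at o2
      constructor
      · have h := F.pl a (a + 1) (a + 2) 1
        rw [o1, o2] at h
        linear_combination -h
      · have h := F.pl 0 a (a + 1) (a + 2)
        rw [o1, o2] at h
        linear_combination -h

theorem Fr.x_eq {l : ℕ} (F : Fr (l + 2) R) (i j : ZMod (l + 2)) :
    F.x i j = dt (F.x i 1, F.x 0 i) (F.x j 1, F.x 0 j) := by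
  have h := F.pl 0 1 i j
  have o := F.one 0
  rw [zero_add] at o
  rw [o, F.anti i 1, F.anti j 1] at h
  simp only [dt]
  linear_combination h

/-- a frieze of order `l + 2` is determined by the `l` entries `x j (j+2)`, `j < l` -/
theorem Fr.ext_short {l : ℕ} (F G : Fr (l + 2) R)
    (h : ∀ j : ℕ, j < l → F.x (j : ZMod (l + 2)) ((j : ZMod (l + 2)) + 2)
      = G.x (j : ZMod (l + 2)) ((j : ZMod (l + 2)) + 2)) : F = G := by
  have key : ∀ i : ZMod (l + 2), (F.x i 1, F.x 0 i) = (G.x i 1, G.x 0 i) := by
    intro i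
    have h1 := F.path i.val
    have h2 := G.path i.val
    rw [ZMod.natCast_zmod_val] at h1 h2
    rw [← h1, ← h2]
    apply Ws_congr
    intro j hj
    have := ZMod.val_lt i
    exact h j (by omega)
  have : F.x = G.x := by
    funext i j
    rw [F.x_eq, G.x_eq, key i, key j]
  exact Fr.ext this

theorem Fr.closed {l : ℕ} (F : Fr (l + 2) R) :
    (Ws (fun j => F.x (j : ZMod (l + 2)) ((j : ZMod (l + 2)) + 2)) (l + 1)).2 = -1 := by
  rw [F.path]
  have h := F.one ((l + 1 : ℕ) : ZMod (l + 2))
  have e : ((l + 1 : ℕ) : ZMod (l + 2)) + 1 = 0 := by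
    have := ZMod.natCast_self (l + 2)
    push_cast at this ⊢
    linear_combination this
  rw [e] at h
  show F.x 0 ((l + 1 : ℕ) : ZMod (l + 2)) = -1
  rw [F.anti ((l + 1 : ℕ) : ZMod (l + 2)) 0, h]

end closed

section ring

open MvPolynomial

variable (k : Type*) [Field k]

/-- the variables `X_0, …, X_(l-1)` as a sequence -/
noncomputable def vr (l : ℕ) : ℕ → MvPolynomial (Fin l) k :=
  fun j => if h : j < l then X ⟨j, h⟩ else 0

/-- the relation `K(X_0, …, X_(l-1)) + 1` -/
noncomputable def rel (l : ℕ) : MvPolynomial (Fin l) k := (Ws (vr k l) (l + 1)).2 + 1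

/-- the coordinate ring of the variety of closed friezes of order `l + 2` -/
abbrev A (l : ℕ) : Type _ := MvPolynomial (Fin l) k ⧸ Ideal.span {rel k l}

/-- generators of `A` -/
noncomputable def gen (l : ℕ) (j : ℕ) : A k l := Ideal.Quotient.mk _ (vr k l j)

theorem gen_closed (l : ℕ) : (Ws (gen k l) (l + 1)).2 = -1 := by
  have h1 : (Ws (gen k l) (l + 1)).2
      = Ideal.Quotient.mk (Ideal.span {rel k l}) ((Ws (vr k l) (l + 1)).2) := by
    have := Ws_map (Ideal.Quotient.mk (Ideal.span {rel k l})) (vr k l) (l + 1)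
    exact congrArg Prod.snd this
  have h2 : Ideal.Quotient.mk (Ideal.span {rel k l}) (rel k l) = 0 :=
    Ideal.Quotient.eq_zero_iff_mem.mpr (Ideal.mem_span_singleton_self _)
  have h3 : Ideal.Quotient.mk (Ideal.span {rel k l}) (rel k l)
      = Ideal.Quotient.mk (Ideal.span {rel k l}) ((Ws (vr k l) (l + 1)).2) + 1 := by
    have h4 : rel k l = (Ws (vr k l) (l + 1)).2 + 1 := rfl
    exact (congrArg (Ideal.Quotient.mk (Ideal.span {rel k l})) h4).trans (by rw [map_add, map_one])
  rw [h3, ← h1] at h2
  linear_combination h2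

/-- the universal closed frieze of order `l + 2` -/
noncomputable def univ (l : ℕ) : Fr (l + 2) (A k l) := ofSeq l (gen k l) (gen_closed k l)

theorem univ_short (l j : ℕ) (hj : j < l) :
    (univ k l).x (j : ZMod (l + 2)) ((j : ZMod (l + 2)) + 2) = gen k l j :=
  ofSeq_short l _ _ j hj

variable {k}

theorem A_hom_ext {l : ℕ} {S : Type*} [CommRing S] [Algebra k S] {f g : A k l →ₐ[k] S}
    (h : ∀ j, j < l → f (gen k l j) = g (gen k l j)) : f = g := by
  apply Ideal.Quotient.algHom_ext
  apply MvPolynomial.algHom_ext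
  intro i
  have := h i.val i.isLt
  simpa [gen, vr] using this

variable {S : Type*} [CommRing S] [Algebra k S]

/-- the homomorphism from the coordinate ring defined by a frieze -/
noncomputable def lift {l : ℕ} (F : Fr (l + 2) S) : A k l →ₐ[k] S :=
  Ideal.Quotient.liftₐ (Ideal.span {rel k l})
    (aeval (fun j : Fin l => F.x ((j : ℕ) : ZMod (l + 2)) (((j : ℕ) : ZMod (l + 2)) + 2)))
    (by
      intro a ha
      rw [Ideal.mem_span_singleton] at ha
      obtain ⟨c, rfl⟩ := ha
      rw [map_mul]
      have : aeval (fun j : Fin l => F.x ((j : ℕ) : ZMod (l + 2)) (((j : ℕ) : ZMod (l + 2)) + 2))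
          (rel k l) = 0 := by
        rw [rel, map_add, map_one]
        have h1 := Ws_map ((aeval (fun j : Fin l =>
          F.x ((j : ℕ) : ZMod (l + 2)) (((j : ℕ) : ZMod (l + 2)) + 2)) :
            MvPolynomial (Fin l) k →ₐ[k] S) : MvPolynomial (Fin l) k →+* S) (vr k l) (l + 1)
        have h2 := F.closed
        have h3 : Ws (fun j => F.x (j : ZMod (l + 2)) ((j : ZMod (l + 2)) + 2)) (l + 1)
            = Ws (fun i => ((aeval (fun j : Fin l =>
          F.x ((j : ℕ) : ZMod (l + 2)) (((j : ℕ) : ZMod (l + 2)) + 2)) :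
            MvPolynomial (Fin l) k →ₐ[k] S) : MvPolynomial (Fin l) k →+* S) (vr k l i)) (l + 1) := by
          apply Ws_congr
          intro i hi
          have : i < l := by omega
          simp [vr, this]
        rw [h3, h1] at h2
        simp only [RingHom.coe_coe] at h2
        rw [h2]; ring
      rw [this, zero_mul])

theorem lift_gen {l : ℕ} (F : Fr (l + 2) S) (j : ℕ) (hj : j < l) :
    lift F (gen k l j) = F.x (j : ZMod (l + 2)) ((j : ZMod (l + 2)) + 2) := by
  simp [lift, gen, vr, hj]

theorem lift_univ {l : ℕ} (F : Fr (l + 2) S) (i j : ZMod (l + 2)) :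
    lift F ((univ k l).x i j) = F.x i j := by
  have : (univ k l).map ((lift F : A k l →ₐ[k] S) : A k l →+* S) = F := by
    apply Fr.ext_short
    intro j hj
    show lift F _ = _
    rw [univ_short k l j hj, lift_gen F j hj]
  conv_rhs => rw [← this]
  rfl

theorem hom_eq_lift {l : ℕ} (f : A k l →ₐ[k] S) : f = lift ((univ k l).map (f : A k l →+* S)) := by
  apply A_hom_ext
  intro j hj
  rw [lift_gen _ j hj]
  show _ = f _
  rw [univ_short k l j hj]

variable (k) in
/-- rotation automorphism: `x i j ↦ x (i+c) (j+c)` -/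
noncomputable def rotA (l : ℕ) (c : ZMod (l + 2)) : A k l ≃ₐ[k] A k l :=
  AlgEquiv.ofAlgHom (lift ((univ k l).rot c)) (lift ((univ k l).rot (-c)))
    (by
      apply A_hom_ext
      intro j hj
      simp only [AlgHom.comp_apply, AlgHom.id_apply]
      rw [lift_gen _ j hj]
      show lift _ ((univ k l).x _ _) = _
      rw [lift_univ]
      show (univ k l).x _ _ = _
      rw [← univ_short k l j hj]
      congr 1 <;> ring)
    (by
      apply A_hom_ext
      intro j hj
      simp only [AlgHom.comp_apply, AlgHom.id_apply]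
      rw [lift_gen _ j hj]
      show lift _ ((univ k l).x _ _) = _
      rw [lift_univ]
      show (univ k l).x _ _ = _
      rw [← univ_short k l j hj]
      congr 1 <;> ring)

theorem rotA_univ (l : ℕ) (c i j : ZMod (l + 2)) :
    rotA k l c ((univ k l).x i j) = (univ k l).x (i + c) (j + c) :=
  lift_univ _ _ _

/-- the coordinate ring is generated by the entries `x j (j+2)`, `j < l` -/
theorem A_induction {l : ℕ} {P : A k l → Prop} (hC : ∀ c : k, P (algebraMap k _ c))
    (hadd : ∀ a b, P a → P b → P (a + b)) (hmul : ∀ a j, j < l → P a → P (a * gen k l j)) :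
    ∀ a, P a := by
  intro a
  obtain ⟨p, rfl⟩ := Ideal.Quotient.mk_surjective a
  induction p using MvPolynomial.induction_on with
  | C c => exact hC c
  | add p q hp hq => rw [map_add]; exact hadd _ _ hp hq
  | mul_X p i hp =>
    rw [map_mul]
    have := hmul _ i.val i.isLt hp
    simpa [gen, vr] using this

end ring

end Pool.Agent.Lib.MP_d4c67c_gt
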