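import Pool.Agent.Lib.MP_d4c67c_gt.Defs

namespace Pool.Agent.Lib.MP_d4c67c_gt

open MvPolynomial

universe u v

/-- `muts` of an appended mutation -/
theorem muts_append {K : Type u} [Field K] {r : ℕ} (s : Seed K r) (L : List (Fin r)) (c : Fin r) :
    s.muts (L ++ [c]) = (s.muts L).mutate c := by
  unfold Seed.muts
  rw [List.foldl_append]
  rfl

/-- the exchange matrix does not depend on the coordinates -/
theorem muts_eps {K : Type u} {K' : Type v} [Field K] [Field K'] {r : ℕ} (ε : Fin r → Fin r → ℤ)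
    (y : Fin r → K) (y' : Fin r → K') (L : List (Fin r)) :
    ((⟨ε, y⟩ : Seed K r).muts L).ε = ((⟨ε, y'⟩ : Seed K' r).muts L).ε := by
  induction L generalizing ε y y' with
  | nil => rfl
  | cons c L ih => exact ih _ _ _

theorem Rep_rule {K : Type u} [Field K] (y q : K) (hq : q ≠ 0) (hq1 : 1 + q ≠ 0) (e : ℤ) :
    y * (1 + q ^ (-e.sign)) ^ (-e) = y * (q / (1 + q)) ^ e.toNat * (1 + q) ^ (-e).toNat := by
  rcases lt_trichotomy e 0 with h | h | h
  · obtain ⟨n, rfl⟩ : ∃ n : ℕ, e = -(n : ℤ) := ⟨(-e).toNat, by omega⟩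
    have h1 : (-(n : ℤ)).sign = -1 := Int.sign_eq_neg_one_of_neg h
    have h2 : (-(n : ℤ)).toNat = 0 := by omega
    have h3 : (- -(n : ℤ)).toNat = n := by omega
    rw [h1, h2, h3]
    simp
  · subst h
    simp
  · obtain ⟨n, rfl⟩ : ∃ n : ℕ, e = (n : ℤ) := ⟨e.toNat, by omega⟩
    have h1 : ((n : ℤ)).sign = 1 := Int.sign_eq_one_of_pos h
    have h2 : ((n : ℤ)).toNat = n := by omega
    have h3 : (-(n : ℤ)).toNat = 0 := by omega
    rw [h1, h2, h3]
    simp only [pow_zero, mul_one]
    congr 1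
    rw [zpow_neg, zpow_natCast, zpow_neg, zpow_one, ← inv_pow]
    congr 1
    have e1 : 1 + q⁻¹ = (1 + q) / q := by field_simp; ring
    rw [e1, inv_div]

theorem Rep_step {K : Type u} [Field K] {r : ℕ} (s : Seed K r) (c : Fin r) (A B : Fin r → K)
    (hA : ∀ i, A i ≠ 0) (hB : ∀ i, B i ≠ 0) (hy : ∀ i, s.y i = A i / B i) (hAB : A c + B c ≠ 0)
    (i : Fin r) :
    (s.mutate c).y i = (if i = c then B c else A i * (A c) ^ (s.ε i c).toNat * (A c + B c) ^ (-(s.ε i c)).toNat) /
      (if i = c then A c else B i * (A c + B c) ^ (s.ε i c).toNat * (B c) ^ (-(s.ε i c)).toNat) := by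
  have hAc := hA c
  have hBc := hB c
  have hBi := hB i
  by_cases hic : i = c
  · subst hic
    simp only [Seed.mutate, if_true, hy, inv_div]
  · simp only [Seed.mutate, if_neg hic]
    have hq : s.y c ≠ 0 := by rw [hy]; exact div_ne_zero hAc hBc
    have hq1 : 1 + s.y c ≠ 0 := by
      rw [hy]
      have : 1 + A c / B c = (A c + B c) / B c := by field_simp; ring
      rw [this]
      exact div_ne_zero hAB hBc
    rw [Rep_rule _ _ hq hq1]
    have h2 : 1 + s.y c = (A c + B c) / B c := by
      rw [hy]; field_simp; ring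
    have h1 : s.y c / (1 + s.y c) = A c / (A c + B c) := by
      rw [h2, hy]
      field_simp
    rw [h1, h2, hy i, div_pow, div_pow]
    field_simp

theorem rep (K : Type u) [Field K] [CharZero K] {r : ℕ} (ε : Fin r → Fin r → ℤ) (L : List (Fin r)) :
    ∃ (a b : Fin r → MvPolynomial (Fin r) ℤ) (D : MvPolynomial (Fin r) ℤ), D ≠ 0 ∧
      (∀ y : Fin r → K, aeval y D ≠ 0 → ∀ i, aeval y (a i) ≠ 0 ∧ aeval y (b i) ≠ 0 ∧
        ((⟨ε, y⟩ : Seed K r).muts L).y i = aeval y (a i) / aeval y (b i)) ∧
      (∀ y : Fin r → ℝ, (∀ i, 0 < y i) → 0 < aeval y D ∧ ∀ i, 0 < aeval y (a i) ∧ 0 < aeval y (b i) ∧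
        ((⟨ε, y⟩ : Seed ℝ r).muts L).y i = aeval y (a i) / aeval y (b i)) := by
  induction L using List.reverseRecOn with
  | nil =>
    refine ⟨fun i => X i, fun _ => 1, ∏ i, X i, ?_, ?_, ?_⟩
    · rw [Finset.prod_ne_zero_iff]
      intro i _
      exact X_ne_zero i
    · intro y hy i
      rw [map_prod, Finset.prod_ne_zero_iff] at hy
      have := hy i (Finset.mem_univ i)
      refine ⟨this, by simp, by simp [Seed.muts]⟩
    · intro y hy
      refine ⟨?_, fun i => ⟨by simpa using hy i, by simp, by simp [Seed.muts]⟩⟩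
      rw [map_prod]
      apply Finset.prod_pos
      intro i _
      simpa using hy i
  | append_singleton L c ih =>
    obtain ⟨a, b, D, hD, hK, hR⟩ := ih
    set e : Fin r → ℤ := fun i => ((⟨ε, fun _ => (1 : ℝ)⟩ : Seed ℝ r).muts L).ε i c with he
    have heK : ∀ (y : Fin r → K) (i : Fin r), ((⟨ε, y⟩ : Seed K r).muts L).ε i c = e i := by
      intro y i
      rw [he, muts_eps ε y (fun _ => (1 : ℝ)) L]
    have heR : ∀ (y : Fin r → ℝ) (i : Fin r), ((⟨ε, y⟩ : Seed ℝ r).muts L).ε i c = e i := by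
      intro y i
      rw [he, muts_eps ε y (fun _ => (1 : ℝ)) L]
    have hD' : D * (a c + b c) ≠ 0 := by
      intro h0
      have h1 := hR (fun _ => 1) (fun _ => one_pos)
      have h2 := congrArg (aeval (fun _ : Fin r => (1 : ℝ))) h0
      rw [map_mul, map_add, map_zero] at h2
      have h3 := (h1.2 c).1
      have h4 := (h1.2 c).2.1
      have h5 : 0 < aeval (fun _ : Fin r => (1 : ℝ)) D *
        (aeval (fun _ : Fin r => (1 : ℝ)) (a c) + aeval (fun _ : Fin r => (1 : ℝ)) (b c)) :=
        mul_pos h1.1 (add_pos h3 h4)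
      rw [h2] at h5
      exact lt_irrefl _ h5
    refine ⟨fun i => if i = c then b c else a i * (a c) ^ (e i).toNat * (a c + b c) ^ (-(e i)).toNat,
      fun i => if i = c then a c else b i * (a c + b c) ^ (e i).toNat * (b c) ^ (-(e i)).toNat,
      D * (a c + b c), hD', ?_, ?_⟩
    · intro y hy i
      rw [map_mul, map_add] at hy
      have hy1 := left_ne_zero_of_mul hy
      have hy2 := right_ne_zero_of_mul hy
      have hall := hK y hy1
      have hstep := Rep_step ((⟨ε, y⟩ : Seed K r).muts L) c (fun i => aeval y (a i)) (fun i => aeval y (b i))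
        (fun i => (hall i).1) (fun i => (hall i).2.1) (fun i => (hall i).2.2) hy2 i
      rw [muts_append, hstep, heK]
      by_cases hic : i = c
      · simp only [hic, if_true]
        exact ⟨(hall c).2.1, (hall c).1, trivial⟩
      · simp only [if_neg hic, map_mul, map_pow, map_add]
        refine ⟨?_, ?_, trivial⟩
        · exact mul_ne_zero (mul_ne_zero (hall i).1 (pow_ne_zero _ (hall c).1)) (pow_ne_zero _ hy2)
        · exact mul_ne_zero (mul_ne_zero (hall i).2.1 (pow_ne_zero _ hy2)) (pow_ne_zero _ (hall c).2.1)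
    · intro y hy
      obtain ⟨hDp, hall⟩ := hR y hy
      have hac := (hall c).1
      have hbc := (hall c).2.1
      have hab : 0 < aeval y (a c) + aeval y (b c) := add_pos hac hbc
      refine ⟨by rw [map_mul, map_add]; exact mul_pos hDp hab, ?_⟩
      intro i
      have hstep := Rep_step ((⟨ε, y⟩ : Seed ℝ r).muts L) c (fun i => aeval y (a i)) (fun i => aeval y (b i))
        (fun i => (hall i).1.ne') (fun i => (hall i).2.1.ne') (fun i => (hall i).2.2) hab.ne' i
      rw [muts_append, hstep, heR]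
      by_cases hic : i = c
      · simp only [hic, if_true]
        exact ⟨hbc, hac, trivial⟩
      · simp only [if_neg hic, map_mul, map_pow, map_add]
        refine ⟨?_, ?_, trivial⟩
        · exact mul_pos (mul_pos (hall i).1 (pow_pos hac _)) (pow_pos hab _)
        · exact mul_pos (mul_pos (hall i).2.1 (pow_pos hab _)) (pow_pos hbc _)

end Pool.Agent.Lib.MP_d4c67c_gt
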