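import Pool.Agent.Lib.MP_d4c67c_gt.Fr

/-!
# JOB Row: the degree argument
-/

namespace Pool.Agent.Lib.MP_d4c67c_gt

open Polynomial

/-- In any frieze `x i j * x (i+1) (j+1) = 1 + x i (j+1) * x (i+1) j` (`pl` at `i, i+1, j, j+1` with
`one`). -/
theorem diamond {N : ℕ} {R : Type*} [CommRing R] (F : Fr N R) (i j : ZMod N) :
    F.x i j * F.x (i + 1) (j + 1) = 1 + F.x i (j + 1) * F.x (i + 1) j := by
  have h := F.pl i (i + 1) j (j + 1)
  rw [F.one i, F.one j] at h
  linear_combination -h

private theorem Row_deg_one_add {R : Type*} [CommRing R] (p : R[X]) :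
    (1 + p).natDegree = p.natDegree := by
  have h := natDegree_C_add (p := p) (a := (1 : R))
  rwa [C_1] at h

private theorem Row_cast_ne {N : ℕ} (m : ℕ) (h1 : 0 < m) (h2 : m < N) : ((m : ℕ) : ZMod N) ≠ 0 := by
  intro h
  rw [ZMod.natCast_eq_zero_iff] at h
  have := Nat.le_of_dvd h1 h
  omega

/-- Row lemma.  Let `D(i,j) = natDegree (x i j)`.  For `j ∉ {i-1, i, i+1}` the four entries of the diamond
are not zero, so (`natDegree_mul`, and `natDegree (1 + p) = natDegree p`)
`D(i,j) + D(i+1,j+1) = D(i,j+1) + D(i+1,j)`, that is, `E(j) := D(i+1,j) - D(i,j)` (an integer) satisfies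
`E(j+1) = E(j)` for `j = i+2, …, i+N-2`.  Now `E(i+2) = D(i+1,i+2) - D(i,i+2) = -D(i,i+2)` (`x (i+1) (i+2) = 1`)
and `E(i+N-1) = E(i-1) = D(i+1,i-1) - D(i,i-1) = D(i-1,i+1)` (`x i (i-1) = -1`, `anti`).  So
`D(i-1,i+1) = -D(i,i+2)` and both vanish.  (Write `j = i + 2 + t` with `t : ℕ`, `t ≤ N - 3`.) -/
theorem row {N : ℕ} (hN : 3 ≤ N) {D : Type*} [CommRing D] [IsDomain D] (F : Fr N D[X]) (i : ZMod N)
    (h0 : ∀ j, j ≠ i → F.x i j ≠ 0) (h1 : ∀ j, j ≠ i + 1 → F.x (i + 1) j ≠ 0) :
    (F.x i (i + 2)).natDegree = 0 ∧ (F.x (i - 1) (i + 1)).natDegree = 0 := by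
  have hstep : ∀ t : ℕ, t + 4 ≤ N →
      (F.x i (i + 2 + (t : ZMod N))).natDegree + (F.x (i + 1) (i + 2 + ((t + 1 : ℕ) : ZMod N))).natDegree =
      (F.x i (i + 2 + ((t + 1 : ℕ) : ZMod N))).natDegree +
        (F.x (i + 1) (i + 2 + (t : ZMod N))).natDegree := by
    intro t ht
    have e : i + 2 + ((t + 1 : ℕ) : ZMod N) = (i + 2 + (t : ZMod N)) + 1 := by
      push_cast
      ring
    have n1 : i + 2 + (t : ZMod N) ≠ i := by
      intro h
      apply Row_cast_ne (N := N) (t + 2) (by omega) (by omega)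
      push_cast
      linear_combination h
    have n2 : (i + 2 + (t : ZMod N)) + 1 ≠ i + 1 := by
      intro h
      apply n1
      exact add_right_cancel h
    have n3 : (i + 2 + (t : ZMod N)) + 1 ≠ i := by
      intro h
      apply Row_cast_ne (N := N) (t + 3) (by omega) (by omega)
      push_cast
      linear_combination h
    have n4 : i + 2 + (t : ZMod N) ≠ i + 1 := by
      intro h
      apply Row_cast_ne (N := N) (t + 1) (by omega) (by omega)
      push_cast
      linear_combination h
    have hd := congrArg natDegree (diamond F i (i + 2 + (t : ZMod N)))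
    rw [natDegree_mul (h0 _ n1) (h1 _ n2), Row_deg_one_add, natDegree_mul (h0 _ n3) (h1 _ n4)] at hd
    rw [e]
    exact hd
  have hbase : (F.x (i + 1) (i + 2)).natDegree = 0 := by
    have h := F.one (i + 1)
    have e : i + 1 + 1 = i + 2 := by ring
    rw [e] at h
    rw [h, natDegree_one]
  have key : ∀ t : ℕ, t + 3 ≤ N →
      (F.x (i + 1) (i + 2 + (t : ZMod N))).natDegree + (F.x i (i + 2)).natDegree =
        (F.x i (i + 2 + (t : ZMod N))).natDegree := by
    intro t
    induction t with
    | zero =>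
      intro _
      rw [Nat.cast_zero, add_zero, hbase, zero_add]
    | succ t ih =>
      intro ht
      have a1 := ih (by omega)
      have a2 := hstep t (by omega)
      omega
  have hk := key (N - 3) (by omega)
  have e1 : i + 2 + ((N - 3 : ℕ) : ZMod N) = i - 1 := by
    have h2 : ((N - 3 : ℕ) : ZMod N) = -3 := by
      rw [Nat.cast_sub hN, ZMod.natCast_self]
      push_cast
      ring
    rw [h2]
    ring
  rw [e1] at hk
  have e2 : (F.x i (i - 1)).natDegree = 0 := by
    have h := F.one (i - 1)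
    rw [sub_add_cancel] at h
    rw [F.anti (i - 1) i, h, natDegree_neg, natDegree_one]
  have e3 : (F.x (i - 1) (i + 1)).natDegree = (F.x (i + 1) (i - 1)).natDegree := by
    rw [F.anti (i + 1) (i - 1), natDegree_neg]
  rw [e2] at hk
  constructor
  · omega
  · rw [e3]
    omega

/-- If no entry `x i j` (`i ≠ j`) is killed by `g : A k l → D[X]` then `g` takes constant values.
`row` for `(univ k l).map g` and all `i` gives `natDegree (g (gen j)) = 0` (`univ_short`), then
`A_induction` (`natDegree_eq_zero`: `∃ d, C d = _`; for the constants `g (algebraMap c)` is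
`algebraMap k D[X] c = C (algebraMap k D c)`). -/
theorem all_const {k : Type*} [Field k] {l : ℕ} (hl : 1 ≤ l) {D : Type*} [CommRing D] [IsDomain D]
    [Algebra k D] (g : A k l →ₐ[k] D[X]) (hne : ∀ i j, i ≠ j → g ((univ k l).x i j) ≠ 0) (a : A k l) :
    (g a).natDegree = 0 := by
  have hgen : ∀ j : ℕ, j < l → (g (gen k l j)).natDegree = 0 := by
    intro j hj
    have h := row (N := l + 2) (by omega) ((univ k l).map (g : A k l →+* D[X]))
      (j : ZMod (l + 2)) (fun m hm => hne _ _ (Ne.symm hm)) (fun m hm => hne _ _ (Ne.symm hm))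
    have h2 : (g ((univ k l).x (j : ZMod (l + 2)) ((j : ZMod (l + 2)) + 2))).natDegree = 0 := h.1
    rwa [univ_short k l j hj] at h2
  refine A_induction (P := fun a => (g a).natDegree = 0) ?_ ?_ ?_ a
  · intro c
    show (g (algebraMap k _ c)).natDegree = 0
    rw [AlgHom.commutes, IsScalarTower.algebraMap_apply k D D[X], ← C_eq_algebraMap, natDegree_C]
  · intro a b ha hb
    show (g (a + b)).natDegree = 0
    have ha' : (g a).natDegree = 0 := ha
    have hb' : (g b).natDegree = 0 := hb
    rw [map_add]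
    have := natDegree_add_le (g a) (g b)
    rw [ha', hb', max_self] at this
    exact Nat.le_zero.1 this
  · intro a j hj ha
    show (g (a * gen k l j)).natDegree = 0
    have ha' : (g a).natDegree = 0 := ha
    rw [map_mul]
    have := natDegree_mul_le (p := g a) (q := g (gen k l j))
    rw [ha', hgen j hj] at this
    exact Nat.le_zero.1 this

end Pool.Agent.Lib.MP_d4c67c_gt
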