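import Pool.Agent.Lib.MP_d4c67c_gt.Div
import Pool.Agent.Lib.MP_d4c67c_gt.Row

/-!
# JOB Steps: isomorphisms of frieze rings send short diagonals to short diagonals

(You may use everything of `Q`, `Ch`, `HH`, `Pts`, `Row`, `Div`, which are other jobs.)
Notation: `s i = x i (i+2)`.
-/

namespace Pool.Agent.Lib.MP_d4c67c_gt

open Polynomial

variable {k : Type*} [Field k]

/-- For every `i` there is a surjection `g : A k (n+2) → (A k n)[X]` with kernel generated by `s i` and with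
`g (s (i-1))` of degree one.  Take `g = hh ∘ rotA c` with `c = n + 1 - i`: `rotA c` sends `s i` to
`x (n+1) (n+3) = gen (n+1)` (`univ_short`), whose image is `0` and which generates the kernel of `hh`
(`hh_gen`, `hh_ker`, `rotA_univ`), and `s (i-1)` to `x n (n+2) = gen n`, with image `X`; `A k n` is a
domain (`A_isDomain`), so nontrivial. -/
theorem gi [CharZero k] (n : ℕ) (hn : Odd n) (i : ZMod (n + 2 + 2)) :
    ∃ g : A k (n + 2) →ₐ[k] (A k n)[X], Function.Surjective g ∧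
      (∀ a, g a = 0 ↔ (univ k (n + 2)).x i (i + 2) ∣ a) ∧
      (g ((univ k (n + 2)).x (i - 1) (i + 1))).natDegree = 1 := by
  have hdom : IsDomain (A k n) := A_isDomain n (odd_cases hn)
  have hnt : Nontrivial (A k n) := hdom.toNontrivial
  set c : ZMod (n + 2 + 2) := ((n + 1 : ℕ) : ZMod (n + 2 + 2)) - i with hc
  have e1 : rotA k (n + 2) c ((univ k (n + 2)).x i (i + 2)) = gen k (n + 2) (n + 1) := by
    rw [rotA_univ, ← univ_short k (n + 2) (n + 1) (by omega)]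
    congr 1
    · rw [hc]; ring
    · rw [hc]; ring
  have e2 : rotA k (n + 2) c ((univ k (n + 2)).x (i - 1) (i + 1)) = gen k (n + 2) n := by
    rw [rotA_univ, ← univ_short k (n + 2) n (by omega)]
    congr 1
    · rw [hc]; push_cast; ring
    · rw [hc]; push_cast; ring
  have h0 : hh k n hn (gen k (n + 2) (n + 1)) = 0 := by
    rw [hh_gen n hn (n + 1) (by omega)]
    unfold hseq
    rw [if_neg (by omega), if_neg (by omega)]
  have h1 : hh k n hn (gen k (n + 2) n) = X := by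
    rw [hh_gen n hn n (by omega)]
    unfold hseq
    rw [if_neg (by omega), if_pos rfl]
  refine ⟨(hh k n hn).comp (rotA k (n + 2) c : A k (n + 2) →ₐ[k] A k (n + 2)), ?_, ?_, ?_⟩
  · intro b
    obtain ⟨a, ha⟩ := hh_surj n hn b
    refine ⟨(rotA k (n + 2) c).symm a, ?_⟩
    show hh k n hn (rotA k (n + 2) c ((rotA k (n + 2) c).symm a)) = b
    rw [AlgEquiv.apply_symm_apply, ha]
  · intro a
    show hh k n hn (rotA k (n + 2) c a) = 0 ↔ _
    constructor
    · intro h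
      have h2 := hh_ker n hn _ h
      rw [← e1] at h2
      exact (map_dvd_iff (rotA k (n + 2) c)).mp h2
    · intro h
      have h2 := (map_dvd_iff (rotA k (n + 2) c)).mpr h
      rw [e1] at h2
      obtain ⟨b, hb⟩ := h2
      rw [hb, map_mul, h0, zero_mul]
  · show (hh k n hn (rotA k (n + 2) c ((univ k (n + 2)).x (i - 1) (i + 1)))).natDegree = 1
    rw [e2, h1, natDegree_X]

/-- A prime divisor of `x p (p+j)`, `2 ≤ j ≤ l - 1`, is a constant times `x p (p+j)`. -/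
theorem Steps_div [CharZero k] {l : ℕ} (ho : Odd l) (h3 : 3 ≤ l) (f : A k l) (hf : Prime f)
    (p : ZMod (l + 2)) (j : ℕ) (h2 : 2 ≤ j) (hj : j + 1 ≤ l)
    (hd : f ∣ (univ k l).x p (p + (j : ZMod (l + 2)))) :
    ∃ c : k, c ≠ 0 ∧ f = algebraMap k _ c * (univ k l).x p (p + (j : ZMod (l + 2))) := by
  have h := (map_dvd_iff (rotA k l (-p))).mpr hd
  have e : rotA k l (-p) ((univ k l).x p (p + (j : ZMod (l + 2))))
      = (univ k l).x 0 ((j : ℕ) : ZMod (l + 2)) := by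
    rw [rotA_univ]
    congr 1
    · ring
    · ring
  rw [e] at h
  obtain ⟨c, hc, h1 | h1⟩ := dvd_x l ho h3 j h2 hj _ h
  · exfalso
    have h4 : f = algebraMap k _ c := by
      apply (rotA k l (-p)).injective
      rw [h1, AlgEquiv.commutes]
    apply hf.not_isUnit
    rw [h4]
    exact (IsUnit.mk0 c hc).map (algebraMap k (A k l))
  · refine ⟨c, hc, ?_⟩
    apply (rotA k l (-p)).injective
    rw [h1, map_mul, AlgEquiv.commutes, e]

/-- `f ∣ x p q` with `p ≠ q` and `f` prime -/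
theorem Steps_div2 [CharZero k] {l : ℕ} (ho : Odd l) (h3 : 3 ≤ l) (f : A k l) (hf : Prime f)
    (p q : ZMod (l + 2)) (hpq : p ≠ q) (hd : f ∣ (univ k l).x p q) :
    ∃ (p : ZMod (l + 2)) (j : ℕ) (c : k), 2 ≤ j ∧ j + 1 ≤ l ∧ c ≠ 0 ∧
      f = algebraMap k _ c * (univ k l).x p (p + (j : ZMod (l + 2))) := by
  have hqv : ((q - p).val : ZMod (l + 2)) = q - p := ZMod.natCast_zmod_val _
  have hlt : (q - p).val < l + 2 := ZMod.val_lt _
  obtain ⟨j, hj⟩ : ∃ j, j = (q - p).val := ⟨_, rfl⟩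
  have hq : q = p + (j : ZMod (l + 2)) := by rw [hj, hqv]; ring
  have hj0 : j ≠ 0 := by
    rintro rfl
    apply hpq
    rw [hq]; simp
  have hN : ((l + 2 : ℕ) : ZMod (l + 2)) = 0 := ZMod.natCast_self _
  push_cast at hN
  have hjl : j < l + 2 := by omega
  by_cases h1 : j = 1
  · exfalso
    rw [hq, h1] at hd
    have := (univ k l).one p
    rw [Nat.cast_one, this] at hd
    exact hf.not_isUnit (isUnit_of_dvd_one hd)
  by_cases h4 : j = l + 1
  · exfalso
    have h5 := (univ k l).one q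
    have h6 : q + 1 = p := by
      rw [hq, h4]; push_cast
      linear_combination hN
    rw [h6] at h5
    rw [(univ k l).anti q p, h5] at hd
    exact hf.not_isUnit (isUnit_of_dvd_one ((dvd_neg).mp hd))
  by_cases h5 : j = l
  · have h6 : p = q + ((2 : ℕ) : ZMod (l + 2)) := by
      rw [hq, h5]; push_cast
      linear_combination -hN
    rw [(univ k l).anti q p] at hd
    have h7 : f ∣ (univ k l).x q p := (dvd_neg).mp hd
    rw [h6] at h7
    obtain ⟨c, hc, h8⟩ := Steps_div ho h3 f hf q 2 le_rfl (by omega) h7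
    exact ⟨q, 2, c, le_rfl, by omega, hc, h8⟩
  · rw [hq] at hd
    obtain ⟨c, hc, h8⟩ := Steps_div ho h3 f hf p j (by omega) (by omega) hd
    exact ⟨p, j, c, by omega, by omega, hc, h8⟩

/-- Step 1.  Write `l' = n + 2` and take `g` from `gi n _ i`.  If `g (ψ⁻¹ (x p q)) ≠ 0` for all `p ≠ q`, then by
`all_const` all values of `g ∘ ψ⁻¹` have degree `0`, but it is surjective (`X`): contradiction.  So there are
`p ≠ q` with `g (ψ⁻¹ (x p q)) = 0`, so `s' i ∣ ψ⁻¹ (x p q)`, so `f = ψ (s' i)` divides `x p q`.  `f` is prime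
(`short_prime`, ring isomorphism), not a unit.  Let `j = (q - p).val`, `1 ≤ j ≤ l + 1`.  `j = 1`, `j = l + 1`: `x p q = ± 1`,
impossible.  `2 ≤ j ≤ l - 1`: apply `rotA (-p)` and `dvd_x`: `f = c * x p (p+j)` (the constant case is excluded
because `f` is not a unit).  `j = l`: `q = p - 2`, `x p q = - x q (q+2)`, so `f ∣ x q (q+2)`; use the previous case with
`(q, 2)`. -/
theorem step1 [CharZero k] {l l' : ℕ} (ho : Odd l) (h3 : 3 ≤ l) (ho' : Odd l') (h3' : 3 ≤ l')
    (ψ : A k l' ≃ₐ[k] A k l) (i : ZMod (l' + 2)) :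
    ∃ (p : ZMod (l + 2)) (j : ℕ) (c : k), 2 ≤ j ∧ j + 1 ≤ l ∧ c ≠ 0 ∧
      ψ ((univ k l').x i (i + 2)) = algebraMap k _ c * (univ k l).x p (p + (j : ZMod (l + 2))) := by
  obtain ⟨n, rfl⟩ : ∃ n, l' = n + 2 := ⟨l' - 2, by omega⟩
  have hn : Odd n := by
    obtain ⟨t, ht⟩ := ho'
    exact ⟨t - 1, by omega⟩
  have hdom : IsDomain (A k n) := A_isDomain n (odd_cases hn)
  obtain ⟨g, hgs, hgk, hgd⟩ := gi (k := k) n hn i
  have hex : ∃ p q : ZMod (l + 2), p ≠ q ∧ g (ψ.symm ((univ k l).x p q)) = 0 := by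
    by_contra hcon
    have hne : ∀ p q : ZMod (l + 2), p ≠ q →
        (g.comp (ψ.symm : A k l →ₐ[k] A k (n + 2))) ((univ k l).x p q) ≠ 0 := by
      intro p q hpq h0
      exact hcon ⟨p, q, hpq, h0⟩
    have h := all_const (by omega) (g.comp (ψ.symm : A k l →ₐ[k] A k (n + 2))) hne
      (ψ ((univ k (n + 2)).x (i - 1) (i + 1)))
    have h2 : (g.comp (ψ.symm : A k l →ₐ[k] A k (n + 2)))
        (ψ ((univ k (n + 2)).x (i - 1) (i + 1))) = g ((univ k (n + 2)).x (i - 1) (i + 1)) := by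
      show g (ψ.symm (ψ _)) = _
      rw [AlgEquiv.symm_apply_apply]
    rw [h2, hgd] at h
    exact one_ne_zero h
  obtain ⟨p, q, hpq, h0⟩ := hex
  have hd := (hgk _).mp h0
  have hd2 : ψ ((univ k (n + 2)).x i (i + 2)) ∣ (univ k l).x p q := by
    have := (map_dvd_iff ψ).mpr hd
    rwa [AlgEquiv.apply_symm_apply] at this
  have hpr : Prime (ψ ((univ k (n + 2)).x i (i + 2))) :=
    (MulEquiv.prime_iff (ψ : A k (n + 2) ≃* A k l)).mpr (short_prime (n + 2) ho' h3' i)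
  exact Steps_div2 ho h3 _ hpr p q hpq hd2

/-- Step 2: long diagonals are impossible.  Write `l' = n + 2`, `g` from `gi n _ i`,
`a = x p (p+j-1)`, `b = x (p+1) (p+j)`.  By `diamond` (at `p`, `p+j-1`) `a * b = 1 + x p (p+j) * _`.  As
`ψ⁻¹ (x p (p+j)) = c⁻¹ * s' i` is killed by `g`, `g (ψ⁻¹ a) * g (ψ⁻¹ b) = 1`, so `g (ψ⁻¹ a)` is a unit of
`(A k n)[X]`, hence `C r` with `r` a unit (`Polynomial.isUnit_iff`, domain), `r = algebraMap κ` (`units_A`).  So
`g (ψ⁻¹ (a - κ)) = 0`, `s' i ∣ ψ⁻¹ (a - κ)`, `x p (p+j) ∣ a - κ` in `A k l` (`c` is a unit).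
Choose `z ∈ {1, 2}` with `z ≠ κ` and `F` from `pt_long l j _ _ z`, and `G = F.rot (-p)`: `lift G` sends `x p (p+j)` to
`F.x 0 j = 0` and `a` to `F.x 0 (j-1) = z` (`lift_univ`), so `z - κ = 0`: contradiction. -/
theorem step2 [CharZero k] {l l' : ℕ} (ho : Odd l) (h3 : 3 ≤ l) (ho' : Odd l') (h3' : 3 ≤ l')
    (ψ : A k l' ≃ₐ[k] A k l) (i : ZMod (l' + 2)) (p : ZMod (l + 2)) (j : ℕ) (c : k)
    (hj : 3 ≤ j) (hj' : j + 1 ≤ l) (hc : c ≠ 0)
    (h : ψ ((univ k l').x i (i + 2)) = algebraMap k _ c * (univ k l).x p (p + (j : ZMod (l + 2)))) :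
    False := by
  obtain ⟨n, rfl⟩ : ∃ n, l' = n + 2 := ⟨l' - 2, by omega⟩
  have hn : Odd n := by
    obtain ⟨t, ht⟩ := ho'
    exact ⟨t - 1, by omega⟩
  have hdom : IsDomain (A k n) := A_isDomain n (odd_cases hn)
  obtain ⟨g, hgs, hgk, hgd⟩ := gi (k := k) n hn i
  obtain ⟨m, rfl⟩ : ∃ m, j = m + 1 := ⟨j - 1, by omega⟩
  have hcu : algebraMap k (A k l) c⁻¹ * algebraMap k (A k l) c = 1 := by
    rw [← map_mul, inv_mul_cancel₀ hc, map_one]
  have hx : ψ.symm ((univ k l).x p (p + ((m + 1 : ℕ) : ZMod (l + 2))))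
      = algebraMap k _ c⁻¹ * (univ k (n + 2)).x i (i + 2) := by
    apply ψ.injective
    rw [AlgEquiv.apply_symm_apply, map_mul, AlgEquiv.commutes, h, ← mul_assoc, hcu, one_mul]
  have hgx : g (ψ.symm ((univ k l).x p (p + ((m + 1 : ℕ) : ZMod (l + 2))))) = 0 := by
    rw [hgk, hx]
    exact Dvd.intro_left _ rfl
  have hdi := diamond (univ k l) p (p + (m : ZMod (l + 2)))
  have ee : p + (m : ZMod (l + 2)) + 1 = p + ((m + 1 : ℕ) : ZMod (l + 2)) := by push_cast; ring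
  rw [ee] at hdi
  have hun : IsUnit (g (ψ.symm ((univ k l).x p (p + (m : ZMod (l + 2)))))) := by
    apply IsUnit.of_mul_eq_one
      (g (ψ.symm ((univ k l).x (p + 1) (p + ((m + 1 : ℕ) : ZMod (l + 2))))))
    rw [← map_mul, ← map_mul, hdi, map_add, map_add, map_mul, map_mul, hgx, zero_mul, map_one,
      map_one, add_zero]
  obtain ⟨r, hr, hr2⟩ := Polynomial.isUnit_iff.mp hun
  obtain ⟨κ, hκ, rfl⟩ := units_A n hn r hr
  have hker : g (ψ.symm ((univ k l).x p (p + (m : ZMod (l + 2))) - algebraMap k _ κ)) = 0 := by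
    rw [map_sub, map_sub, AlgEquiv.commutes, AlgHom.commutes, ← hr2, Polynomial.algebraMap_apply,
      sub_self]
  have hd1 := (hgk _).mp hker
  have hd2 : ψ ((univ k (n + 2)).x i (i + 2)) ∣
      (univ k l).x p (p + (m : ZMod (l + 2))) - algebraMap k _ κ := by
    have := (map_dvd_iff ψ).mpr hd1
    rwa [AlgEquiv.apply_symm_apply] at this
  have hd3 : (univ k l).x p (p + ((m + 1 : ℕ) : ZMod (l + 2))) ∣
      (univ k l).x p (p + (m : ZMod (l + 2))) - algebraMap k _ κ := by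
    rw [h] at hd2
    exact dvd_trans (Dvd.intro_left _ rfl) hd2
  obtain ⟨z, hz, hzκ⟩ : ∃ z : k, z ≠ 0 ∧ z ≠ κ := by
    by_cases h1 : κ = 1
    · refine ⟨2, two_ne_zero, ?_⟩
      rw [h1]; norm_num
    · exact ⟨1, one_ne_zero, fun h => h1 h.symm⟩
  obtain ⟨F, hF1, hF2⟩ := pt_long l (m + 1) hj hj' z hz
  have hl1 : lift (F.rot (-p)) ((univ k l).x p (p + ((m + 1 : ℕ) : ZMod (l + 2)))) = 0 := by
    rw [lift_univ]
    show F.x _ _ = 0
    rw [← hF1]
    congr 1
    · ring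
    · ring
  have hl2 : lift (F.rot (-p)) ((univ k l).x p (p + (m : ZMod (l + 2)))) = z := by
    rw [lift_univ]
    show F.x _ _ = z
    rw [← hF2]
    congr 1
    · ring
    · rw [Nat.add_sub_cancel]; ring
  obtain ⟨b, hb⟩ := hd3
  have hfin := congrArg (lift (F.rot (-p))) hb
  rw [map_sub, map_mul, hl1, hl2, zero_mul, AlgHom.commutes] at hfin
  apply hzκ
  have : z - κ = 0 := hfin
  exact sub_eq_zero.mp this

theorem short_to_short [CharZero k] {l l' : ℕ} (ho : Odd l) (h3 : 3 ≤ l) (ho' : Odd l') (h3' : 3 ≤ l')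
    (ψ : A k l' ≃ₐ[k] A k l) (i : ZMod (l' + 2)) :
    ∃ (p : ZMod (l + 2)) (c : k), c ≠ 0 ∧
      ψ ((univ k l').x i (i + 2)) = algebraMap k _ c * (univ k l).x p (p + 2) := by
  obtain ⟨p, j, c, h2, hj, hc, h⟩ := step1 ho h3 ho' h3' ψ i
  by_cases h3j : 3 ≤ j
  · exact (step2 ho h3 ho' h3' ψ i p j c h3j hj hc h).elim
  · have : j = 2 := by omega
    subst this
    exact ⟨p, c, hc, by simpa using h⟩

end Pool.Agent.Lib.MP_d4c67c_gt
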