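import Pool.Agent.Lib.MP_d4c67c_gt.TriA

/-!
# JOB TriB: exchanging two adjacent letters of the word is a mutation

(You may use `TriA.lean`, which is another job.)
-/

namespace Pool.Agent.Lib.MP_d4c67c_gt

variable {K : Type*} [Field K]

private theorem TriB_ne {l k : ℕ} (h0 : 0 < k) (h1 : k < l + 2) :
    ((k : ℕ) : ZMod (l + 2)) ≠ 0 := by
  intro h
  rw [ZMod.natCast_eq_zero_iff] at h
  have := Nat.le_of_dvd h0 h
  omega

private theorem TriB_nU {w w' : ℕ → Bool} {a : ℕ} (h0 : w a = !(w (a + 1)))
    (h0' : w' a = !(w' (a + 1))) (h : ∀ i, i ≠ a → i ≠ a + 1 → w i = w' i) (s : ℕ)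
    (hs : s ≠ a + 1) : nU w s = nU w' s ∧ nD w s = nD w' s := by
  rcases Nat.lt_or_ge s (a + 1) with h1 | h1
  · exact ⟨nU_congr (fun i hi => h i (by omega) (by omega)),
      nD_congr (fun i hi => h i (by omega) (by omega))⟩
  · obtain ⟨r, rfl⟩ : ∃ r, s = a + 2 + r := ⟨s - (a + 2), by omega⟩
    induction r with
    | zero =>
      have e1 : nU w a = nU w' a := nU_congr (fun i hi => h i (by omega) (by omega))
      have e2 : nD w a = nD w' a := nD_congr (fun i hi => h i (by omega) (by omega))
      constructor
      · show nU w a + (if w a then 1 else 0) + (if w (a + 1) then 1 else 0) =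
          nU w' a + (if w' a then 1 else 0) + (if w' (a + 1) then 1 else 0)
        rw [e1, h0, h0']
        cases w (a + 1) <;> cases w' (a + 1) <;> simp
      · show nD w a + (if w a then 0 else 1) + (if w (a + 1) then 0 else 1) =
          nD w' a + (if w' a then 0 else 1) + (if w' (a + 1) then 0 else 1)
        rw [e2, h0, h0']
        cases w (a + 1) <;> cases w' (a + 1) <;> simp
    | succ r ih =>
      obtain ⟨i1, i2⟩ := ih (by omega) (by omega)
      have e : w (a + 2 + r) = w' (a + 2 + r) := h _ (by omega) (by omega)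
      constructor
      · show nU w (a + 2 + r) + (if w (a + 2 + r) then 1 else 0) =
          nU w' (a + 2 + r) + (if w' (a + 2 + r) then 1 else 0)
        rw [i1, e]
      · show nD w (a + 2 + r) + (if w (a + 2 + r) then 0 else 1) =
          nD w' (a + 2 + r) + (if w' (a + 2 + r) then 0 else 1)
        rw [i2, e]

/-- the cross ratio of the seed `T` -/
private def TriB_cr {N : ℕ} (F : Fr N K) (t b q p : ZMod N) : K :=
  F.x t q * F.x b p / (F.x q b * F.x t p)

private theorem TriB_y (l : ℕ) (c : ZMod (l + 2)) (w : ℕ → Bool) (F : Fr (l + 2) K)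
    (i : Fin (l - 1)) (t b : ZMod (l + 2)) (ht : c + 1 + (nU w (i + 1) : ZMod (l + 2)) = t)
    (hb : c - (nD w (i + 1) : ZMod (l + 2)) = b) :
    (T l c w F).y i = TriB_cr F t b (if w (i + 1) then t + 1 else b - 1)
      (if w i then t - 1 else b + 1) := by
  subst ht
  subst hb
  rfl

private theorem TriB_one {N : ℕ} (F : Fr N K) (i : ZMod N) : F.x (i - 1) i = 1 := by
  have h := F.one (i - 1)
  rwa [sub_add_cancel] at h

private theorem TriB_one' {N : ℕ} (F : Fr N K) (i : ZMod N) : F.x i (i - 1) = -1 := by
  rw [F.anti (i - 1) i, TriB_one]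

private theorem TriB_ya {N : ℕ} (F : Fr N K) (t b : ZMod N) :
    TriB_cr F t b (b - 1) (t - 1) = - (F.x t (b - 1) * F.x b (t - 1)) := by
  unfold TriB_cr
  rw [TriB_one, TriB_one', one_mul, div_neg, div_one]

private theorem TriB_one_add {N : ℕ} (F : Fr N K) (t b : ZMod N) :
    1 + TriB_cr F t b (b - 1) (t - 1) = - (F.x t b * F.x (b - 1) (t - 1)) := by
  rw [TriB_ya]
  have h := F.pl t b (b - 1) (t - 1)
  rw [TriB_one', TriB_one'] at h
  linear_combination h

private theorem TriB_ya' {N : ℕ} (F : Fr N K) (t b : ZMod N) :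
    TriB_cr F (t - 1) (b - 1) t b = (TriB_cr F t b (b - 1) (t - 1))⁻¹ := by
  rw [TriB_ya]
  unfold TriB_cr
  rw [TriB_one, TriB_one, F.anti b (t - 1), one_mul, one_div]
  congr 1
  ring

private theorem TriB_next {N : ℕ} (F : Fr N K) (t b q : ZMod N) (hu : F.x t b ≠ 0) :
    TriB_cr F t (b - 1) q b * (1 + TriB_cr F t b (b - 1) (t - 1)) =
      TriB_cr F t (b - 1) q (t - 1) := by
  rw [TriB_one_add]
  unfold TriB_cr
  rw [TriB_one, TriB_one', mul_div_mul_comm, mul_div_mul_comm, mul_assoc]
  congr 1
  field_simp

private theorem TriB_prev {N : ℕ} (F : Fr N K) (t b p : ZMod N) (hu : F.x t b ≠ 0) :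
    TriB_cr F (t - 1) b t p * (1 + TriB_cr F t b (b - 1) (t - 1)) =
      TriB_cr F (t - 1) b (b - 1) p := by
  rw [TriB_one_add]
  unfold TriB_cr
  rw [TriB_one, TriB_one, mul_div_mul_comm, mul_div_mul_comm, mul_right_comm,
    F.anti (t - 1) (b - 1)]
  congr 1
  field_simp

private theorem TriB_tb {l : ℕ} (c : ZMod (l + 2)) (w : ℕ → Bool) (a : ℕ) :
    (c + 1 + (nU w (a + 1) : ZMod (l + 2))) - (c - (nD w (a + 1) : ZMod (l + 2))) =
      ((a + 2 : ℕ) : ZMod (l + 2)) := by
  have h := nU_add_nD w (a + 1)
  have h1 : ((nU w (a + 1) + nD w (a + 1) : ℕ) : ZMod (l + 2)) = ((a + 1 : ℕ) : ZMod (l + 2)) := by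
    rw [h]
  push_cast at h1 ⊢
  linear_combination h1

private theorem TriB_mut_neg {r : ℕ} (s : Seed K r) (c i : Fin r) (hi : i ≠ c)
    (h : s.ε i c = -1) : (s.mutate c).y i = s.y i * (1 + s.y c) := by
  unfold Seed.mutate
  simp only [if_neg hi, h]
  norm_num

private theorem TriB_mut_zero {r : ℕ} (s : Seed K r) (c i : Fin r) (hi : i ≠ c)
    (h : s.ε i c = 0) : (s.mutate c).y i = s.y i := by
  unfold Seed.mutate
  simp only [if_neg hi, h]
  norm_num

private theorem TriB_eps_anti (r : ℕ) (w : ℕ → Bool) (i j : Fin r) :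
    epsW r w j i = - epsW r w i j := by
  unfold epsW
  by_cases h1 : j.val = i.val + 1
  · rw [if_neg (by omega), if_pos h1, if_pos h1]
    cases w j.val <;> simp
  · by_cases h2 : i.val = j.val + 1
    · rw [if_pos h2, if_neg h1, if_pos h2]
      cases w i.val <;> simp
    · rw [if_neg h2, if_neg h1, if_neg h1, if_neg h2, neg_zero]

/-- Mutation at `a` when `w a = true` (`U`), `w (a+1) = false` (`D`), `w'` = the word with the two letters exchanged.
Write `t = c + 1 + nU w (a+1)`, `b = c - nD w (a+1)`, `x = F.x`.  Here `P = t - 1`, `Q = b - 1`,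
`y_a = x t (b-1) * x b (t-1) / (x (b-1) b * x t (t-1))`.
For `w'`: the diagonal number `a+1` is `t' = t - 1`, `b' = b - 1`, `P' = b`, `Q' = t`:
`y'_a = x (t-1) t * x (b-1) b / (x t (b-1) * x (t-1) b) = y_a⁻¹` (`anti`).
Neighbour `a + 1` (if `a + 1 < l - 1`): `t`, `b - 1`, same `Q`; `P = b` for `w`, `P = t - 1` for `w'`;
`epsW (a+1) a = -1`, so the mutation rule is `y_(a+1) * (1 + y_a)`; the ratio of the two values is
`x (b-1) (t-1) * x t b / (x (b-1) b * x t (t-1))`, which is `1 + y_a` by `pl` at `t, b, b-1, t-1`.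
Neighbour `a - 1` (if `1 ≤ a`): `t - 1`, `b`, same `P`; `Q = t` for `w`, `Q = b - 1` for `w'`; `epsW (a-1) a = -1`, rule
`y_(a-1) * (1 + y_a)`; the ratio is `x (t-1) (b-1) * x t b / (x (b-1) b * x (t-1) t) = 1 + y_a`.
Other indices `i`: `epsW i a = 0`, rule `y_i * (1 + y_a ^ 0) ^ 0 = y_i`, and `T` has the same value for `w` and `w'`
(`nU w' s = nU w s` for `s ≠ a + 1`).
Exchange matrix: entries with `i = a` or `j = a` change sign; the others do not change: the correction term
vanishes because `epsW (a-1) a = -1` and `epsW a (a+1) = 1` (sink/source), so also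
`|ε i a| * ε a j + ε i a * |ε a j| = 0` in all cases.
Genericity: the indices used are different: `t - b = l_a + ...`: in `ZMod (l+2)`, `t = b + 1 + (a + 1)` with
`1 ≤ a + 1 ≤ l - 1`, so `t ≠ b`, `t - 1 ≠ b`, `t ≠ b - 1` etc. -/
theorem T_swap1 (l : ℕ) (c : ZMod (l + 2)) (w w' : ℕ → Bool) (F : Fr (l + 2) K) (hF : Gen F)
    (a : Fin (l - 1)) (h0 : w a = true) (h1 : w (a + 1) = false) (h0' : w' a = false)
    (h1' : w' (a + 1) = true) (h : ∀ i, i ≠ a.val → i ≠ a.val + 1 → w i = w' i) :
    (T l c w F).mutate a = T l c w' F := by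
  have hal : a.val < l - 1 := a.isLt
  have hn := TriB_nU (a := a.val) (w := w) (w' := w') (by rw [h0, h1]; rfl)
    (by rw [h0', h1']; rfl) h
  have eU : nU w (a.val + 1) = nU w a.val + 1 := by
    show nU w a.val + (if w a.val then 1 else 0) = _
    rw [h0]; rfl
  have eD : nD w (a.val + 1) = nD w a.val := by
    show nD w a.val + (if w a.val then 0 else 1) = _
    rw [h0]; rfl
  have eU' : nU w' (a.val + 1) = nU w a.val := by
    show nU w' a.val + (if w' a.val then 1 else 0) = _
    rw [h0', (hn a.val (by omega)).1]; rfl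
  have eD' : nD w' (a.val + 1) = nD w a.val + 1 := by
    show nD w' a.val + (if w' a.val then 0 else 1) = _
    rw [h0', (hn a.val (by omega)).2]; rfl
  have eU2 : nU w (a.val + 2) = nU w a.val + 1 := by
    show nU w (a.val + 1) + (if w (a.val + 1) then 1 else 0) = _
    rw [h1, eU]; rfl
  have eD2 : nD w (a.val + 2) = nD w a.val + 1 := by
    show nD w (a.val + 1) + (if w (a.val + 1) then 0 else 1) = _
    rw [h1, eD]; rfl
  set t : ZMod (l + 2) := c + 1 + (nU w (a.val + 1) : ZMod (l + 2)) with ht
  set b : ZMod (l + 2) := c - (nD w (a.val + 1) : ZMod (l + 2)) with hb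
  have htb : t ≠ b := by
    intro hc
    have h2 := TriB_tb (l := l) c w a.val
    rw [← ht, ← hb, hc, sub_self] at h2
    exact TriB_ne (by omega) (by omega) h2.symm
  have hu : F.x t b ≠ 0 := hF t b htb
  have hya : (T l c w F).y a = TriB_cr F t b (b - 1) (t - 1) := by
    rw [TriB_y l c w F a t b rfl rfl, h0, h1]
    rfl
  have tA : c + 1 + (nU w a.val : ZMod (l + 2)) = t - 1 := by
    rw [ht, eU]
    push_cast
    ring
  have bA : c - (nD w a.val : ZMod (l + 2)) = b := by
    rw [hb, eD]
  have tB : c + 1 + ((nU w a.val + 1 : ℕ) : ZMod (l + 2)) = t := by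
    rw [ht, eU]
  have bB : c - ((nD w a.val + 1 : ℕ) : ZMod (l + 2)) = b - 1 := by
    rw [hb, eD]
    push_cast
    ring
  have epsdef : ∀ (v : ℕ → Bool) (i j : Fin (l - 1)), (T l c v F).ε i j = epsW (l - 1) v i j :=
    fun _ _ _ => rfl
  have hy : ∀ i, ((T l c w F).mutate a).y i = (T l c w' F).y i := by
    intro i
    by_cases hi : i = a
    · subst hi
      have e1 : ((T l c w F).mutate i).y i = ((T l c w F).y i)⁻¹ := by
        unfold Seed.mutate
        simp only [if_true]
      rw [e1, hya, TriB_y l c w' F i (t - 1) (b - 1) (by rw [eU']; exact tA)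
        (by rw [eD']; exact bB), h0', h1', ← TriB_ya']
      simp only [if_true, sub_add_cancel]
      rfl
    · have hiv : i.val ≠ a.val := fun hc => hi (Fin.ext hc)
      by_cases hi1 : i.val = a.val + 1
      · have he : (T l c w F).ε i a = -1 := by
          rw [epsdef]
          unfold epsW
          rw [if_neg (by omega), if_pos hi1, hi1, h1]
          rfl
        rw [TriB_mut_neg _ _ _ hi he, hya]
        have e2 : nU w (i.val + 1) = nU w a.val + 1 := by rw [hi1]; exact eU2
        have e3 : nD w (i.val + 1) = nD w a.val + 1 := by rw [hi1]; exact eD2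
        have e2' : nU w' (i.val + 1) = nU w a.val + 1 := by
          rw [← (hn (i.val + 1) (by omega)).1]; exact e2
        have e3' : nD w' (i.val + 1) = nD w a.val + 1 := by
          rw [← (hn (i.val + 1) (by omega)).2]; exact e3
        rw [TriB_y l c w F i t (b - 1) (by rw [e2]; exact tB) (by rw [e3]; exact bB),
          TriB_y l c w' F i t (b - 1) (by rw [e2']; exact tB) (by rw [e3']; exact bB)]
        have e4 : w i.val = false := by rw [hi1]; exact h1
        have e4' : w' i.val = true := by rw [hi1]; exact h1'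
        have e5 : w (i.val + 1) = w' (i.val + 1) := h _ (by omega) (by omega)
        rw [e4, e4', e5]
        simp only [if_true, sub_add_cancel]
        exact TriB_next F t b _ hu
      · by_cases hi2 : i.val + 1 = a.val
        · have he : (T l c w F).ε i a = -1 := by
            rw [epsdef]
            unfold epsW
            rw [if_pos hi2.symm, h0]
            rfl
          rw [TriB_mut_neg _ _ _ hi he, hya]
          have e2 : nU w (i.val + 1) = nU w a.val := by rw [hi2]
          have e3 : nD w (i.val + 1) = nD w a.val := by rw [hi2]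
          have e2' : nU w' (i.val + 1) = nU w a.val := by
            rw [← (hn (i.val + 1) (by omega)).1]; exact e2
          have e3' : nD w' (i.val + 1) = nD w a.val := by
            rw [← (hn (i.val + 1) (by omega)).2]; exact e3
          rw [TriB_y l c w F i (t - 1) b (by rw [e2]; exact tA) (by rw [e3]; exact bA),
            TriB_y l c w' F i (t - 1) b (by rw [e2']; exact tA) (by rw [e3']; exact bA)]
          have e4 : w (i.val + 1) = true := by rw [hi2]; exact h0
          have e4' : w' (i.val + 1) = false := by rw [hi2]; exact h0'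
          have e5 : w i.val = w' i.val := h _ (by omega) (by omega)
          rw [e4, e4', e5]
          simp only [if_true, sub_add_cancel]
          exact TriB_prev F t b _ hu
        · have he : (T l c w F).ε i a = 0 := by
            rw [epsdef]
            unfold epsW
            rw [if_neg (by omega), if_neg hi1]
          rw [TriB_mut_zero _ _ _ hi he]
          have e2 := hn (i.val + 1) (by omega)
          have e4 : w i.val = w' i.val := h _ hiv hi1
          have e5 : w (i.val + 1) = w' (i.val + 1) := h _ (by omega) (by omega)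
          rw [TriB_y l c w F i _ _ rfl rfl, TriB_y l c w' F i _ _ rfl rfl, e4, e5, e2.1, e2.2]
  have hε : ∀ i j, ((T l c w F).mutate a).ε i j = (T l c w' F).ε i j := by
    intro i j
    rw [epsdef]
    by_cases hij : i = a ∨ j = a
    · have e1 : ((T l c w F).mutate a).ε i j = - epsW (l - 1) w i j := by
        unfold Seed.mutate
        simp only [if_pos hij]
        rfl
      rw [e1]
      unfold epsW
      rcases hij with hi | hj
      · subst hi
        by_cases h2 : j.val = i.val + 1
        · rw [if_pos h2, if_pos h2, h2, h1, h1']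
          rfl
        · by_cases h3 : i.val = j.val + 1
          · rw [if_neg h2, if_pos h3, if_neg h2, if_pos h3, h0, h0']
            rfl
          · rw [if_neg h2, if_neg h3, if_neg h2, if_neg h3, neg_zero]
      · subst hj
        by_cases h2 : j.val = i.val + 1
        · rw [if_pos h2, if_pos h2, h0, h0']
          rfl
        · by_cases h3 : i.val = j.val + 1
          · rw [if_neg h2, if_pos h3, if_neg h2, if_pos h3, h3, h1, h1']
            rfl
          · rw [if_neg h2, if_neg h3, if_neg h2, if_neg h3, neg_zero]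
    · have hia : i ≠ a := fun hc => hij (Or.inl hc)
      have hja : j ≠ a := fun hc => hij (Or.inr hc)
      have hiv : i.val ≠ a.val := fun hc => hia (Fin.ext hc)
      have hjv : j.val ≠ a.val := fun hc => hja (Fin.ext hc)
      have e1 : ((T l c w F).mutate a).ε i j = epsW (l - 1) w i j +
          (|epsW (l - 1) w i a| * epsW (l - 1) w a j +
            epsW (l - 1) w i a * |epsW (l - 1) w a j|) / 2 := by
        unfold Seed.mutate
        simp only [if_neg hij]
        rfl
      have e2 : epsW (l - 1) w i a = 0 ∨ epsW (l - 1) w i a = -1 := by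
        unfold epsW
        by_cases h2 : a.val = i.val + 1
        · right
          rw [if_pos h2, h0]
          rfl
        · by_cases h3 : i.val = a.val + 1
          · right
            rw [if_neg h2, if_pos h3, h3, h1]
            rfl
          · left
            rw [if_neg h2, if_neg h3]
      have e3 : epsW (l - 1) w a j = 0 ∨ epsW (l - 1) w a j = 1 := by
        rw [TriB_eps_anti]
        have : epsW (l - 1) w j a = 0 ∨ epsW (l - 1) w j a = -1 := by
          unfold epsW
          by_cases h2 : a.val = j.val + 1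
          · right
            rw [if_pos h2, h0]
            rfl
          · by_cases h3 : j.val = a.val + 1
            · right
              rw [if_neg h2, if_pos h3, h3, h1]
              rfl
            · left
              rw [if_neg h2, if_neg h3]
        rcases this with h4 | h4
        · left
          rw [h4, neg_zero]
        · right
          rw [h4, neg_neg]
      have e4 : |epsW (l - 1) w i a| * epsW (l - 1) w a j +
            epsW (l - 1) w i a * |epsW (l - 1) w a j| = 0 := by
        rcases e2 with h2 | h2 <;> rcases e3 with h3 | h3 <;> rw [h2, h3] <;> rfl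
      rw [e1, e4, Int.zero_ediv, add_zero]
      unfold epsW
      by_cases h2 : j.val = i.val + 1
      · rw [if_pos h2, if_pos h2, h j.val hjv (by omega)]
      · by_cases h3 : i.val = j.val + 1
        · rw [if_neg h2, if_pos h3, if_neg h2, if_pos h3, h i.val hiv (by omega)]
        · rw [if_neg h2, if_neg h3, if_neg h2, if_neg h3]
  exact Seed.ext (funext fun i => funext fun j => hε i j) (funext hy)

/-- mutation is an involution on seeds with `ε` antisymmetric, `y c ≠ 0`, `1 + y c ≠ 0` -/
theorem mutate_mutate {r : ℕ} (s : Seed K r) (c : Fin r) (ha : ∀ i j, s.ε j i = - s.ε i j)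
    (hy : s.y c ≠ 0) (hy1 : 1 + s.y c ≠ 0) : (s.mutate c).mutate c = s := by
  apply Seed.ext
  · funext i j
    by_cases hij : i = c ∨ j = c
    · unfold Seed.mutate
      simp only [if_pos hij, neg_neg]
    · have hic : i ≠ c := fun hc => hij (Or.inl hc)
      have hjc : j ≠ c := fun hc => hij (Or.inr hc)
      have e0 : ((s.mutate c).mutate c).ε i j = (s.mutate c).ε i j +
          (|(s.mutate c).ε i c| * (s.mutate c).ε c j +
            (s.mutate c).ε i c * |(s.mutate c).ε c j|) / 2 := by
        show (if i = c ∨ j = c then - (s.mutate c).ε i j else _) = _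
        rw [if_neg hij]
      have e1 : (s.mutate c).ε i j = s.ε i j +
          (|s.ε i c| * s.ε c j + s.ε i c * |s.ε c j|) / 2 := by
        show (if i = c ∨ j = c then - s.ε i j else _) = _
        rw [if_neg hij]
      have e2 : (s.mutate c).ε i c = - s.ε i c := by
        show (if i = c ∨ c = c then - s.ε i c else _) = _
        rw [if_pos (Or.inr rfl)]
      have e3 : (s.mutate c).ε c j = - s.ε c j := by
        show (if c = c ∨ j = c then - s.ε c j else _) = _
        rw [if_pos (Or.inl rfl)]
      obtain ⟨k, hk⟩ : ∃ k : ℤ, |s.ε i c| * s.ε c j + s.ε i c * |s.ε c j| = 2 * k := by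
        rcases le_total 0 (s.ε i c) with h1 | h1 <;> rcases le_total 0 (s.ε c j) with h2 | h2
        · exact ⟨s.ε i c * s.ε c j, by rw [abs_of_nonneg h1, abs_of_nonneg h2]; ring⟩
        · exact ⟨0, by rw [abs_of_nonneg h1, abs_of_nonpos h2]; ring⟩
        · exact ⟨0, by rw [abs_of_nonpos h1, abs_of_nonneg h2]; ring⟩
        · exact ⟨- (s.ε i c * s.ε c j), by rw [abs_of_nonpos h1, abs_of_nonpos h2]; ring⟩
      have e4 : |-s.ε i c| * -s.ε c j + -s.ε i c * |-s.ε c j| = 2 * (-k) := by
        rw [abs_neg, abs_neg]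
        linear_combination -hk
      rw [e0, e1, e2, e3, e4, hk, Int.mul_ediv_cancel_left _ (by norm_num),
        Int.mul_ediv_cancel_left _ (by norm_num)]
      ring
  · funext i
    by_cases hi : i = c
    · subst hi
      unfold Seed.mutate
      simp only [if_true, inv_inv]
    · have e0 : ((s.mutate c).mutate c).y i = (s.mutate c).y i *
          (1 + (s.mutate c).y c ^ (-((s.mutate c).ε i c).sign)) ^ (-((s.mutate c).ε i c)) := by
        show (if i = c then ((s.mutate c).y c)⁻¹ else _) = _
        rw [if_neg hi]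
      have e1 : (s.mutate c).y i = s.y i * (1 + s.y c ^ (-(s.ε i c).sign)) ^ (-(s.ε i c)) := by
        show (if i = c then (s.y c)⁻¹ else _) = _
        rw [if_neg hi]
      have e2 : (s.mutate c).y c = (s.y c)⁻¹ := by
        show (if c = c then (s.y c)⁻¹ else _) = _
        rw [if_pos rfl]
      have e3 : (s.mutate c).ε i c = - s.ε i c := by
        show (if i = c ∨ c = c then - s.ε i c else _) = _
        rw [if_pos (Or.inr rfl)]
      have e4 : (s.y c)⁻¹ ^ (-(-s.ε i c).sign) = s.y c ^ (-(s.ε i c).sign) := by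
        rw [Int.sign_neg, neg_neg, inv_zpow, zpow_neg]
      rw [e0, e1, e2, e3, e4, neg_neg, mul_assoc]
      rcases lt_trichotomy (s.ε i c) 0 with h | h | h
      · have hs : (s.ε i c).sign = -1 := Int.sign_eq_neg_one_of_neg h
        rw [hs, neg_neg, zpow_one, ← zpow_add₀ hy1, neg_add_cancel, zpow_zero, mul_one]
      · rw [h, neg_zero, zpow_zero, mul_one, mul_one]
      · have hs : (s.ε i c).sign = 1 := Int.sign_eq_one_of_pos h
        have hz : 1 + s.y c ^ (-1 : ℤ) ≠ 0 := by
          rw [zpow_neg, zpow_one]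
          intro hc
          apply hy1
          field_simp at hc
          linear_combination hc
        rw [hs, ← zpow_add₀ hz, neg_add_cancel, zpow_zero, mul_one]

/-- The opposite exchange, from `T_swap1` (for `w'`, `w`) and `mutate_mutate` (`y_a ≠ 0` and
`1 + y_a = x t b * x (b-1) (t-1) / (x (b-1) b * x t (t-1)) ≠ 0` for the word `w'`). -/
theorem T_swap2 (l : ℕ) (c : ZMod (l + 2)) (w w' : ℕ → Bool) (F : Fr (l + 2) K) (hF : Gen F)
    (a : Fin (l - 1)) (h0 : w a = false) (h1 : w (a + 1) = true) (h0' : w' a = true)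
    (h1' : w' (a + 1) = false) (h : ∀ i, i ≠ a.val → i ≠ a.val + 1 → w i = w' i) :
    (T l c w F).mutate a = T l c w' F := by
  have hal : a.val < l - 1 := a.isLt
  have hs := T_swap1 l c w' w F hF a h0' h1' h0 h1 (fun i hi hi1 => (h i hi hi1).symm)
  rw [← hs]
  set t : ZMod (l + 2) := c + 1 + (nU w' (a.val + 1) : ZMod (l + 2)) with ht
  set b : ZMod (l + 2) := c - (nD w' (a.val + 1) : ZMod (l + 2)) with hb
  have h2 := TriB_tb (l := l) c w' a.val
  rw [← ht, ← hb] at h2
  have hya : (T l c w' F).y a = TriB_cr F t b (b - 1) (t - 1) := by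
    rw [TriB_y l c w' F a t b rfl rfl, h0', h1']
    rfl
  have n1 : t ≠ b := by
    intro hc
    rw [hc, sub_self] at h2
    exact TriB_ne (by omega) (by omega) h2.symm
  have n2 : t ≠ b - 1 := by
    intro hc
    have h3 : ((a.val + 3 : ℕ) : ZMod (l + 2)) = 0 := by
      have h4 : ((a.val + 3 : ℕ) : ZMod (l + 2)) = ((a.val + 2 : ℕ) : ZMod (l + 2)) + 1 := by
        push_cast
        ring
      rw [h4, ← h2, hc]
      ring
    exact TriB_ne (by omega) (by omega) h3
  have n3 : b ≠ t - 1 := by
    intro hc
    have h3 : ((a.val + 1 : ℕ) : ZMod (l + 2)) = 0 := by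
      have h4 : ((a.val + 1 : ℕ) : ZMod (l + 2)) = ((a.val + 2 : ℕ) : ZMod (l + 2)) - 1 := by
        push_cast
        ring
      rw [h4, ← h2, hc]
      ring
    exact TriB_ne (by omega) (by omega) h3
  have n4 : b - 1 ≠ t - 1 := fun hc => n1 (sub_left_injective hc).symm
  apply mutate_mutate
  · intro i j
    exact TriB_eps_anti _ _ _ _
  · rw [hya, TriB_ya]
    exact neg_ne_zero.mpr (mul_ne_zero (hF _ _ n2) (hF _ _ n3))
  · rw [hya, TriB_one_add]
    exact neg_ne_zero.mpr (mul_ne_zero (hF _ _ n1) (hF _ _ n4))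

end Pool.Agent.Lib.MP_d4c67c_gt
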