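import Pool.Agent.Lib.MP_d4c67c_gt.Fr
import Pool.Agent.Lib.MP_d4c67c_gt.Defs

/-!
# Seeds of strip triangulations on friezes: definitions
-/

namespace Pool.Agent.Lib.MP_d4c67c_gt

/-- generic frieze: all entries `x i j`, `i ≠ j`, are not zero -/
def Gen {N : ℕ} {K : Type*} [Field K] (F : Fr N K) : Prop := ∀ i j, i ≠ j → F.x i j ≠ 0

/-- the seed of the strip triangulation with left edge `{c+1, c}` and word `w` on a frieze of order `l+2`:
the diagonal number `a + 1` is `{t, b}`, `t = c + 1 + nU w (a+1)`, `b = c - nD w (a+1)`, and the coordinate is the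
cross ratio of `t, Q, b, P`, with `P`, `Q` the third vertices of the triangles to its left and right -/
noncomputable def T {K : Type*} [Field K] (l : ℕ) (c : ZMod (l + 2)) (w : ℕ → Bool) (F : Fr (l + 2) K) :
    Seed K (l - 1) where
  ε := epsW (l - 1) w
  y a :=
    F.x (c + 1 + (nU w (a + 1) : ZMod (l + 2)))
        (if w (a + 1) then c + 1 + (nU w (a + 1) : ZMod (l + 2)) + 1
          else c - (nD w (a + 1) : ZMod (l + 2)) - 1) *
      F.x (c - (nD w (a + 1) : ZMod (l + 2)))
        (if w a then c + 1 + (nU w (a + 1) : ZMod (l + 2)) - 1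
          else c - (nD w (a + 1) : ZMod (l + 2)) + 1) /
      (F.x (if w (a + 1) then c + 1 + (nU w (a + 1) : ZMod (l + 2)) + 1
          else c - (nD w (a + 1) : ZMod (l + 2)) - 1) (c - (nD w (a + 1) : ZMod (l + 2))) *
       F.x (c + 1 + (nU w (a + 1) : ZMod (l + 2)))
        (if w a then c + 1 + (nU w (a + 1) : ZMod (l + 2)) - 1
          else c - (nD w (a + 1) : ZMod (l + 2)) + 1))

/-- the dual seed: opposite exchange matrix, inverse coordinates -/
def Seed.anti {K : Type*} [Field K] {r : ℕ} (s : Seed K r) : Seed K r where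
  ε i j := - s.ε i j
  y i := (s.y i)⁻¹

end Pool.Agent.Lib.MP_d4c67c_gt
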